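import Pool.Agent.Y393.Net2G

noncomputable section
open scoped Classical

namespace Pool.Agent.Y393.Net2

open Pool.Agent.Helper544.Planar
open Pool.Agent.Y393.Net3T (u u_sum' u_ne_zero comb_ne comb_eq norm_comb indep2 fin3_ne)

/-- index into the levels -/
def idx (m i : ℕ) : Fin (m + 1) := ⟨min i m, by omega⟩

theorem idx_val {m i : ℕ} (h : i ≤ m) : (idx m i).val = i := by
  unfold idx; simp only; omega

theorem radii {m : ℕ} (hm : 1 ≤ m) {r : Rg (m + 1) → ℝ} (hr : ∀ p, 0 < r p ∧ r p ≤ 10)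
    (h : ∀ p, ∑ q, (Mm p q : ℝ) * K (r p) (r q) + (ww p : ℝ) * K (r p) 20 = ee p) :
    StrictAnti (fun i : Fin (m + 1) => r (Sum.inl i)) ∧
    StrictAnti (fun i : Fin (m + 1) => r (Sum.inr (Sum.inl i))) ∧
    StrictAnti (fun i : Fin (m + 1) => r (Sum.inr (Sum.inr i))) ∧
    ∀ i j, r (Sum.inr (Sum.inr i)) < r (Sum.inr (Sum.inl j)) := by
  set b : ℕ → ℝ := fun i => r (Sum.inl (idx m i)) with hb
  set c : ℕ → ℝ := fun i => r (Sum.inr (Sum.inl (idx m i))) with hc
  set a : ℕ → ℝ := fun i => r (Sum.inr (Sum.inr (idx m i))) with ha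
  have O := order hm b c a (fun i _ => (hr _).1) (fun i _ => (hr _).1) (fun i _ => (hr _).1)
    (fun i _ => (hr _).2) ?_ ?_ ?_ ?_ ?_
  · obtain ⟨o1, o2, o3, o4⟩ := O
    have es : ∀ i : Fin m, idx m (i.val + 1) = i.succ := by
      intro i; apply Fin.ext; rw [idx_val (by omega)]; rfl
    have ec : ∀ i : Fin m, idx m i.val = i.castSucc := by
      intro i; apply Fin.ext; rw [idx_val (by omega)]; rfl
    have s1 : StrictAnti (fun i : Fin (m + 1) => r (Sum.inl i)) := by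
      rw [Fin.strictAnti_iff_succ_lt]
      intro i
      have := o1 i.val i.2
      simp only [hb] at this
      rwa [es, ec] at this
    have s2 : StrictAnti (fun i : Fin (m + 1) => r (Sum.inr (Sum.inl i))) := by
      rw [Fin.strictAnti_iff_succ_lt]
      intro i
      have := o3 i.val i.2
      simp only [hc] at this
      rwa [es, ec] at this
    have s3 : StrictAnti (fun i : Fin (m + 1) => r (Sum.inr (Sum.inr i))) := by
      rw [Fin.strictAnti_iff_succ_lt]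
      intro i
      have := o2 i.val i.2
      simp only [ha] at this
      rwa [es, ec] at this
    refine ⟨s1, s2, s3, fun i j => ?_⟩
    have t1 : r (Sum.inr (Sum.inr i)) ≤ a 0 := by
      apply s3.antitone
      rw [Fin.le_def, idx_val (Nat.zero_le m)]
      omega
    have t2 : c m ≤ r (Sum.inr (Sum.inl j)) := by
      apply s2.antitone
      rw [Fin.le_def, idx_val le_rfl]
      have := j.2
      omega
    linarith
  · have e := h (Sum.inl (idx m 0))
    rw [sumB (idx m 0) (fun q => K (r (Sum.inl (idx m 0))) (r q))] at e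
    have v := idx_val (m := m) (Nat.zero_le m)
    simp only [ww, ee] at e
    rw [if_neg (by omega), if_pos v] at e
    push_cast at e
    simp only [hb, hc, ha]
    linarith
  · intro i hi
    have e := h (Sum.inl (idx m (i + 1)))
    rw [sumB (idx m (i + 1)) (fun q => K (r (Sum.inl (idx m (i + 1)))) (r q))] at e
    have v := idx_val (m := m) (i := i + 1) hi
    have v' := idx_val (m := m) (i := i) hi.le
    simp only [ww, ee] at e
    rw [if_pos (by omega), if_neg (by omega)] at e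
    have e2 : (⟨(idx m (i + 1)).val - 1, lt_of_le_of_lt (Nat.sub_le _ _) (idx m (i + 1)).2⟩ : Fin (m + 1)) =
        idx m i := by
      apply Fin.ext; simp only; omega
    rw [e2] at e
    push_cast at e
    simp only [hb, hc, ha]
    linarith
  · intro i hi
    have e := h (Sum.inr (Sum.inl (idx m i)))
    rw [sumC (idx m i) (fun q => K (r (Sum.inr (Sum.inl (idx m i)))) (r q))] at e
    simp only [ww, ee] at e
    push_cast at e
    simp only [hb, hc]
    linarith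
  · intro i hi
    have e := h (Sum.inr (Sum.inr (idx m i)))
    rw [sumA (idx m i) (fun q => K (r (Sum.inr (Sum.inr (idx m i)))) (r q))] at e
    have v := idx_val (m := m) (i := i + 1) hi
    have v' := idx_val (m := m) (i := i) hi.le
    simp only [ww, ee] at e
    rw [dif_pos (by omega)] at e
    have e2 : (⟨(idx m i).val + 1, by omega⟩ : Fin (m + 1)) = idx m (i + 1) := by
      apply Fin.ext; simp only; omega
    rw [e2] at e
    push_cast at e
    simp only [hb, ha]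
    linarith
  · have e := h (Sum.inr (Sum.inr (idx m m)))
    rw [sumA (idx m m) (fun q => K (r (Sum.inr (Sum.inr (idx m m)))) (r q))] at e
    have v := idx_val (m := m) (i := m) le_rfl
    simp only [ww, ee] at e
    rw [dif_neg (by omega)] at e
    push_cast at e
    simp only [hb, ha]
    linarith

/-- rings together with the boundary ring -/
abbrev RgB (n : ℕ) := Unit ⊕ Rg n

abbrev Ix (n : ℕ) := RgB n × Fin 3

def sg {n : ℕ} (r : Rg n → ℝ) : RgB n → ℝ
  | Sum.inl _ => -20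
  | Sum.inr (Sum.inl i) => -(r (Sum.inl i))
  | Sum.inr (Sum.inr x) => r (Sum.inr x)

def MM {n : ℕ} : RgB n → RgB n → ℕ
  | Sum.inl _, Sum.inl _ => 0
  | Sum.inl _, Sum.inr p => ww p
  | Sum.inr p, Sum.inl _ => ww p
  | Sum.inr p, Sum.inr q => Mm p q

def EE {n : ℕ} : RgB n → RgB n → ℕ
  | Sum.inl _, Sum.inl _ => 0
  | Sum.inl _, Sum.inr p => ee p
  | Sum.inr p, Sum.inl _ => ee p
  | Sum.inr _, Sum.inr _ => 0

def posf {n : ℕ} (r : Rg n → ℝ) (x : Ix n) : ℂ := (sg r x.1 : ℂ) * u x.2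

def Wf {n : ℕ} (x y : Ix n) : ℕ := if x.2 ≠ y.2 then MM x.1 y.1 else EE x.1 y.1

theorem Mm_symm {n : ℕ} (p q : Rg n) : Mm p q = Mm q p := by
  rcases p with i | i | i <;> rcases q with j | j | j <;> simp [Mm]

theorem MM_symm {n : ℕ} (p q : RgB n) : MM p q = MM q p := by
  rcases p with p | p <;> rcases q with q | q
  · rfl
  · rfl
  · rfl
  · exact Mm_symm p q

theorem EE_symm {n : ℕ} (p q : RgB n) : EE p q = EE q p := by
  rcases p with p | p <;> rcases q with q | q <;> rfl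

theorem Wf_symm {n : ℕ} (x y : Ix n) : Wf x y = Wf y x := by
  unfold Wf
  by_cases h : x.2 = y.2
  · rw [if_neg (by simpa using h), if_neg (by simpa using h.symm), EE_symm]
  · rw [if_pos h, if_pos (Ne.symm h), MM_symm]

theorem Wf_diag {n : ℕ} (x : Ix n) : Wf x x = 0 := by
  unfold Wf
  rw [if_neg (by simp)]
  rcases x with ⟨p | p, j⟩ <;> rfl

theorem Wf_le {n : ℕ} (x y : Ix n) : Wf x y ≤ 2 := by
  have hw : ∀ p : Rg n, ww p ≤ 2 := by rintro (i | i | i) <;> simp [ww]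
  have he : ∀ p : Rg n, ee p ≤ 2 := by
    rintro (i | i | i) <;> simp only [ee]
    · split_ifs <;> norm_num
    · norm_num
    · norm_num
  have hM : ∀ p q : Rg n, Mm p q ≤ 2 := by
    rintro (i | i | i) (j | j | j) <;> simp only [Mm] <;> (try split_ifs) <;> norm_num
  unfold Wf
  rcases x with ⟨p | p, j⟩ <;> rcases y with ⟨q | q, k⟩ <;> simp only [MM, EE] <;> split_ifs
  · norm_num
  · norm_num
  · exact hw q
  · exact he q
  · exact hw p
  · exact he p
  · exact hM p q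
  · norm_num

theorem MM_sign {n : ℕ} {r : Rg n → ℝ} (hr : ∀ p, 0 < r p ∧ r p ≤ 10) {p q : RgB n} (h : MM p q ≠ 0) :
    (0 < sg r p ∧ sg r q < 0) ∨ (0 < sg r q ∧ sg r p < 0) := by
  rcases p with p | i | x <;> rcases q with q | j | y
  · exact absurd rfl h
  · simp [MM, ww] at h
  · right; exact ⟨(hr _).1, by simp [sg]⟩
  · simp [MM, ww] at h
  · simp [MM, Mm] at h
  · right; exact ⟨(hr _).1, by simp only [sg]; linarith [(hr (Sum.inl i)).1]⟩
  · left; exact ⟨(hr _).1, by simp [sg]⟩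
  · left; exact ⟨(hr _).1, by simp only [sg]; linarith [(hr (Sum.inl j)).1]⟩
  · rcases x with x | x <;> rcases y with y | y <;> simp [MM, Mm] at h

theorem ee_ne {n : ℕ} {p : Rg n} (h : ee p ≠ 0) : ∃ i : Fin n, i.val = 0 ∧ p = Sum.inl i := by
  rcases p with i | x
  · simp only [ee] at h
    by_cases h0 : i.val = 0
    · exact ⟨i, h0, rfl⟩
    · rw [if_neg h0] at h; exact absurd rfl h
  · exact absurd rfl h

theorem EE_desc {n : ℕ} {p q : RgB n} (h : EE p q ≠ 0) : ∃ i : Fin n, i.val = 0 ∧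
    ((p = Sum.inl () ∧ q = Sum.inr (Sum.inl i)) ∨ (q = Sum.inl () ∧ p = Sum.inr (Sum.inl i))) := by
  rcases p with p | p <;> rcases q with q | q
  · exact absurd rfl h
  · obtain ⟨i, h0, rfl⟩ := ee_ne (p := q) h
    exact ⟨i, h0, Or.inl ⟨rfl, rfl⟩⟩
  · obtain ⟨i, h0, rfl⟩ := ee_ne (p := p) h
    exact ⟨i, h0, Or.inr ⟨rfl, rfl⟩⟩
  · exact absurd rfl h

theorem sg_inj {m : ℕ} (hm : 1 ≤ m) {r : Rg (m + 1) → ℝ} (hr : ∀ p, 0 < r p ∧ r p ≤ 10)
    (h : ∀ p, ∑ q, (Mm p q : ℝ) * K (r p) (r q) + (ww p : ℝ) * K (r p) 20 = ee p) :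
    Function.Injective (sg r) := by
  obtain ⟨s1, s2, s3, s4⟩ := radii hm hr h
  rintro (p | i | x | x) (q | j | y | y) e <;> simp only [sg] at e
  · rfl
  · linarith [(hr (Sum.inl j)).2]
  · linarith [(hr (Sum.inr (Sum.inl y))).1]
  · linarith [(hr (Sum.inr (Sum.inr y))).1]
  · linarith [(hr (Sum.inl i)).2]
  · have := s1.injective (neg_injective e)
    rw [this]
  · linarith [(hr (Sum.inl i)).1, (hr (Sum.inr (Sum.inl y))).1]
  · linarith [(hr (Sum.inl i)).1, (hr (Sum.inr (Sum.inr y))).1]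
  · linarith [(hr (Sum.inr (Sum.inl x))).1]
  · linarith [(hr (Sum.inl j)).1, (hr (Sum.inr (Sum.inl x))).1]
  · have := s2.injective e
    rw [this]
  · linarith [s4 y x]
  · linarith [(hr (Sum.inr (Sum.inr x))).1]
  · linarith [(hr (Sum.inl j)).1, (hr (Sum.inr (Sum.inr x))).1]
  · linarith [s4 x y]
  · have := s3.injective e
    rw [this]

theorem sg_ne {n : ℕ} {r : Rg n → ℝ} (hr : ∀ p, 0 < r p ∧ r p ≤ 10) (p : RgB n) : sg r p ≠ 0 := by
  rcases p with p | i | x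
  · simp [sg]
  · simp only [sg]; linarith [(hr (Sum.inl i)).1]
  · simp only [sg]; linarith [(hr (Sum.inr x)).1]

theorem posf_inj {n : ℕ} {r : Rg n → ℝ} (hr : ∀ p, 0 < r p ∧ r p ≤ 10) (hinj : Function.Injective (sg r)) :
    Function.Injective (posf r) := by
  rintro ⟨p, j⟩ ⟨q, k⟩ e
  simp only [posf] at e
  by_cases hjk : j = k
  · subst hjk
    rw [hinj (comb_eq e)]
  · exact absurd (comb_ne hjk e).1 (sg_ne hr p)

theorem seg_desc {n : ℕ} {r : Rg n → ℝ} (hr : ∀ p, 0 < r p ∧ r p ≤ 10) {x y : Ix n} (h : Wf x y ≠ 0) :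
    (∃ j k a b, j ≠ k ∧ 0 < sg r a ∧ sg r b < 0 ∧
      ((x = (a, j) ∧ y = (b, k)) ∨ (y = (a, j) ∧ x = (b, k)))) ∨
    (∃ k a b, EE a b ≠ 0 ∧ x = (a, k) ∧ y = (b, k)) := by
  obtain ⟨p, j⟩ := x
  obtain ⟨q, k⟩ := y
  unfold Wf at h
  by_cases hjk : j = k
  · rw [if_neg (by simpa using hjk)] at h
    subst hjk
    exact Or.inr ⟨j, p, q, h, rfl, rfl⟩
  · rw [if_pos hjk] at h
    left
    rcases MM_sign hr h with ⟨h1, h2⟩ | ⟨h1, h2⟩
    · exact ⟨j, k, p, q, hjk, h1, h2, Or.inl ⟨rfl, rfl⟩⟩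
    · exact ⟨k, j, q, p, Ne.symm hjk, h1, h2, Or.inr ⟨rfl, rfl⟩⟩

theorem on_ends {n : ℕ} {r : Rg n → ℝ} {j k : Fin 3} {a b : RgB n} (ha : 0 < sg r a) (hb : sg r b < 0) :
    On j k (1 / sg r a) (-1 / sg r b) (posf r (a, j)) ∧ On j k (1 / sg r a) (-1 / sg r b) (posf r (b, k)) := by
  refine ⟨⟨sg r a, 0, ha.le, le_rfl, ?_, ?_⟩, ⟨0, -sg r b, le_rfl, by linarith, ?_, ?_⟩⟩
  · field_simp; ring
  · simp [posf]
  · have := hb.ne
    field_simp; ring
  · simp [posf]

theorem on_edge {n : ℕ} {r : Rg n → ℝ} {j k : Fin 3} {a b : RgB n} (ha : 0 < sg r a) (hb : sg r b < 0)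
    {x y : Ix n} (h : (x = (a, j) ∧ y = (b, k)) ∨ (y = (a, j) ∧ x = (b, k))) {z : ℂ}
    (hz : z ∈ segment ℝ (posf r x) (posf r y)) : On j k (1 / sg r a) (-1 / sg r b) z := by
  have e := on_ends (j := j) (k := k) ha hb
  rcases h with ⟨rfl, rfl⟩ | ⟨rfl, rfl⟩
  · exact On_seg e.1 e.2 hz
  · exact On_seg e.2 e.1 hz

theorem ax_pos {n : ℕ} {r : Rg n → ℝ} (hr : ∀ p, 0 < r p ∧ r p ≤ 10) {k : Fin 3} {a b : RgB n}
    (h : EE a b ≠ 0) : Ax k (posf r (a, k)) ∧ Ax k (posf r (b, k)) := by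
  obtain ⟨i, _, ⟨rfl, rfl⟩ | ⟨rfl, rfl⟩⟩ := EE_desc h
  · exact ⟨⟨20, by norm_num, by simp [posf, sg]⟩, ⟨r (Sum.inl i), (hr _).1, by simp [posf, sg]⟩⟩
  · exact ⟨⟨r (Sum.inl i), (hr _).1, by simp [posf, sg]⟩, ⟨20, by norm_num, by simp [posf, sg]⟩⟩

/-- the drawing -/
def drawing {n : ℕ} (r : Rg n → ℝ) (hr : ∀ p, 0 < r p ∧ r p ≤ 10) (hinj : Function.Injective (sg r)) :
    Drawing (Ix n) where
  pos := posf r
  W := Wf
  inj := posf_inj hr hinj
  symm := Wf_symm
  diag := Wf_diag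
  ovl := by
    intro x y z t hxy hzt hne p q hp hp' hq hq'
    by_contra hpq
    rcases seg_desc hr hxy with ⟨j, k, a, b, hjk, ha, hb, h1⟩ | ⟨k, a, b, hE, rfl, rfl⟩ <;>
    rcases seg_desc hr hzt with ⟨j', k', a', b', hjk', ha', hb', h2⟩ | ⟨k', a', b', hE', rfl, rfl⟩
    · obtain ⟨rfl, rfl, e1, e2⟩ := On_eq hjk hjk' hpq (on_edge ha hb h1 hp) (on_edge ha' hb' h2 hp')
        (on_edge ha hb h1 hq) (on_edge ha' hb' h2 hq')
      have h3 : a = a' := hinj (by field_simp at e1; linarith)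
      have h4 : b = b' := hinj (by
        have n1 := hb.ne
        have n2 := hb'.ne
        field_simp at e2; linarith)
      subst h3; subst h4
      apply hne
      rcases h1 with ⟨rfl, rfl⟩ | ⟨rfl, rfl⟩ <;> rcases h2 with ⟨rfl, rfl⟩ | ⟨rfl, rfl⟩ <;> simp
    · obtain ⟨x1, x2⟩ := ax_pos (k := k') hr hE'
      exact hpq (On_Ax hjk (on_edge ha hb h1 hp) (Ax_seg x1 x2 hp') (on_edge ha hb h1 hq) (Ax_seg x1 x2 hq'))
    · obtain ⟨x1, x2⟩ := ax_pos (k := k) hr hE
      exact hpq (On_Ax hjk' (on_edge ha' hb' h2 hp') (Ax_seg x1 x2 hp) (on_edge ha' hb' h2 hq') (Ax_seg x1 x2 hq))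
    · obtain ⟨x1, x2⟩ := ax_pos (k := k) hr hE
      obtain ⟨y1, y2⟩ := ax_pos (k := k') hr hE'
      obtain rfl := Ax_Ax (Ax_seg x1 x2 hp) (Ax_seg y1 y2 hp')
      apply hne
      obtain ⟨i, hi, h1⟩ := EE_desc hE
      obtain ⟨i', hi', h2⟩ := EE_desc hE'
      have : i = i' := Fin.ext (by omega)
      subst this
      rcases h1 with ⟨rfl, rfl⟩ | ⟨rfl, rfl⟩ <;> rcases h2 with ⟨rfl, rfl⟩ | ⟨rfl, rfl⟩ <;> simp

theorem fin_d (j : Fin 3) : j ≠ j + 1 ∧ j ≠ j + 2 ∧ j + 1 ≠ j + 2 := by revert j; decide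

theorem sum3 (j : Fin 3) (X : Fin 3 → ℂ) : ∑ k, X k = X j + (X (j + 1) + X (j + 2)) := by
  fin_cases j <;> simp [Fin.sum_univ_three] <;> ring

theorem real_balance {n : ℕ} {r : Rg n → ℝ} (hr : ∀ p, 0 < r p ∧ r p ≤ 10)
    (h : ∀ p, ∑ q, (Mm p q : ℝ) * K (r p) (r q) + (ww p : ℝ) * K (r p) 20 = ee p) (p : Rg n) :
    ∑ q : RgB n, (-((MM (Sum.inr p) q : ℝ) * HH (sg r (Sum.inr p)) (sg r q)) +
      (EE (Sum.inr p) q : ℝ) * ((sg r q - sg r (Sum.inr p)) / |sg r q - sg r (Sum.inr p)|)) = 0 := by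
  have e := h p
  rw [Fintype.sum_sum_type]
  simp only [Finset.univ_unique, Finset.sum_singleton, MM, EE]
  rcases p with i | x
  · have h1 : ∀ q : Rg n, (-((Mm (Sum.inl i) q : ℝ) * HH (sg r (Sum.inr (Sum.inl i))) (sg r (Sum.inr q))) +
        ((0 : ℕ) : ℝ) * ((sg r (Sum.inr q) - sg r (Sum.inr (Sum.inl i))) /
          |sg r (Sum.inr q) - sg r (Sum.inr (Sum.inl i))|)) =
        (Mm (Sum.inl i) q : ℝ) * K (r (Sum.inl i)) (r q) := by
      rintro (j | y)
      · simp [Mm]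
      · simp only [sg]
        rw [HH_neg]; push_cast; ring
    rw [Finset.sum_congr rfl fun q _ => h1 q]
    simp only [sg]
    have h2 : (-20 - -(r (Sum.inl i))) / |(-20 : ℝ) - -(r (Sum.inl i))| = -1 := by
      have : (-20 : ℝ) - -(r (Sum.inl i)) < 0 := by linarith [(hr (Sum.inl i)).2]
      rw [abs_of_neg this, div_neg, div_self this.ne]
    rw [h2]
    simp only [ww] at e ⊢
    push_cast at e ⊢
    linarith
  · have h1 : ∀ q : Rg n, (-((Mm (Sum.inr x) q : ℝ) * HH (sg r (Sum.inr (Sum.inr x))) (sg r (Sum.inr q))) +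
        ((0 : ℕ) : ℝ) * ((sg r (Sum.inr q) - sg r (Sum.inr (Sum.inr x))) /
          |sg r (Sum.inr q) - sg r (Sum.inr (Sum.inr x))|)) =
        -((Mm (Sum.inr x) q : ℝ) * K (r (Sum.inr x)) (r q)) := by
      rintro (j | y)
      · simp only [sg]
        rw [HH_pos]; push_cast; ring
      · have : Mm (Sum.inr x) (Sum.inr y) = 0 := by
          rcases x with x | x <;> rfl
        rw [this]; simp
    rw [Finset.sum_congr rfl fun q _ => h1 q, Finset.sum_neg_distrib]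
    simp only [sg]
    rw [HH_pos]
    simp only [ee] at e ⊢
    push_cast at e ⊢
    linarith

/-- the ring vertices are balanced -/
theorem balanced {n : ℕ} {r : Rg n → ℝ} (hr : ∀ p, 0 < r p ∧ r p ≤ 10)
    (h : ∀ p, ∑ q, (Mm p q : ℝ) * K (r p) (r q) + (ww p : ℝ) * K (r p) 20 = ee p) (p : Rg n) (j : Fin 3) :
    ∑ y : Ix n, (Wf (Sum.inr p, j) y : ℂ) * uv (posf r (Sum.inr p, j)) (posf r y) = 0 := by
  obtain ⟨d1, d2, _⟩ := fin_d j
  rw [Fintype.sum_prod_type]
  have e1 : ∀ q : RgB n, ∑ k : Fin 3, (Wf (Sum.inr p, j) (q, k) : ℂ) *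
      uv (posf r (Sum.inr p, j)) (posf r (q, k)) =
      (((-((MM (Sum.inr p) q : ℝ) * HH (sg r (Sum.inr p)) (sg r q)) +
      (EE (Sum.inr p) q : ℝ) * ((sg r q - sg r (Sum.inr p)) / |sg r q - sg r (Sum.inr p)|) : ℝ)) : ℂ) * u j := by
    intro q
    rw [sum3 j]
    have w0 : Wf (Sum.inr p, j) (q, j) = EE (Sum.inr p) q := by unfold Wf; rw [if_neg (by simp)]
    have w1 : Wf (Sum.inr p, j) (q, j + 1) = MM (Sum.inr p) q := by unfold Wf; rw [if_pos d1]
    have w2 : Wf (Sum.inr p, j) (q, j + 2) = MM (Sum.inr p) q := by unfold Wf; rw [if_pos d2]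
    rw [w0, w1, w2]
    have hQ : 0 < sg r (Sum.inr p) ^ 2 + sg r (Sum.inr p) * sg r q + sg r q ^ 2 := by
      have := sg_ne hr (Sum.inr p)
      have h1 : 0 < sg r (Sum.inr p) ^ 2 := by positivity
      nlinarith [sq_nonneg (2 * sg r q + sg r (Sum.inr p))]
    have p1 := pair_uv j hQ
    have p2 := axis_uv j (r := sg r (Sum.inr p)) (s := sg r q)
    simp only [posf]
    rw [p2]
    push_cast at p1 ⊢
    linear_combination (MM (Sum.inr p) q : ℂ) * p1
  rw [Finset.sum_congr rfl fun q _ => e1 q, ← Finset.sum_mul, ← Complex.ofReal_sum, real_balance hr h p]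
  simp

theorem degree_aux {n : ℕ} (p : Rg n) (j : Fin 3) :
    3 ≤ (Finset.univ.filter (fun y : Ix n => Wf (Sum.inr p, j) y ≠ 0)).card := by
  obtain ⟨d1, d2, d3⟩ := fin_d j
  obtain ⟨a, b, hab, ha, hb⟩ : ∃ a b : RgB n, a ≠ b ∧ MM (Sum.inr p) a ≠ 0 ∧ MM (Sum.inr p) b ≠ 0 := by
    rcases p with i | i | i
    · exact ⟨Sum.inr (Sum.inr (Sum.inl i)), Sum.inr (Sum.inr (Sum.inr i)), by simp, by simp [MM, Mm],
        by simp [MM, Mm]⟩
    · exact ⟨Sum.inr (Sum.inl i), Sum.inl (), by simp, by simp [MM, Mm], by simp [MM, ww]⟩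
    · exact ⟨Sum.inr (Sum.inl i), Sum.inl (), by simp, by simp [MM, Mm], by simp [MM, ww]⟩
  have hsub : ({(a, j + 1), (a, j + 2), (b, j + 1)} : Finset (Ix n)) ⊆
      Finset.univ.filter (fun y : Ix n => Wf (Sum.inr p, j) y ≠ 0) := by
    intro y hy
    simp only [Finset.mem_insert, Finset.mem_singleton] at hy
    rw [Finset.mem_filter]
    refine ⟨Finset.mem_univ _, ?_⟩
    rcases hy with rfl | rfl | rfl <;> unfold Wf
    · rw [if_pos d1]; exact ha
    · rw [if_pos d2]; exact ha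
    · rw [if_pos d1]; exact hb
  have hcard : ({(a, j + 1), (a, j + 2), (b, j + 1)} : Finset (Ix n)).card = 3 := by
    rw [Finset.card_insert_of_notMem, Finset.card_insert_of_notMem, Finset.card_singleton]
    · simp only [Finset.mem_singleton, Prod.mk.injEq, not_and]
      intro h; exact absurd h hab
    · simp only [Finset.mem_insert, Finset.mem_singleton, Prod.mk.injEq, not_or, not_and]
      exact ⟨fun _ => d3, fun h => absurd h hab⟩
  exact hcard.ge.trans (Finset.card_le_card hsub)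

theorem fin_e (j j' : Fin 3) : ∃ k : Fin 3, k ≠ j ∧ k ≠ j' := by revert j j'; decide

theorem conn_aux {n : ℕ} (hn : 0 < n) (x y : Ix n) : Relation.ReflTransGen (fun a b => Wf a b ≠ 0) x y := by
  have hsymm : ∀ x y : Ix n, Relation.ReflTransGen (fun a b => Wf a b ≠ 0) x y →
      Relation.ReflTransGen (fun a b : Ix n => Wf a b ≠ 0) y x := by
    intro x y h
    induction h with
    | refl => exact Relation.ReflTransGen.refl
    | tail _ h2 ih => exact Relation.ReflTransGen.head (by rwa [Wf_symm]) ih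
  have e1 : ∀ (x : Fin n ⊕ Fin n) (j k : Fin 3), j ≠ k → Wf (n := n) (Sum.inr (Sum.inr x), j) (Sum.inl (), k) ≠ 0 := by
    intro x j k h
    unfold Wf
    rw [if_pos h]
    rcases x with x | x <;> simp [MM, ww]
  have e1' : ∀ (x : Fin n ⊕ Fin n) (j k : Fin 3), j ≠ k → Wf (n := n) (Sum.inl (), k) (Sum.inr (Sum.inr x), j) ≠ 0 := by
    intro x j k h
    rw [Wf_symm]; exact e1 x j k h
  let i0 : Fin n := ⟨0, hn⟩
  have bb : ∀ k k' : Fin 3, Relation.ReflTransGen (fun a b : Ix n => Wf a b ≠ 0) (Sum.inl (), k) (Sum.inl (), k') := by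
    intro k k'
    obtain ⟨j, h1, h2⟩ := fin_e k k'
    exact Relation.ReflTransGen.tail (Relation.ReflTransGen.single (e1' (Sum.inl i0) j k h1)) (e1 (Sum.inl i0) j k' h2)
  have toB : ∀ x : Ix n, ∃ k, Relation.ReflTransGen (fun a b : Ix n => Wf a b ≠ 0) x (Sum.inl (), k) := by
    rintro ⟨p | i | x, k⟩
    · exact ⟨k, Relation.ReflTransGen.refl⟩
    · obtain ⟨j, h1, _⟩ := fin_e k k
      obtain ⟨l, h2, _⟩ := fin_e j j
      refine ⟨l, Relation.ReflTransGen.tail (Relation.ReflTransGen.single (b := (Sum.inr (Sum.inr (Sum.inl i)), j)) ?_)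
        (e1 (Sum.inl i) j l h2.symm)⟩
      unfold Wf
      rw [if_pos h1.symm]
      simp [MM, Mm]
    · obtain ⟨l, h2, _⟩ := fin_e k k
      exact ⟨l, Relation.ReflTransGen.single (e1 x k l h2.symm)⟩
  obtain ⟨k, hk⟩ := toB x
  obtain ⟨k', hk'⟩ := toB y
  exact (hk.trans (bb k k')).trans (hsymm _ _ hk')

theorem On_bd {j k l : Fin 3} (hjk : j ≠ k) {α β : ℝ} (h : On j k α β (((-20 : ℝ) : ℂ) * u l)) : l = k := by
  obtain ⟨X, Y, hX, hY, _, h2⟩ := h
  by_contra hlk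
  by_cases hlj : l = j
  · subst hlj
    have := ind hjk (a := -20) (b := 0) (a' := X) (b' := -Y) (by
      push_cast at h2 ⊢; linear_combination h2)
    linarith [this.1]
  · rw [third hjk hlj hlk] at h2
    have := ind hjk (a := 20) (b := 20) (a' := X) (b' := -Y) (by
      push_cast at h2 ⊢; linear_combination h2)
    linarith [this.2]

theorem no_bdry {n : ℕ} {r : Rg n → ℝ} (hr : ∀ p, 0 < r p ∧ r p ≤ 10) (hinj : Function.Injective (sg r))
    (k1 k2 : Fin 3) : (drawing r hr hinj).m (posf r (Sum.inl (), k1)) (posf r (Sum.inl (), k2)) = 0 := by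
  by_contra hne
  obtain ⟨x, y, hxy⟩ := (drawing r hr hinj).exists_Nx hne
  have hne' := Drawing.Nx.ne (drawing r hr hinj) hxy
  have hseg := Drawing.Nx.seg (drawing r hr hinj) hxy
  rcases seg_desc hr hxy.1 with ⟨j, k, a, b, hjk, ha, hb, h1⟩ | ⟨k, a, b, hE, rfl, rfl⟩
  · have o1 : k1 = k := On_bd hjk (on_edge ha hb h1 hseg.1)
    have o2 : k2 = k := On_bd hjk (on_edge ha hb h1 hseg.2)
    exact hne' (by rw [o1, o2])
  · obtain ⟨x1, x2⟩ := ax_pos (k := k) hr hE
    have a1 : ∀ l : Fin 3, Ax l (posf r (Sum.inl (), l)) := fun l => ⟨20, by norm_num, by simp [posf, sg]⟩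
    have o1 : k1 = k := Ax_Ax (a1 k1) (Ax_seg x1 x2 hseg.1)
    have o2 : k2 = k := Ax_Ax (a1 k2) (Ax_seg x1 x2 hseg.2)
    exact hne' (by rw [o1, o2])

end Pool.Agent.Y393.Net2
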