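import Pool.Agent.TH469.EQ.Five
import Pool.Agent.TH469.EQ.Zyk

/-!
Robust version of the upper bound of `TH469.EQ.Upper`: graphs close to an almost balanced complete
multipartite graph have few colourings without the pattern `PC`.
-/

set_option autoImplicit false

namespace Y393E

open Finset Pool.Agent.TH477.RB Pool.Agent.TH469.EQ Tm

open Classical in
theorem caseB' {n l : ℕ} (hl : 2 ≤ l) (κ : Fin n → Fin l) (P : Fin n → Fin n → Finset (Fin 46))
    (hsymm : ∀ x y, P x y = P y x) (hP : ∀ x y, κ x = κ y → P x y = ∅) (q b : ℝ) (hq : 0 < q)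
    (hq1 : ∀ i, q ≤ ((univ.filter (fun x => κ x = i)).card : ℝ))
    (hq2 : ∀ i, ((univ.filter (fun x => κ x = i)).card : ℝ) ≤ b)
    (η2 η4 : ℝ) (h02 : 0 ≤ η2) (h04 : 0 ≤ η4)
    (h2 : ((univ.filter (fun p : Fin n × Fin n => κ p.1 ≠ κ p.2 ∧ P p.1 p.2 = ∅)).card : ℝ) ≤
      η2 * (n : ℝ) ^ 2)
    (h4 : ((univ.filter (fun x : Fin 4 → Fin n => Real4 P x)).card : ℝ) ≤ η4 * (n : ℝ) ^ 4) :
    1 / 2 * ∑ x, ∑ y, wt P x y ≤ b ^ 2 * ((l : ℝ) ^ 2 / 2 * vv +
      ((l : ℝ) ^ 2 * (η2 * (n : ℝ) ^ 2 / q ^ 2) + (l : ℝ) ^ 4 * (η4 * (n : ℝ) ^ 4 / q ^ 4)) *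
        ((l : ℝ) ^ 2 * Real.log ((46 : ℕ) : ℝ))) := by
  have h := avg_lemma hl P hsymm (fun i => univ.filter (fun x => κ x = i)) q b hq hq1 hq2
    (η2 * (n : ℝ) ^ 2) (η4 * (n : ℝ) ^ 4) ((l : ℝ) ^ 2 / 2 * vv) (by positivity) (by positivity)
    (by have := vv_pos; positivity)
    (fun i j hij => by
      refine le_trans ?_ h2
      have : ((univ.filter (fun x => κ x = i)) ×ˢ (univ.filter (fun x => κ x = j))).filter
          (fun p => P p.1 p.2 = ∅) ⊆
          univ.filter (fun p : Fin n × Fin n => κ p.1 ≠ κ p.2 ∧ P p.1 p.2 = ∅) := by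
        intro p hp
        simp only [mem_filter, mem_product, mem_univ, true_and] at hp ⊢
        refine ⟨?_, hp.2⟩
        rw [hp.1.1, hp.1.2]
        exact hij.ne
      exact_mod_cast card_le_card this) h4
    (fun T => bound_all l hl T)
  refine le_trans (le_of_eq ?_) h
  have h5 : ∑ x, ∑ y, wt P x y =
      ∑ i : Fin l, ∑ j : Fin l, ∑ u ∈ univ.filter (fun x => κ x = i),
        ∑ v ∈ univ.filter (fun x => κ x = j), wt P u v := by
    calc ∑ x, ∑ y, wt P x y
        = ∑ i : Fin l, ∑ u ∈ univ.filter (fun x => κ x = i), ∑ y, wt P u y :=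
          (sum_fiberwise univ κ (fun u => ∑ y, wt P u y)).symm
      _ = ∑ i : Fin l, ∑ u ∈ univ.filter (fun x => κ x = i), ∑ j : Fin l,
            ∑ v ∈ univ.filter (fun y => κ y = j), wt P u v :=
          sum_congr rfl fun i _ => sum_congr rfl fun u _ =>
            (sum_fiberwise univ κ (fun v => wt P u v)).symm
      _ = _ := sum_congr rfl fun i _ => sum_comm
  rw [h5, sum_sym]
  · ring
  · intro i j
    rw [sum_comm]
    refine sum_congr rfl fun u _ => sum_congr rfl fun v _ => ?_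
    unfold wt
    rw [hsymm]
  · intro i
    apply sum_eq_zero
    intro u hu
    apply sum_eq_zero
    intro v hv
    unfold wt
    rw [hP u v (by rw [(mem_filter.1 hu).2, (mem_filter.1 hv).2])]
    simp

open Classical in
theorem near_parts {n : ℕ} (hn : 0 < n) (H : SimpleGraph (Fin n)) (hc : H.IsCompleteMultipartite)
    (w : ℝ) (he : ∀ x y : Fin n,
      (Nat.card {z // ¬ H.Adj x z} : ℝ) ≤ (Nat.card {z // ¬ H.Adj y z} : ℝ) + w) :
    ∃ (l : ℕ) (κ : Fin n → Fin l) (q : ℕ), 1 ≤ l ∧ 1 ≤ q ∧ (∀ x y, H.Adj x y ↔ κ x ≠ κ y) ∧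
      (∀ i, q ≤ (univ.filter (fun x => κ x = i)).card) ∧
      (∀ i, ((univ.filter (fun x => κ x = i)).card : ℝ) ≤ q + w) ∧ l * q ≤ n := by
  obtain ⟨l, κ, hs, hκ⟩ := exists_kappa H hc
  have hl : 1 ≤ l := by
    have := (κ ⟨0, hn⟩).pos
    omega
  have hne : (univ : Finset (Fin l)).Nonempty := ⟨⟨0, by omega⟩, mem_univ _⟩
  obtain ⟨i0, _, hi0⟩ := exists_min_image univ (fun i => (univ.filter (fun x => κ x = i)).card) hne
  have hcard : ∀ x, Nat.card {z // ¬ H.Adj x z} = (univ.filter (fun z => κ z = κ x)).card := by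
    intro x
    rw [Nat.card_eq_fintype_card, Fintype.card_subtype]
    congr 1
    ext z
    simp only [mem_filter, mem_univ, true_and, hκ, not_not]
    exact eq_comm
  refine ⟨l, κ, (univ.filter (fun x => κ x = i0)).card, hl, ?_, hκ, fun i => hi0 i (mem_univ _),
    ?_, ?_⟩
  · obtain ⟨x, hx⟩ := hs i0
    exact card_pos.2 ⟨x, mem_filter.2 ⟨mem_univ _, hx⟩⟩
  · intro i
    obtain ⟨x, hx⟩ := hs i
    obtain ⟨y, hy⟩ := hs i0
    have := he x y
    rw [hcard, hcard, hx, hy] at this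
    exact this
  · have h1 : (univ : Finset (Fin n)).card = ∑ i : Fin l, (univ.filter (fun x => κ x = i)).card :=
      card_eq_sum_card_fiberwise (fun x _ => mem_univ _)
    rw [card_univ, Fintype.card_fin] at h1
    conv_rhs => rw [h1]
    calc l * (univ.filter (fun x => κ x = i0)).card
        = ∑ i : Fin l, (univ.filter (fun x => κ x = i0)).card := by
          rw [sum_const, card_univ, Fintype.card_fin, smul_eq_mul]
      _ ≤ _ := sum_le_sum fun i _ => hi0 i (mem_univ _)

open Classical in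
/-- **Robust upper bound.** -/
theorem upper' (ε : ℝ) (hε : 0 < ε) (hε1 : ε ≤ 1) : ∃ c : ℝ, 0 < c ∧ c ≤ ε ∧
    ∃ n0 : ℕ, ∀ n, n0 ≤ n → ∀ G H : SimpleGraph (Fin n), H.IsCompleteMultipartite →
      (∀ x y : Fin n,
        (Nat.card {z // ¬ H.Adj x z} : ℝ) ≤ (Nat.card {z // ¬ H.Adj y z} : ℝ) + c * n) →
      ((univ.filter (fun p : Fin n × Fin n => ¬ (G.Adj p.1 p.2 ↔ H.Adj p.1 p.2))).card : ℝ) ≤
        c * (n : ℝ) ^ 2 →
      Real.log (num 46 PC G) ≤ (vv / 2 + ε) * (n : ℝ) ^ 2 := by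
  set η : ℝ := ε / 16000 with hη
  have hη0 : 0 < η := by positivity
  set L : ℝ := 2 / η with hL
  have hL0 : 0 < L := by positivity
  have hD : 0 < 16000000 + 256 * (L ^ 4 + L ^ 8) + 64 * L := by positivity
  set e : ℝ := ε / (16000000 + 256 * (L ^ 4 + L ^ 8) + 64 * L) with he
  have he0 : 0 < e := by positivity
  have hmul : e * (16000000 + 256 * (L ^ 4 + L ^ 8) + 64 * L) = ε := by
    rw [he, div_mul_cancel₀ _ hD.ne']
  have hp1 : 0 ≤ e * (256 * (L ^ 4 + L ^ 8)) := by positivity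
  have hp2 : 0 ≤ e * (64 * L) := by positivity
  have hE1 : 16000000 * e ≤ ε := by nlinarith
  have hE2 : 256 * (L ^ 4 + L ^ 8) * e ≤ ε := by nlinarith
  have hE3 : 64 * L * e ≤ ε := by nlinarith
  obtain ⟨n0, hn0⟩ := container 46 (by norm_num) e he0
  refine ⟨e, he0, by linarith, n0 + 1, ?_⟩
  intro n hn G H hcm hsz hdiff
  obtain ⟨P, hsymm, hPadj, hP2, hP4, hlog⟩ := hn0 n (by omega) G
  have hnpos : 0 < n := by omega
  have hnr : (0 : ℝ) < n := by exact_mod_cast hnpos
  obtain ⟨l, κ, q, hl, hq, hκ, hq1, hq2, hlq⟩ := near_parts hnpos H hcm (e * n) hsz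
  have hvv := vv_pos
  have hvvu := vv_upper
  have hn2 : 0 < (n : ℝ) ^ 2 := by positivity
  have hlog46 : Real.log ((46 : ℕ) : ℝ) ≤ 4 := by
    have := l46u
    push_cast
    linarith
  have hlog0 : 0 ≤ Real.log ((46 : ℕ) : ℝ) := Real.log_natCast_nonneg 46
  by_cases hcase : (q : ℝ) + e * n ≤ η * n
  · -- small parts
    have hpairs : ((univ.filter (fun p : Fin n × Fin n => P p.1 p.2 = ∅)).card : ℝ) ≤
        (η + 2 * e) * (n : ℝ) ^ 2 := by
      have hsub : univ.filter (fun p : Fin n × Fin n => P p.1 p.2 = ∅) ⊆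
          ((univ.filter (fun p : Fin n × Fin n => κ p.2 = κ p.1)) ∪
          univ.filter (fun p : Fin n × Fin n => G.Adj p.1 p.2 ∧ P p.1 p.2 = ∅)) ∪
          univ.filter (fun p : Fin n × Fin n => ¬ (G.Adj p.1 p.2 ↔ H.Adj p.1 p.2)) := by
        intro p hp
        rw [mem_union, mem_union, mem_filter, mem_filter, mem_filter]
        have hp' := (mem_filter.1 hp).2
        by_cases ha : G.Adj p.1 p.2
        · exact Or.inl (Or.inr ⟨mem_univ _, ha, hp'⟩)
        · by_cases hb : H.Adj p.1 p.2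
          · exact Or.inr ⟨mem_univ _, fun h => ha (h.2 hb)⟩
          · left; left
            refine ⟨mem_univ _, ?_⟩
            by_contra hne
            exact hb ((hκ _ _).2 (fun h => hne h.symm))
      have h1 : ((univ.filter (fun p : Fin n × Fin n => κ p.2 = κ p.1)).card : ℝ) ≤
          η * (n : ℝ) ^ 2 := by
        rw [card_filter, Fintype.sum_prod_type]
        push_cast
        have h2 : ∀ x : Fin n, (∑ y : Fin n, if κ y = κ x then (1 : ℝ) else 0) ≤ η * n := by
          intro x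
          have h3 := hq2 (κ x)
          rw [card_filter] at h3
          push_cast at h3
          exact h3.trans hcase
        calc _ ≤ ∑ x : Fin n, η * n := sum_le_sum fun x _ => h2 x
          _ = _ := by
            rw [sum_const, card_univ, Fintype.card_fin, nsmul_eq_mul]; ring
      have h2 : ((univ.filter (fun p : Fin n × Fin n => P p.1 p.2 = ∅)).card : ℝ) ≤
          ((univ.filter (fun p : Fin n × Fin n => κ p.2 = κ p.1)).card : ℝ) +
          ((univ.filter (fun p : Fin n × Fin n => G.Adj p.1 p.2 ∧ P p.1 p.2 = ∅)).card : ℝ) +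
          ((univ.filter (fun p : Fin n × Fin n =>
            ¬ (G.Adj p.1 p.2 ↔ H.Adj p.1 p.2))).card : ℝ) := by
        exact_mod_cast (card_le_card hsub).trans ((card_union_le _ _).trans
          (Nat.add_le_add_right (card_union_le _ _) _))
      calc _ ≤ _ := h2
        _ ≤ η * (n : ℝ) ^ 2 + e * (n : ℝ) ^ 2 + e * (n : ℝ) ^ 2 :=
            add_le_add (add_le_add h1 hP2) hdiff
        _ = _ := by ring
    have h := caseA hnpos P hsymm (η + 2 * e) e (by positivity) he0.le hpairs hP4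
    have h5 : 2000 * (η + 2 * e) + 1000000 * e + e ≤ ε := by
      have : 2000 * η = ε / 8 := by rw [hη]; ring
      linarith
    have h6 : (n : ℝ) ^ 2 * (2000 * (η + 2 * e) + 1000000 * e + e) ≤ (n : ℝ) ^ 2 * ε :=
      mul_le_mul_of_nonneg_left h5 hn2.le
    have h7 : (n : ℝ) ^ 2 * (vv / 2 + 2000 * (η + 2 * e) + 1000000 * e) + e * (n : ℝ) ^ 2 =
        vv / 2 * (n : ℝ) ^ 2 +
          (n : ℝ) ^ 2 * (2000 * (η + 2 * e) + 1000000 * e + e) := by ring
    have h8 : (vv / 2 + ε) * (n : ℝ) ^ 2 = vv / 2 * (n : ℝ) ^ 2 + (n : ℝ) ^ 2 * ε := by ring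
    rw [h8]
    linarith
  · -- few parts
    push Not at hcase
    have hqr : (0 : ℝ) < q := by exact_mod_cast hq
    have hηL : η * L = 2 := by rw [hL]; field_simp
    have hqn : (n : ℝ) ≤ L * q := by
      have h0 : e ≤ η / 2 := by rw [hη]; linarith
      have h1 : e * n ≤ η / 2 * n := mul_le_mul_of_nonneg_right h0 hnr.le
      have h1' : η * n ≤ 2 * q := by linarith
      have h2 : L * (η * n) ≤ L * (2 * q) := mul_le_mul_of_nonneg_left h1' hL0.le
      have h3 : L * (η * n) = 2 * n := by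
        rw [← mul_assoc, mul_comm L η, hηL]
      linarith
    have hnq : (n : ℝ) / q ≤ L := by rw [div_le_iff₀ hqr]; exact hqn
    have hlqr : (l : ℝ) * q ≤ n := by exact_mod_cast hlq
    have hlL : (l : ℝ) ≤ L := by
      have : (l : ℝ) * q ≤ L * q := hlqr.trans hqn
      exact le_of_mul_le_mul_right this hqr
    have hl0 : (0 : ℝ) ≤ l := Nat.cast_nonneg l
    -- the restricted palettes
    set P' : Fin n → Fin n → Finset (Fin 46) := fun x y => if H.Adj x y then P x y else ∅ with hP'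
    have hP's : ∀ x y, P' x y = P' y x := by
      intro x y
      simp only [hP', H.adj_comm x y, hsymm x y]
    have hP'sub : ∀ x y, P' x y ⊆ P x y := by
      intro x y
      simp only [hP']
      split_ifs
      · exact Subset.refl _
      · exact empty_subset _
    have hwt : ∑ x, ∑ y, wt P x y ≤ ∑ x, ∑ y, wt P' x y + 4 * (e * (n : ℝ) ^ 2) := by
      have hpt : ∀ x y, wt P x y ≤ wt P' x y +
          (if ¬ (G.Adj x y ↔ H.Adj x y) then (4 : ℝ) else 0) := by
        intro x y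
        by_cases hH : H.Adj x y
        · have : P' x y = P x y := by simp only [hP', if_pos hH]
          have h2 : wt P' x y = wt P x y := by unfold wt; rw [this]
          rw [h2]
          split_ifs <;> linarith
        · by_cases hG : G.Adj x y
          · rw [if_pos (fun h => hH (h.1 hG))]
            have h2 := wt_le P x y
            have h3 := wt_nonneg P' x y
            linarith
          · have h1 : wt P x y = 0 := by
              unfold wt
              rw [hPadj x y hG]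
              simp
            have h3 := wt_nonneg P' x y
            rw [h1]
            split_ifs <;> linarith
      have hsum : ∑ x : Fin n, ∑ y : Fin n, (if ¬ (G.Adj x y ↔ H.Adj x y) then (4 : ℝ) else 0) =
          4 * ((univ.filter (fun p : Fin n × Fin n =>
            ¬ (G.Adj p.1 p.2 ↔ H.Adj p.1 p.2))).card : ℝ) := by
        rw [← Fintype.sum_prod_type' (fun x y => if ¬ (G.Adj x y ↔ H.Adj x y) then (4 : ℝ) else 0),
          ← sum_filter, sum_const, nsmul_eq_mul]
        ring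
      calc ∑ x, ∑ y, wt P x y ≤ ∑ x, ∑ y, (wt P' x y +
            (if ¬ (G.Adj x y ↔ H.Adj x y) then (4 : ℝ) else 0)) :=
            sum_le_sum fun x _ => sum_le_sum fun y _ => hpt x y
        _ = ∑ x, ∑ y, wt P' x y +
            ∑ x : Fin n, ∑ y : Fin n, (if ¬ (G.Adj x y ↔ H.Adj x y) then (4 : ℝ) else 0) := by
            rw [← sum_add_distrib]
            exact sum_congr rfl fun x _ => sum_add_distrib
        _ ≤ _ := by
            rw [hsum]
            linarith
    have h18 : (vv / 2 + ε) * (n : ℝ) ^ 2 = (n : ℝ) ^ 2 * (vv / 2) + ε * (n : ℝ) ^ 2 := by ring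
    have h19 : 0 ≤ (n : ℝ) ^ 2 * (vv / 2) := by positivity
    have hen : e * (n : ℝ) ^ 2 ≤ ε / 16 * (n : ℝ) ^ 2 :=
      mul_le_mul_of_nonneg_right (by linarith) hn2.le
    have hεn : 0 ≤ ε * (n : ℝ) ^ 2 := by positivity
    rcases Nat.lt_or_ge l 2 with hl2 | hl2
    · -- a single part
      have hl1 : l = 1 := by omega
      subst hl1
      have hS : ∑ x, ∑ y, wt P' x y = 0 := by
        apply sum_eq_zero
        intro x _
        apply sum_eq_zero
        intro y _
        have hH : ¬ H.Adj x y := by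
          rw [hκ]
          simp [Subsingleton.elim (κ x) (κ y)]
        have : P' x y = ∅ := by simp only [hP', if_neg hH]
        unfold wt
        rw [this]
        simp
      rw [hS] at hwt
      rw [h18]
      linarith
    · have hP2' : ((univ.filter (fun p : Fin n × Fin n => κ p.1 ≠ κ p.2 ∧
          P' p.1 p.2 = ∅)).card : ℝ) ≤ (2 * e) * (n : ℝ) ^ 2 := by
        have hsub : univ.filter (fun p : Fin n × Fin n => κ p.1 ≠ κ p.2 ∧ P' p.1 p.2 = ∅) ⊆
            univ.filter (fun p : Fin n × Fin n => G.Adj p.1 p.2 ∧ P p.1 p.2 = ∅) ∪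
            univ.filter (fun p : Fin n × Fin n => ¬ (G.Adj p.1 p.2 ↔ H.Adj p.1 p.2)) := by
          intro p hp
          rw [mem_filter] at hp
          have hH : H.Adj p.1 p.2 := (hκ _ _).2 hp.2.1
          have hpe : P p.1 p.2 = ∅ := by
            have := hp.2.2
            simp only [hP', if_pos hH] at this
            exact this
          rw [mem_union, mem_filter, mem_filter]
          by_cases ha : G.Adj p.1 p.2
          · exact Or.inl ⟨mem_univ _, ha, hpe⟩
          · exact Or.inr ⟨mem_univ _, fun h => ha (h.2 hH)⟩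
        have h2 : ((univ.filter (fun p : Fin n × Fin n => κ p.1 ≠ κ p.2 ∧
            P' p.1 p.2 = ∅)).card : ℝ) ≤
            ((univ.filter (fun p : Fin n × Fin n => G.Adj p.1 p.2 ∧ P p.1 p.2 = ∅)).card : ℝ) +
            ((univ.filter (fun p : Fin n × Fin n =>
              ¬ (G.Adj p.1 p.2 ↔ H.Adj p.1 p.2))).card : ℝ) := by
          exact_mod_cast (card_le_card hsub).trans (card_union_le _ _)
        linarith
      have hP4' : ((univ.filter (fun x : Fin 4 → Fin n => Real4 P' x)).card : ℝ) ≤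
          e * (n : ℝ) ^ 4 := by
        refine le_trans ?_ hP4
        have : univ.filter (fun x : Fin 4 → Fin n => Real4 P' x) ⊆
            univ.filter (fun x : Fin 4 → Fin n => Real4 P x) := by
          intro x hx
          rw [mem_filter] at hx ⊢
          obtain ⟨g, a, b, h1, h2, h3, h4, h5, h6, h7, h8, h9⟩ := hx.2
          exact ⟨mem_univ _, g, a, b, h1, h2, h3, hP'sub _ _ h4, hP'sub _ _ h5, hP'sub _ _ h6,
            hP'sub _ _ h7, hP'sub _ _ h8, hP'sub _ _ h9⟩
        exact_mod_cast card_le_card this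
      have h := caseB' hl2 κ P' hP's (fun x y hxy => by
          have hH : ¬ H.Adj x y := by rw [hκ]; simp [hxy]
          simp only [hP', if_neg hH]) q (q + e * n) hqr
        (fun i => by exact_mod_cast hq1 i) hq2 (2 * e) e (by positivity) he0.le hP2' hP4'
      set X : ℝ := (n : ℝ) / q with hX
      have hX0 : 0 ≤ X := by positivity
      have e1 : 2 * e * (n : ℝ) ^ 2 / (q : ℝ) ^ 2 = 2 * e * X ^ 2 := by
        rw [hX, div_pow]; ring
      have e2 : e * (n : ℝ) ^ 4 / (q : ℝ) ^ 4 = e * X ^ 4 := by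
        rw [hX, div_pow]; ring
      rw [e1, e2] at h
      have hX2 : X ^ 2 ≤ L ^ 2 := pow_le_pow_left₀ hX0 hnq 2
      have hX4 : X ^ 4 ≤ L ^ 4 := pow_le_pow_left₀ hX0 hnq 4
      have hl2' : (l : ℝ) ^ 2 ≤ L ^ 2 := pow_le_pow_left₀ hl0 hlL 2
      have hl4' : (l : ℝ) ^ 4 ≤ L ^ 4 := pow_le_pow_left₀ hl0 hlL 4
      have h7 : (l : ℝ) ^ 2 * (2 * e * X ^ 2) + (l : ℝ) ^ 4 * (e * X ^ 4) ≤
          (L ^ 4 + L ^ 8) * (2 * e) := by
        have a1 : (l : ℝ) ^ 2 * X ^ 2 ≤ L ^ 2 * L ^ 2 :=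
          mul_le_mul hl2' hX2 (by positivity) (by positivity)
        have a2 : (l : ℝ) ^ 4 * X ^ 4 ≤ L ^ 4 * L ^ 4 :=
          mul_le_mul hl4' hX4 (by positivity) (by positivity)
        have a3 := mul_le_mul_of_nonneg_right a1 he0.le
        have a4 := mul_le_mul_of_nonneg_right a2 he0.le
        have a5 : 0 ≤ L ^ 4 * L ^ 4 * e := by positivity
        calc _ = 2 * ((l : ℝ) ^ 2 * X ^ 2 * e) + (l : ℝ) ^ 4 * X ^ 4 * e := by ring
          _ ≤ 2 * (L ^ 2 * L ^ 2 * e) + 2 * (L ^ 4 * L ^ 4 * e) := by linarith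
          _ = _ := by ring
      have hLe : L * e ≤ 1 / 64 := by linarith
      have hLe0 : 0 ≤ L * e := by positivity
      have h8 : ((q : ℝ) + e * n) ^ 2 * (l : ℝ) ^ 2 ≤ (n : ℝ) ^ 2 * (1 + 3 * (L * e)) := by
        have h81 : ((q : ℝ) + e * n) * l ≤ n * (1 + L * e) := by
          have c1 : (l : ℝ) * (e * n) ≤ L * (e * n) :=
            mul_le_mul_of_nonneg_right hlL (by positivity)
          calc ((q : ℝ) + e * n) * l = l * q + l * (e * n) := by ring
            _ ≤ n + L * (e * n) := add_le_add hlqr c1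
            _ = _ := by ring
        rw [← mul_pow]
        refine (pow_le_pow_left₀ (by positivity) h81 2).trans ?_
        rw [mul_pow]
        apply mul_le_mul_of_nonneg_left _ hn2.le
        nlinarith
      have h9 : ((q : ℝ) + e * n) ^ 2 * ((l : ℝ) ^ 2 / 2 * vv +
          ((l : ℝ) ^ 2 * (2 * e * X ^ 2) + (l : ℝ) ^ 4 * (e * X ^ 4)) *
            ((l : ℝ) ^ 2 * Real.log ((46 : ℕ) : ℝ))) ≤
          (n : ℝ) ^ 2 * (1 + 3 * (L * e)) * (vv / 2 + (L ^ 4 + L ^ 8) * (2 * e) * 4) := by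
        have b1 : ((l : ℝ) ^ 2 * (2 * e * X ^ 2) + (l : ℝ) ^ 4 * (e * X ^ 4)) *
            Real.log ((46 : ℕ) : ℝ) ≤ (L ^ 4 + L ^ 8) * (2 * e) * 4 :=
          mul_le_mul h7 hlog46 hlog0 (by positivity)
        calc _ = (((q : ℝ) + e * n) ^ 2 * (l : ℝ) ^ 2) * (vv / 2 +
              ((l : ℝ) ^ 2 * (2 * e * X ^ 2) + (l : ℝ) ^ 4 * (e * X ^ 4)) *
                Real.log ((46 : ℕ) : ℝ)) := by ring
          _ ≤ (((q : ℝ) + e * n) ^ 2 * (l : ℝ) ^ 2) * (vv / 2 + (L ^ 4 + L ^ 8) * (2 * e) * 4) :=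
              mul_le_mul_of_nonneg_left (add_le_add le_rfl b1) (by positivity)
          _ ≤ _ := mul_le_mul_of_nonneg_right h8 (by positivity)
      have h10 : (1 + 3 * (L * e)) * (vv / 2 + (L ^ 4 + L ^ 8) * (2 * e) * 4) ≤
          vv / 2 + ε / 4 := by
        set Y : ℝ := (L ^ 4 + L ^ 8) * e with hY
        have hY0 : 0 ≤ Y := by positivity
        have hY1 : 256 * Y ≤ ε := by rw [hY]; linarith
        have c1 : (L ^ 4 + L ^ 8) * (2 * e) * 4 = 8 * Y := by rw [hY]; ring
        rw [c1]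
        have c2 : L * e * vv ≤ L * e * 2.66 := mul_le_mul_of_nonneg_left hvvu.le hLe0
        have c3 : L * e * Y ≤ 1 / 64 * Y := mul_le_mul_of_nonneg_right hLe hY0
        have c4 : (1 + 3 * (L * e)) * (vv / 2 + 8 * Y) =
            vv / 2 + 8 * Y + 3 / 2 * (L * e * vv) + 24 * (L * e * Y) := by ring
        rw [c4]
        linarith
      have h11 : (n : ℝ) ^ 2 * (1 + 3 * (L * e)) * (vv / 2 + (L ^ 4 + L ^ 8) * (2 * e) * 4) ≤
          (n : ℝ) ^ 2 * (vv / 2 + ε / 4) := by
        rw [mul_assoc]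
        exact mul_le_mul_of_nonneg_left h10 hn2.le
      have h12 := h.trans (h9.trans h11)
      rw [h18]
      have h13 : (n : ℝ) ^ 2 * (vv / 2 + ε / 4) = (n : ℝ) ^ 2 * (vv / 2) + ε / 4 * (n : ℝ) ^ 2 := by
        ring
      rw [h13] at h12
      linarith

end Y393E
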