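import Pool.Agent.Helper826.Jia.Core

/-!
Local form of the lower bound for graphs with all short cycle lengths: such a graph contains a
subgraph with many even subgraphs compared with its number of edges.
-/

set_option autoImplicit false

namespace Y393J
open Finset Filter Jia
open scoped symmDiff

theorem jG_step {V : Type*} [DecidableEq V] {G : Finset (Sym2 V)} {n : ℕ} {κ : ℝ}
    (hcyc : ∀ k, 3 ≤ k → k ≤ n → ∃ Z ⊆ G, IsCyc Z ∧ Z.card = k)
    (hκ : ∀ H ⊆ G, H.card ≤ n → ((Zf H).card : ℝ) ≤ κ * (H.card + 1)) (hn : 3 ≤ n)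
    (A : Finset (Sym2 V)) (hA : A ⊆ G) (hcov : ∀ e ∈ A, ∃ C ∈ Cf A, e ∈ C) (hlt : A.card < n) :
    ∃ B, B ⊆ G ∧ (∀ e ∈ B, ∃ C ∈ Cf B, e ∈ C) ∧ Stp κ A B := by
  classical
  have hne : ((Cf G).filter (fun C => ¬ C ⊆ A)).Nonempty := by
    obtain ⟨Z, hZG, hZ, hZn⟩ := hcyc n hn le_rfl
    refine ⟨Z, ?_⟩
    rw [mem_filter, mem_Cf]
    refine ⟨⟨hZG, hZ⟩, fun h => ?_⟩
    have := card_le_card h
    omega
  obtain ⟨C, hC, hmin⟩ := exists_min_image _ (fun C => C.card) hne
  rw [mem_filter, mem_Cf] at hC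
  obtain ⟨⟨hCG, hCcyc⟩, hCA⟩ := hC
  have hln : C.card ≤ n := by
    obtain ⟨Z, hZG, hZ, hZn⟩ := hcyc n hn le_rfl
    have h1 : Z ∈ (Cf G).filter (fun C => ¬ C ⊆ A) := by
      rw [mem_filter, mem_Cf]
      refine ⟨⟨hZG, hZ⟩, fun h => ?_⟩
      have := card_le_card h
      omega
    have := hmin Z h1
    omega
  have hsmall : ∀ k, 3 ≤ k → k < C.card → ∃ Z ∈ Cf A, Z.card = k := by
    intro k hk hkl
    obtain ⟨Z, hZG, hZ, hZk⟩ := hcyc k hk (by omega)
    refine ⟨Z, ?_, hZk⟩
    rw [mem_Cf]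
    refine ⟨?_, hZ⟩
    by_contra hcon
    have h1 : Z ∈ (Cf G).filter (fun C => ¬ C ⊆ A) := by
      rw [mem_filter, mem_Cf]; exact ⟨⟨hZG, hZ⟩, hcon⟩
    have := hmin Z h1
    omega
  have hcount : C.card - 3 ≤ (Cf A).card := by
    have h1 : (Finset.Ico 3 C.card) ⊆ (Cf A).image (fun Z => Z.card) := by
      intro k hk
      rw [mem_Ico] at hk
      rw [mem_image]
      exact hsmall k hk.1 hk.2
    have h2 := card_le_card h1
    rw [Nat.card_Ico] at h2
    exact h2.trans card_image_le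
  have hl : C.card ≤ A.card + 3 := by
    by_cases h4 : 4 ≤ C.card
    · obtain ⟨Z, hZ, hZc⟩ := hsmall (C.card - 1) (by omega) (by omega)
      rw [mem_Cf] at hZ
      have := card_le_card hZ.1
      omega
    · omega
  obtain ⟨hev, _, hNL, hCne⟩ := cyc_ev hCcyc
  have hcovB : ∀ e ∈ A ∪ C, ∃ D ∈ Cf (A ∪ C), e ∈ D := by
    intro e he
    rw [mem_union] at he
    rcases he with he | he
    · obtain ⟨D, hD, heD⟩ := hcov e he
      rw [mem_Cf] at hD
      exact ⟨D, mem_Cf.2 ⟨hD.1.trans subset_union_left, hD.2⟩, heD⟩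
    · exact ⟨C, mem_Cf.2 ⟨subset_union_right, hCcyc⟩, he⟩
  have hcu : (A ∪ C).card ≤ A.card + C.card := card_union_le _ _
  refine ⟨A ∪ C, union_subset hA hCG, hcovB, subset_union_left, ?_, hcovB, ?_, ?_, ?_, hκ A hA hlt.le⟩
  · intro e he
    obtain ⟨D, hD, heD⟩ := hcovB e he
    rw [mem_Cf] at hD
    exact (cyc_ev hD.2).2.2.1 e heD
  · omega
  · omega
  · obtain ⟨e, heC, heA⟩ := Finset.not_subset.1 hCA
    have hCB : C ∈ Zf (A ∪ C) := mem_Zf.2 ⟨subset_union_right, hev⟩
    rw [Zf_erase hCB heC]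
    apply Nat.mul_le_mul_left
    apply card_le_card
    apply Zf_mono
    intro f hf
    rw [mem_erase]
    exact ⟨fun h => heA (h ▸ hf), mem_union_left _ hf⟩

/-- greedy chain: always add a shortest cycle which is not yet contained; the bound on the number
of even sets is needed for sets of at most `n` edges only -/
theorem chain_exists {V : Type*} [DecidableEq V] {G : Finset (Sym2 V)} {n : ℕ} {κ : ℝ}
    (hcyc : ∀ k, 3 ≤ k → k ≤ n → ∃ Z ⊆ G, IsCyc Z ∧ Z.card = k)
    (hκ : ∀ H ⊆ G, H.card ≤ n → ((Zf H).card : ℝ) ≤ κ * (H.card + 1))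
    (J : ℕ) (hJ : 3 * 2 ^ J ≤ n) :
    ∃ U : ℕ → Finset (Sym2 V), U 0 = ∅ ∧ ∀ j < J, Stp κ (U j) (U (j + 1)) := by
  classical
  have hn : 3 ≤ n := by
    have : 1 ≤ 2 ^ J := Nat.one_le_two_pow
    omega
  have hstep : ∀ A : Finset (Sym2 V), ∃ B, (A ⊆ G ∧ (∀ e ∈ A, ∃ C ∈ Cf A, e ∈ C) ∧ A.card < n) →
      (B ⊆ G ∧ (∀ e ∈ B, ∃ C ∈ Cf B, e ∈ C) ∧ Stp κ A B) := by
    intro A
    by_cases h : A ⊆ G ∧ (∀ e ∈ A, ∃ C ∈ Cf A, e ∈ C) ∧ A.card < n
    · obtain ⟨B, hB⟩ := jG_step hcyc hκ hn A h.1 h.2.1 h.2.2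
      exact ⟨B, fun _ => hB⟩
    · exact ⟨A, fun h' => absurd h' h⟩
  choose f hf using hstep
  have hinv : ∀ j, j ≤ J → (f^[j] ∅ ⊆ G ∧ (∀ e ∈ f^[j] ∅, ∃ C ∈ Cf (f^[j] ∅), e ∈ C) ∧
      (f^[j] ∅).card + 3 ≤ 3 * 2 ^ j) := by
    intro j
    induction j with
    | zero => intro _; simp
    | succ j ih =>
      intro hj
      obtain ⟨h1, h2, h3⟩ := ih (by omega)
      have h4 : 2 ^ (j + 1) ≤ 2 ^ J := Nat.pow_le_pow_right (by norm_num) hj
      rw [pow_succ] at h4
      have h5 : 1 ≤ 2 ^ j := Nat.one_le_two_pow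
      obtain ⟨g1, g2, g3⟩ := hf (f^[j] ∅) ⟨h1, h2, by omega⟩
      rw [Function.iterate_succ_apply']
      refine ⟨g1, g2, ?_⟩
      have := g3.2.2.2.1
      rw [pow_succ]
      omega
  refine ⟨fun j => f^[j] ∅, rfl, fun j hj => ?_⟩
  obtain ⟨h1, h2, h3⟩ := hinv j hj.le
  have h4 : 2 ^ (j + 1) ≤ 2 ^ J := Nat.pow_le_pow_right (by norm_num) hj
  rw [pow_succ] at h4
  have h5 : 1 ≤ 2 ^ j := Nat.one_le_two_pow
  have := (hf (f^[j] ∅) ⟨h1, h2, by omega⟩).2.2
  show Stp κ (f^[j] ∅) (f^[j + 1] ∅)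
  rw [Function.iterate_succ_apply']
  exact this

/-- local form -/
theorem local_form (K : ℝ) (hK : 0 < K) : ∃ L : ℕ, 3 ≤ L ∧
    ∀ (N : ℕ) (E : Finset (Sym2 (Fin N))),
    (∀ k : ℕ, 3 ≤ k → k ≤ L → ∃ Z ⊆ E, IsCyc Z ∧ Z.card = k) →
    ∃ H ⊆ E, H.card ≤ L ∧ K * (H.card + 1) < ((Zf H).card : ℝ) := by
  by_contra hcon
  push Not at hcon
  have hch : ∀ J : ℕ, ∃ (N : ℕ) (U : ℕ → Finset (Sym2 (Fin N))), U 0 = ∅ ∧
      ∀ j < J, Stp K (U j) (U (j + 1)) := by
    intro J
    obtain ⟨N, E, hcyc, hκ⟩ := hcon (3 * 2 ^ J) (by have := Nat.one_le_two_pow (n := J); omega)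
    obtain ⟨U, hU⟩ := chain_exists hcyc hκ J le_rfl
    exact ⟨N, U, hU⟩
  obtain ⟨U, h0, hU⟩ := limit_chain hch
  exact contra hK h0 hU

theorem path_len_zero {V : Type*} {G : SimpleGraph V} {u w : V} (q : G.Walk u w) (hq : q.IsPath)
    (h : u = w) : q.length = 0 := by
  subst h
  rw [SimpleGraph.Walk.isPath_iff_nil] at hq
  exact SimpleGraph.Walk.nil_iff_length_eq.1 hq

theorem edge_notMem {V : Type*} {G : SimpleGraph V} {u w : V} (q : G.Walk u w) (hq : q.IsPath)
    (h : 2 ≤ q.length) : s(w, u) ∉ q.edges := by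
  cases q with
  | nil => simp at h
  | @cons _ x _ hadj r =>
    rw [SimpleGraph.Walk.cons_isPath_iff] at hq
    rw [SimpleGraph.Walk.length_cons] at h
    rw [SimpleGraph.Walk.edges_cons, List.mem_cons]
    rintro (h1 | h1)
    · have hwx : w = x := by
        rcases Sym2.eq_iff.1 h1 with ⟨h2, h3⟩ | ⟨h2, h3⟩
        · rw [h2, h3]
        · exact h2
      have := path_len_zero r hq.1 hwx.symm
      omega
    · exact hq.2 (SimpleGraph.Walk.snd_mem_support_of_mem_edges r h1)

/-- a chord of a cycle makes a cycle of any smaller length -/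
theorem chord {V : Type*} [DecidableEq V] {Z : Finset (Sym2 V)} (hZ : IsCyc Z) {k : ℕ} (hk : 3 ≤ k)
    (hkZ : k < Z.card) : ∃ (e : Sym2 V) (Z' : Finset (Sym2 V)),
      Z' ⊆ insert e Z ∧ IsCyc Z' ∧ Z'.card = k := by
  obtain ⟨v, p, hp, hpe⟩ := hZ
  have hZe : Z = p.edges.toFinset := by ext e; rw [hpe, List.mem_toFinset]
  have hlen : Z.card = p.length := by
    rw [hZe, List.toFinset_card_of_nodup hp.isCircuit.isTrail.edges_nodup,
      SimpleGraph.Walk.length_edges]
  have hqp : (p.take (k - 1)).IsPath := hp.isPath_take (by omega)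
  have hql : (p.take (k - 1)).length = k - 1 := by
    rw [SimpleGraph.Walk.take_length]; omega
  have hne : p.getVert (k - 1) ≠ v := by
    intro h
    have := path_len_zero _ hqp h.symm
    omega
  have hadj : (⊤ : SimpleGraph V).Adj (p.getVert (k - 1)) v := by
    rw [SimpleGraph.top_adj]; exact hne
  have hnot : s(p.getVert (k - 1), v) ∉ (p.take (k - 1)).edges :=
    edge_notMem _ hqp (by omega)
  have hc : (SimpleGraph.Walk.cons hadj (p.take (k - 1))).IsCycle :=
    (SimpleGraph.Walk.cons_isCycle_iff _ hadj).2 ⟨hqp, hnot⟩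
  refine ⟨s(p.getVert (k - 1), v), (SimpleGraph.Walk.cons hadj (p.take (k - 1))).edges.toFinset,
    ?_, ⟨_, _, hc, fun e => by rw [List.mem_toFinset]⟩, ?_⟩
  · intro e he
    rw [List.mem_toFinset, SimpleGraph.Walk.edges_cons, List.mem_cons] at he
    rw [mem_insert, hpe]
    rcases he with he | he
    · exact Or.inl he
    · exact Or.inr ((p.isSubwalk_take (k - 1)).edges_subset he)
  · rw [List.toFinset_card_of_nodup hc.isCircuit.isTrail.edges_nodup,
      SimpleGraph.Walk.length_edges, SimpleGraph.Walk.length_cons, hql]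
    omega

/-- local form with at most `M` missing lengths -/
theorem local_missing (K : ℝ) (hK : 0 < K) (M : ℕ) : ∃ L : ℕ, M + 4 ≤ L ∧
    ∀ (N : ℕ) (E : Finset (Sym2 (Fin N))),
    (∃ B : Finset ℕ, B.card ≤ M ∧
      ∀ k : ℕ, 3 ≤ k → k ≤ L → k ∉ B → ∃ Z ⊆ E, IsCyc Z ∧ Z.card = k) →
    ∃ H ⊆ E, H.card ≤ L ∧ K * (H.card + 1) < ((Zf H).card : ℝ) := by
  classical
  obtain ⟨L', hL3, hL'⟩ := local_form (K * 2 ^ M) (by positivity)
  refine ⟨L' + M + 1, by omega, ?_⟩
  rintro N E ⟨B, hB, hcyc⟩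
  -- a long cycle
  obtain ⟨l, hl, hlB⟩ : ∃ l ∈ Finset.Icc (L' + 1) (L' + M + 1), l ∉ B := by
    by_contra hcon
    push Not at hcon
    have : Finset.Icc (L' + 1) (L' + M + 1) ⊆ B := hcon
    have := card_le_card this
    rw [Nat.card_Icc] at this
    omega
  rw [mem_Icc] at hl
  obtain ⟨Z0, hZ0E, hZ0, hZ0c⟩ := hcyc l (by omega) hl.2 hlB
  have hch : ∀ k : ℕ, ∃ e : Sym2 (Fin N), 3 ≤ k → k ≤ L' →
      ∃ Z' ⊆ insert e E, IsCyc Z' ∧ Z'.card = k := by
    intro k
    by_cases hk : 3 ≤ k ∧ k ≤ L'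
    · obtain ⟨e, Z', h1, h2, h3⟩ := chord hZ0 hk.1 (by omega)
      exact ⟨e, fun _ _ => ⟨Z', h1.trans (insert_subset_insert e hZ0E), h2, h3⟩⟩
    · obtain ⟨e, -⟩ := (cyc_ev hZ0).2.2.2
      exact ⟨e, fun h1 h2 => absurd ⟨h1, h2⟩ hk⟩
  choose f hf using hch
  set T := B.image f with hT
  have hTM : T.card ≤ M := card_image_le.trans hB
  obtain ⟨H', hH'E, hH'L, hH'⟩ := hL' N (E ∪ T) (by
    intro k hk hkL
    by_cases hkB : k ∈ B
    · obtain ⟨Z', h1, h2, h3⟩ := hf k hk hkL
      refine ⟨Z', h1.trans ?_, h2, h3⟩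
      rw [insert_subset_iff]
      exact ⟨mem_union_right _ (mem_image_of_mem _ hkB), subset_union_left⟩
    · obtain ⟨Z', h1, h2, h3⟩ := hcyc k hk (by omega) hkB
      exact ⟨Z', h1.trans subset_union_left, h2, h3⟩)
  refine ⟨H' \ T, ?_, ?_, ?_⟩
  · intro e he
    rw [Finset.mem_sdiff] at he
    rcases mem_union.1 (hH'E he.1) with h | h
    · exact h
    · exact absurd h he.2
  · have := card_le_card (sdiff_subset : H' \ T ⊆ H')
    omega
  · have h1 : (Zf H').card ≤ (Zf (H' \ T ∪ T)).card := by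
      apply card_le_card
      apply Zf_mono
      intro e he
      rw [mem_union, Finset.mem_sdiff]
      tauto
    have h2 := Zf_union_le (H' \ T) T
    have h3 : 2 ^ T.card * (Zf (H' \ T)).card ≤ 2 ^ M * (Zf (H' \ T)).card :=
      Nat.mul_le_mul_right _ (Nat.pow_le_pow_right (by norm_num) hTM)
    have h4 : (Zf H').card ≤ 2 ^ M * (Zf (H' \ T)).card := h1.trans (h2.trans h3)
    have h5 : ((Zf H').card : ℝ) ≤ 2 ^ M * ((Zf (H' \ T)).card : ℝ) := by exact_mod_cast h4
    have h6 : (((H' \ T).card : ℕ) : ℝ) ≤ (H'.card : ℝ) := by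
      exact_mod_cast card_le_card sdiff_subset
    have h7 : (2 : ℝ) ^ M * (K * (((H' \ T).card : ℝ) + 1)) < 2 ^ M * ((Zf (H' \ T)).card : ℝ) := by
      calc (2 : ℝ) ^ M * (K * (((H' \ T).card : ℝ) + 1)) ≤ (2 : ℝ) ^ M * (K * ((H'.card : ℝ) + 1)) := by
            gcongr
        _ = K * 2 ^ M * ((H'.card : ℝ) + 1) := by ring
        _ < ((Zf H').card : ℝ) := hH'
        _ ≤ _ := h5
    exact lt_of_mul_lt_mul_left h7 (by positivity)

/-! ### the cyclomatic number -/

variable {V : Type*}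

/-- reachability after adding an edge -/
theorem reach_insert {G G' : SimpleGraph V} {a b : V}
    (h : ∀ x y, G'.Adj x y → G.Adj x y ∨ (x = a ∧ y = b) ∨ (x = b ∧ y = a)) {u w : V}
    (hr : G'.Reachable u w) :
    G.Reachable u w ∨ (G.Reachable u a ∧ G.Reachable b w) ∨ (G.Reachable u b ∧ G.Reachable a w) := by
  obtain ⟨p⟩ := hr
  induction p with
  | nil => exact Or.inl (SimpleGraph.Reachable.refl _)
  | @cons x y z hadj r ih =>
    rcases h x y hadj with h1 | ⟨rfl, rfl⟩ | ⟨rfl, rfl⟩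
    · rcases ih with h2 | ⟨h2, h3⟩ | ⟨h2, h3⟩
      · exact Or.inl (h1.reachable.trans h2)
      · exact Or.inr (Or.inl ⟨h1.reachable.trans h2, h3⟩)
      · exact Or.inr (Or.inr ⟨h1.reachable.trans h2, h3⟩)
    · rcases ih with h2 | ⟨h2, h3⟩ | ⟨h2, h3⟩
      · exact Or.inr (Or.inl ⟨SimpleGraph.Reachable.refl _, h2⟩)
      · exact Or.inr (Or.inl ⟨SimpleGraph.Reachable.refl _, h3⟩)
      · exact Or.inl h3
    · rcases ih with h2 | ⟨h2, h3⟩ | ⟨h2, h3⟩
      · exact Or.inr (Or.inr ⟨SimpleGraph.Reachable.refl _, h2⟩)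
      · exact Or.inl h3
      · exact Or.inr (Or.inr ⟨SimpleGraph.Reachable.refl _, h3⟩)

/-- a graph whose reachability is not larger has at least as many components -/
theorem comps_le [Finite V] {G G' : SimpleGraph V} (hle : G ≤ G')
    (h : ∀ x y, G'.Reachable x y → G.Reachable x y) :
    Nat.card G.ConnectedComponent ≤ Nat.card G'.ConnectedComponent := by
  apply Nat.card_le_card_of_injective
    (SimpleGraph.ConnectedComponent.map (SimpleGraph.Hom.ofLE hle))
  intro c1 c2
  refine SimpleGraph.ConnectedComponent.ind₂ ?_ c1 c2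
  intro u v huv
  rw [SimpleGraph.ConnectedComponent.map_mk, SimpleGraph.ConnectedComponent.map_mk,
    SimpleGraph.ConnectedComponent.eq] at huv
  exact SimpleGraph.ConnectedComponent.eq.2 (h _ _ huv)

theorem comps_le_succ [Finite V] {G G' : SimpleGraph V} (hle : G ≤ G') {a b : V}
    (h : ∀ x y, G'.Adj x y → G.Adj x y ∨ (x = a ∧ y = b) ∨ (x = b ∧ y = a)) :
    Nat.card G.ConnectedComponent ≤ Nat.card G'.ConnectedComponent + 1 := by
  classical
  rw [← Finite.card_option]
  apply Nat.card_le_card_of_injective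
    (fun c : G.ConnectedComponent => if c = G.connectedComponentMk b then none else
      some (SimpleGraph.ConnectedComponent.map (SimpleGraph.Hom.ofLE hle) c))
  intro c1 c2 h12
  by_cases h1 : c1 = G.connectedComponentMk b
  · by_cases h2 : c2 = G.connectedComponentMk b
    · rw [h1, h2]
    · simp [h1, h2] at h12
  · by_cases h2 : c2 = G.connectedComponentMk b
    · simp [h1, h2] at h12
    · simp only [h1, h2, if_false, Option.some.injEq] at h12
      revert h1 h2 h12
      refine SimpleGraph.ConnectedComponent.ind₂ ?_ c1 c2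
      intro u v h1 h2 huv
      rw [SimpleGraph.ConnectedComponent.map_mk, SimpleGraph.ConnectedComponent.map_mk,
        SimpleGraph.ConnectedComponent.eq] at huv
      rcases reach_insert h huv with h3 | ⟨h3, h4⟩ | ⟨h3, h4⟩
      · exact SimpleGraph.ConnectedComponent.eq.2 h3
      · exact absurd (SimpleGraph.ConnectedComponent.eq.2 h4.symm) h2
      · exact absurd (SimpleGraph.ConnectedComponent.eq.2 h3) h1

variable [DecidableEq V]

/-- a bridge lies in no even set -/
theorem bridge_notMem [Fintype V] {E z : Finset (Sym2 V)} {a b : V} (hE : NL E) (heE : s(a, b) ∉ E)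
    (hr : ¬ (SimpleGraph.fromEdgeSet (E : Set (Sym2 V))).Reachable a b)
    (hz : z ∈ Zf (insert s(a, b) E)) : s(a, b) ∉ z := by
  classical
  intro hez
  rw [mem_Zf] at hz
  obtain ⟨hzE, hev⟩ := hz
  set G := SimpleGraph.fromEdgeSet (E : Set (Sym2 V)) with hG
  set A : Finset V := univ.filter (fun x => G.Reachable a x) with hA
  have hmA : ∀ x, x ∈ A ↔ G.Reachable a x := by intro x; simp [hA]
  have hdc := Finset.sum_card_bipartiteAbove_eq_sum_card_bipartiteBelow
    (s := A) (t := z) (fun (x : V) (f : Sym2 V) => x ∈ f)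
  have h1 : Even (∑ x ∈ A, #(z.bipartiteAbove (fun (x : V) (f : Sym2 V) => x ∈ f) x)) := by
    apply Finset.even_sum
    intro x _
    exact hev x
  rw [hdc, ← Finset.add_sum_erase z _ hez] at h1
  have h2 : Even (∑ f ∈ z.erase s(a, b),
      #(A.bipartiteBelow (fun (x : V) (f : Sym2 V) => x ∈ f) f)) := by
    apply Finset.even_sum
    intro f hf
    rw [mem_erase] at hf
    have hfE : f ∈ E := by
      rcases mem_insert.1 (hzE hf.2) with h | h
      · exact absurd h hf.1
      · exact h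
    have hfd := hE f hfE
    induction f with
    | _ x y =>
      rw [Sym2.mk_isDiag_iff] at hfd
      have hadj : G.Adj x y := by
        rw [hG, SimpleGraph.fromEdgeSet_adj]
        exact ⟨hfE, hfd⟩
      unfold Finset.bipartiteBelow
      by_cases hx : G.Reachable a x
      · have hy : G.Reachable a y := hx.trans hadj.reachable
        have : A.filter (fun w => w ∈ s(x, y)) = {x, y} := by
          ext w
          rw [mem_filter, hmA, Sym2.mem_iff, mem_insert, mem_singleton]
          constructor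
          · exact fun h => h.2
          · rintro (rfl | rfl)
            · exact ⟨hx, Or.inl rfl⟩
            · exact ⟨hy, Or.inr rfl⟩
        rw [this, card_pair hfd]
        exact even_two
      · have : A.filter (fun w => w ∈ s(x, y)) = ∅ := by
          rw [filter_eq_empty_iff]
          intro w hw hw2
          rw [hmA] at hw
          rw [Sym2.mem_iff] at hw2
          rcases hw2 with rfl | rfl
          · exact hx hw
          · exact hx (hw.trans hadj.symm.reachable)
        rw [this, card_empty]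
        exact Even.zero
  have h3 : #(A.bipartiteBelow (fun (x : V) (f : Sym2 V) => x ∈ f) s(a, b)) = 1 := by
    unfold Finset.bipartiteBelow
    rw [card_eq_one]
    refine ⟨a, ?_⟩
    ext w
    rw [mem_filter, hmA, mem_singleton]
    show G.Reachable a w ∧ w ∈ s(a, b) ↔ w = a
    rw [Sym2.mem_iff]
    constructor
    · rintro ⟨h4, rfl | rfl⟩
      · rfl
      · exact absurd h4 hr
    · rintro rfl
      exact ⟨SimpleGraph.Reachable.refl _, Or.inl rfl⟩
  rw [h3] at h1
  rw [Nat.even_add] at h1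
  exact absurd (h1.2 h2) (by decide)

/-- the number of even sets is at most `2 ^ (|E| - |V| + components)` -/
theorem Zf_le_cyclomatic [Fintype V] (E : Finset (Sym2 V)) (hE : NL E) :
    (Zf E).card * 2 ^ (Fintype.card V) ≤
      2 ^ (E.card + Nat.card (SimpleGraph.fromEdgeSet (E : Set (Sym2 V))).ConnectedComponent) := by
  classical
  induction E using Finset.induction_on with
  | empty =>
    have h1 : Zf (∅ : Finset (Sym2 V)) = {∅} := by
      ext z
      rw [mem_Zf, mem_singleton]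
      constructor
      · exact fun h => subset_empty.1 h.1
      · rintro rfl
        exact ⟨subset_rfl, isEv_empty⟩
    rw [h1, card_singleton, one_mul, card_empty, zero_add]
    apply Nat.pow_le_pow_right (by norm_num)
    rw [← Nat.card_eq_fintype_card]
    apply Nat.card_le_card_of_injective
      (fun v => (SimpleGraph.fromEdgeSet ((∅ : Finset (Sym2 V)) : Set (Sym2 V))).connectedComponentMk v)
    intro u v huv
    have huv' := SimpleGraph.ConnectedComponent.eq.1 huv
    rw [coe_empty, SimpleGraph.fromEdgeSet_empty, SimpleGraph.reachable_bot] at huv'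
    exact huv'
  | insert e E he ih =>
    have hE' : NL E := fun f hf => hE f (mem_insert_of_mem hf)
    have hed : ¬ e.IsDiag := hE e (mem_insert_self _ _)
    specialize ih hE'
    induction e with
    | _ a b =>
      rw [Sym2.mk_isDiag_iff] at hed
      set G := SimpleGraph.fromEdgeSet (E : Set (Sym2 V)) with hG
      set G' := SimpleGraph.fromEdgeSet ((insert s(a, b) E : Finset (Sym2 V)) : Set (Sym2 V)) with hG'
      have hle : G ≤ G' := by
        apply SimpleGraph.fromEdgeSet_mono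
        exact_mod_cast subset_insert _ _
      have hadj : ∀ x y, G'.Adj x y → G.Adj x y ∨ (x = a ∧ y = b) ∨ (x = b ∧ y = a) := by
        intro x y h
        rw [hG', SimpleGraph.fromEdgeSet_adj, mem_coe, mem_insert] at h
        rcases h with ⟨h1 | h1, h2⟩
        · exact Or.inr (Sym2.eq_iff.1 h1)
        · left
          rw [hG, SimpleGraph.fromEdgeSet_adj]
          exact ⟨h1, h2⟩
      rw [card_insert_of_notMem he]
      by_cases hr : G.Reachable a b
      · have h1 : Nat.card G.ConnectedComponent ≤ Nat.card G'.ConnectedComponent := by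
          apply comps_le hle
          intro x y hxy
          rcases reach_insert hadj hxy with h3 | ⟨h3, h4⟩ | ⟨h3, h4⟩
          · exact h3
          · exact h3.trans (hr.trans h4)
          · exact h3.trans (hr.symm.trans h4)
        have h2 := Zf_erase_le (insert s(a, b) E) s(a, b)
        rw [erase_insert he] at h2
        calc (Zf (insert s(a, b) E)).card * 2 ^ Fintype.card V
            ≤ (2 * (Zf E).card) * 2 ^ Fintype.card V := Nat.mul_le_mul_right _ h2
          _ = 2 * ((Zf E).card * 2 ^ Fintype.card V) := by ring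
          _ ≤ 2 * 2 ^ (E.card + Nat.card G.ConnectedComponent) := Nat.mul_le_mul_left _ ih
          _ = 2 ^ (E.card + 1 + Nat.card G.ConnectedComponent) := by ring
          _ ≤ _ := Nat.pow_le_pow_right (by norm_num) (by omega)
      · have h1 := comps_le_succ hle hadj
        have h2 : (Zf (insert s(a, b) E)).card ≤ (Zf E).card := by
          apply card_le_card
          intro z hz
          have h3 := bridge_notMem hE' he hr hz
          rw [mem_Zf] at hz ⊢
          refine ⟨fun f hf => ?_, hz.2⟩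
          rcases mem_insert.1 (hz.1 hf) with h | h
          · exact absurd (h ▸ hf) h3
          · exact h
        calc (Zf (insert s(a, b) E)).card * 2 ^ Fintype.card V
            ≤ (Zf E).card * 2 ^ Fintype.card V := Nat.mul_le_mul_right _ h2
          _ ≤ 2 ^ (E.card + Nat.card G.ConnectedComponent) := ih
          _ ≤ _ := Nat.pow_le_pow_right (by norm_num) (by omega)

end Y393J
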