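import Mathlib

noncomputable section
open scoped Classical

namespace Pool.Agent.Y393.Net3C

/-- A monotone system on a box has a zero. -/
theorem exists_zero {N : ℕ} (lo hi : ℝ) (F : Fin N → (Fin N → ℝ) → ℝ) (ρ : Fin N → ℝ)
    (hρ : ∀ i, lo ≤ ρ i ∧ ρ i ≤ hi)
    (hcont : ∀ i, ContinuousOn (F i) (Set.pi Set.univ (fun _ => Set.Icc lo hi)))
    (hmono : ∀ i j, j ≠ i → ∀ r ∈ Set.pi Set.univ (fun _ : Fin N => Set.Icc lo hi), ∀ t, r j ≤ t → t ≤ hi →
      F i r ≤ F i (Function.update r j t))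
    (hlo : ∀ i, 0 ≤ F i ρ)
    (hhi : ∀ i, ∀ r ∈ Set.pi Set.univ (fun _ : Fin N => Set.Icc lo hi), r i = hi → F i r < 0) :
    ∃ r ∈ Set.pi Set.univ (fun _ : Fin N => Set.Icc lo hi), ∀ i, F i r = 0 := by
  set B : Set (Fin N → ℝ) := Set.pi Set.univ (fun _ : Fin N => Set.Icc lo hi) with hB
  have hBc : IsCompact B := isCompact_univ_pi fun _ => isCompact_Icc
  have hBcl : IsClosed B := hBc.isClosed
  let P : Set (Fin N → ℝ) := B ∩ ⋂ i, (B ∩ (F i) ⁻¹' Set.Ici 0)
  have hPcl : IsClosed P := by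
    refine hBcl.inter (isClosed_iInter fun i => ?_)
    exact (hcont i).preimage_isClosed_of_isClosed hBcl isClosed_Ici
  have hPc : IsCompact P := hBc.of_isClosed_subset hPcl Set.inter_subset_left
  have hlomem : ρ ∈ B := by
    intro i _
    exact hρ i
  have hPne : P.Nonempty := by
    refine ⟨ρ, hlomem, ?_⟩
    rw [Set.mem_iInter]
    intro i
    exact ⟨hlomem, hlo i⟩
  have hS : Continuous (fun r : Fin N → ℝ => ∑ i, r i) := by fun_prop
  obtain ⟨r, hrP, hmax⟩ := hPc.exists_isMaxOn hPne hS.continuousOn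
  have hrB : r ∈ B := hrP.1
  have hrF : ∀ i, 0 ≤ F i r := by
    intro i
    have := hrP.2
    rw [Set.mem_iInter] at this
    exact (this i).2
  refine ⟨r, hrB, fun i => ?_⟩
  by_contra hne
  have hpos : 0 < F i r := lt_of_le_of_ne (hrF i) (Ne.symm hne)
  have hri := hrB i (Set.mem_univ i)
  have hlt : r i < hi := by
    rcases hri.2.lt_or_eq with h | h
    · exact h
    · exact absurd (hhi i r hrB h) (not_lt.2 (hrF i))
  have hg : Continuous (fun t : ℝ => Function.update r i t) := by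
    exact continuous_const.update i continuous_id
  have hmaps : Set.MapsTo (fun t : ℝ => Function.update r i t) (Set.Icc (r i) hi) B := by
    intro t ht j _
    by_cases hj : j = i
    · subst hj
      simp only [Function.update_self]
      exact ⟨le_trans hri.1 ht.1, ht.2⟩
    · simp only [Function.update_of_ne hj]
      exact hrB j (Set.mem_univ j)
  have hc : ContinuousOn (fun t : ℝ => F i (Function.update r i t)) (Set.Icc (r i) hi) :=
    (hcont i).comp hg.continuousOn hmaps
  have hcw : ContinuousWithinAt (fun t : ℝ => F i (Function.update r i t)) (Set.Ioo (r i) hi) (r i) :=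
    (hc (r i) ⟨le_refl _, hlt.le⟩).mono Set.Ioo_subset_Icc_self
  have hev : ∀ᶠ t in nhdsWithin (r i) (Set.Ioo (r i) hi), 0 < F i (Function.update r i t) := by
    have : 0 < F i (Function.update r i (r i)) := by rwa [Function.update_eq_self]
    exact hcw.eventually (lt_mem_nhds this)
  have hmem : ∀ᶠ t in nhdsWithin (r i) (Set.Ioo (r i) hi), t ∈ Set.Ioo (r i) hi := self_mem_nhdsWithin
  have : (nhdsWithin (r i) (Set.Ioo (r i) hi)).NeBot := left_nhdsWithin_Ioo_neBot hlt
  obtain ⟨t, ht1, ht2⟩ := (hev.and hmem).exists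
  have hr' : Function.update r i t ∈ P := by
    have hb : Function.update r i t ∈ B := hmaps ⟨ht2.1.le, ht2.2.le⟩
    refine ⟨hb, ?_⟩
    rw [Set.mem_iInter]
    intro j
    refine ⟨hb, ?_⟩
    by_cases hj : j = i
    · subst hj; exact ht1.le
    · exact le_trans (hrF j) (hmono j i (Ne.symm hj) r hrB t ht2.1.le ht2.2.le)
  have hle' := hmax hr'
  simp only [Set.mem_ofPred_eq] at hle'
  have hsum : ∑ j, Function.update r i t j = ∑ j, r j + (t - r i) := by
    rw [Finset.sum_update_of_mem (Finset.mem_univ i)]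
    rw [← Finset.add_sum_erase Finset.univ r (Finset.mem_univ i), Finset.sdiff_singleton_eq_erase]
    ring
  rw [hsum] at hle'
  linarith [ht2.1]

/-- radial tension exerted on a vertex at radius `r` by two neighbours at radius `s` -/
def H (r s : ℝ) : ℝ := (2 * r + s) / Real.sqrt (r ^ 2 + r * s + s ^ 2)

/-- radial pull by two boundary points of radius `R` -/
def f (R r : ℝ) : ℝ := (R - 2 * r) / Real.sqrt (R ^ 2 - R * r + r ^ 2)

theorem Q_pos {r s : ℝ} (hr : 0 < r) (hs : 0 ≤ s) : 0 < r ^ 2 + r * s + s ^ 2 := by positivity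

theorem D_pos {R : ℝ} (r : ℝ) (hR : 0 < R) : 0 < R ^ 2 - R * r + r ^ 2 := by nlinarith [sq_nonneg (R - 2 * r)]

theorem H_lt {r s s' : ℝ} (hr : 0 < r) (hs : 0 ≤ s) (h : s < s') : H r s' < H r s := by
  have hs' : 0 ≤ s' := by linarith
  have hQ := Q_pos hr hs
  have hQ' := Q_pos hr hs'
  unfold H
  rw [div_lt_div_iff₀ (Real.sqrt_pos.2 hQ') (Real.sqrt_pos.2 hQ)]
  apply lt_of_pow_lt_pow_left₀ 2 (by positivity)
  rw [mul_pow, mul_pow, Real.sq_sqrt hQ.le, Real.sq_sqrt hQ'.le]
  have key : (2 * r + s) ^ 2 * (r ^ 2 + r * s' + s' ^ 2) - (2 * r + s') ^ 2 * (r ^ 2 + r * s + s ^ 2)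
      = 3 * (r ^ 2 * (s' + s) + r * s * s') * (s' - s) := by ring
  have : 0 < 3 * (r ^ 2 * (s' + s) + r * s * s') * (s' - s) := by
    apply mul_pos _ (by linarith)
    have : 0 < r ^ 2 * (s' + s) := by
      apply mul_pos (by positivity) (by linarith)
    have : 0 ≤ r * s * s' := by positivity
    linarith
  linarith

theorem H_le {r s s' : ℝ} (hr : 0 < r) (hs : 0 ≤ s) (h : s ≤ s') : H r s' ≤ H r s := by
  rcases h.lt_or_eq with h | h
  · exact (H_lt hr hs h).le
  · rw [h]

theorem H_self {r : ℝ} (hr : 0 < r) : H r r = Real.sqrt 3 := by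
  unfold H
  have h1 : r ^ 2 + r * r + r ^ 2 = 3 * r ^ 2 := by ring
  rw [h1, Real.sqrt_mul (by norm_num), Real.sqrt_sq hr.le]
  have h3 : (0:ℝ) < Real.sqrt 3 := Real.sqrt_pos.2 (by norm_num)
  rw [div_eq_iff (by positivity)]
  nlinarith [Real.sq_sqrt (show (0:ℝ) ≤ 3 by norm_num)]

theorem one_le_H {r s : ℝ} (hr : 0 < r) (hs : 0 ≤ s) : 1 ≤ H r s := by
  unfold H
  rw [le_div_iff₀ (Real.sqrt_pos.2 (Q_pos hr hs)), one_mul]
  rw [Real.sqrt_le_left (by positivity)]
  nlinarith [mul_nonneg hr.le hs]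

theorem f_anti {R r r' : ℝ} (hR : 0 < R) (h : r ≤ r') (h' : 2 * r' ≤ R) : f R r' ≤ f R r := by
  have hD := D_pos r hR
  have hD' := D_pos r' hR
  unfold f
  rw [div_le_div_iff₀ (Real.sqrt_pos.2 hD') (Real.sqrt_pos.2 hD)]
  have h1 : 0 ≤ R - 2 * r' := by linarith
  have h2 : 0 ≤ R - 2 * r := by linarith
  apply le_of_sq_le_sq _ (by positivity)
  rw [mul_pow, mul_pow, Real.sq_sqrt hD.le, Real.sq_sqrt hD'.le]
  have key : (R - 2 * r) ^ 2 * (R ^ 2 - R * r' + r' ^ 2) - (R - 2 * r') ^ 2 * (R ^ 2 - R * r + r ^ 2)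
      = 3 * R ^ 2 * ((R - 2 * r) + (R - 2 * r')) * (r' - r) / 2 := by ring
  have : 0 ≤ 3 * R ^ 2 * ((R - 2 * r) + (R - 2 * r')) * (r' - r) / 2 := by
    have : 0 ≤ r' - r := by linarith
    positivity
  linarith

/-- adjacency of layers: consecutive layers, and the last layer with itself -/
def nb {N : ℕ} (i j : Fin N) : Prop := j.val = i.val + 1 ∨ i.val = j.val + 1 ∨ (i = j ∧ i.val + 1 = N)

def nxt {N : ℕ} (i : Fin N) : Fin N := if h : i.val + 1 < N then ⟨i.val + 1, h⟩ else i
def prv {N : ℕ} (i : Fin N) : Fin N := ⟨i.val - 1, lt_of_le_of_lt (Nat.sub_le _ _) i.2⟩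

theorem nb_symm {N : ℕ} {i j : Fin N} (h : nb i j) : nb j i := by
  rcases h with h | h | ⟨h, h'⟩
  · exact Or.inr (Or.inl h)
  · exact Or.inl h
  · exact Or.inr (Or.inr ⟨h.symm, h ▸ h'⟩)

theorem sum_nb {E : Type} [AddCommMonoid E] {N : ℕ} (i : Fin N) (X : Fin N → E) :
    ∑ j, (if nb i j then X j else 0) = X (nxt i) + (if 0 < i.val then X (prv i) else 0) := by
  have h : ∀ j, (if nb i j then X j else 0) =
      (if j = nxt i then X j else 0) + (if j = prv i then (if 0 < i.val then X j else 0) else 0) := by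
    intro j
    by_cases h1 : j = nxt i
    · have hn : nb i j := by
        rw [h1]; unfold nb nxt
        split_ifs with h
        · left; rfl
        · right; right
          refine ⟨rfl, ?_⟩
          have := i.2; omega
      rw [if_pos hn, if_pos h1]
      by_cases h2 : j = prv i
      · rw [if_pos h2]
        by_cases h3 : 0 < i.val
        · exfalso
          rw [h1] at h2
          unfold nxt prv at h2
          split_ifs at h2 with h
          · rw [Fin.mk.injEq] at h2; omega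
          · have := congrArg Fin.val h2
            simp only at this; omega
        · rw [if_neg h3, add_zero]
      · rw [if_neg h2, add_zero]
    · rw [if_neg h1, zero_add]
      by_cases h2 : j = prv i
      · rw [if_pos h2]
        by_cases h3 : 0 < i.val
        · rw [if_pos h3, if_pos]
          rw [h2]; unfold nb prv
          right; left
          simp only; omega
        · rw [if_neg h3, if_neg]
          intro hn
          have hi : i.val = 0 := by omega
          have hj : j = i := by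
            rw [h2]; unfold prv; apply Fin.ext; simp only; omega
          rcases hn with h | h | ⟨h, h'⟩
          · rw [hj] at h; omega
          · omega
          · apply h1
            rw [hj]; unfold nxt
            rw [dif_neg (by omega)]
      · rw [if_neg h2, if_neg]
        intro hn
        rcases hn with h | h | ⟨h, h'⟩
        · apply h1
          unfold nxt
          have := j.2
          rw [dif_pos (by omega)]
          apply Fin.ext; simp only; exact h
        · apply h2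
          unfold prv; apply Fin.ext; simp only; omega
        · apply h1
          unfold nxt
          rw [dif_neg (by omega)]
          exact h.symm
  rw [Finset.sum_congr rfl fun j _ => h j, Finset.sum_add_distrib, Finset.sum_ite_eq' Finset.univ,
    Finset.sum_ite_eq' Finset.univ]
  simp

/-- data of the boundary points -/
structure Data (Λ : Type) [Fintype Λ] where
  R : Λ → ℝ
  w : Λ → ℕ
  R_ge : ∀ l, 20 ≤ R l
  glo : ∀ r : ℝ, 0 < r → r ≤ 1 → 3 - 3 / 10 * r ≤ ∑ l, (w l : ℝ) * f (R l) r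
  ghi : ∑ l, (w l : ℝ) * f (R l) 10 < 1

variable {Λ : Type} [Fintype Λ] (A : Data Λ)

def g (r : ℝ) : ℝ := ∑ l, (A.w l : ℝ) * f (A.R l) r

theorem g_anti {r r' : ℝ} (h : r ≤ r') (h' : r' ≤ 10) : g A r' ≤ g A r := by
  unfold g
  refine Finset.sum_le_sum fun l _ => ?_
  have hR := A.R_ge l
  exact mul_le_mul_of_nonneg_left (f_anti (by linarith) h (by linarith)) (Nat.cast_nonneg _)

theorem hcont_aux {N : ℕ} {lo : ℝ} (hlo : 0 < lo) : ∀ i, ContinuousOn ((fun (i : Fin N) (r : Fin N → ℝ) =>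
        g A (r i) - (H (r i) (r (nxt i)) + (if 0 < i.val then H (r i) (r (prv i)) else 0))) i)
    (Set.pi Set.univ (fun _ => Set.Icc lo 10)) := by
  intro i
  have hH : ∀ k, ContinuousOn (fun r : Fin N → ℝ => H (r i) (r k)) (Set.pi Set.univ (fun _ => Set.Icc lo 10)) := by
    intro k
    unfold H
    apply ContinuousOn.div
    · fun_prop
    · fun_prop
    · intro r hr
      have h1 := hr i (Set.mem_univ i)
      have h2 := hr k (Set.mem_univ k)
      exact (Real.sqrt_pos.2 (Q_pos (by linarith [h1.1]) (by linarith [h2.1]))).ne'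
  have hg : Continuous (fun r : Fin N → ℝ => g A (r i)) := by
    unfold g
    refine continuous_finset_sum _ fun l _ => ?_
    refine Continuous.mul continuous_const ?_
    unfold f
    apply Continuous.div
    · fun_prop
    · fun_prop
    · intro r
      exact (Real.sqrt_pos.2 (D_pos _ (by linarith [A.R_ge l]))).ne'
  apply ContinuousOn.sub hg.continuousOn
  apply ContinuousOn.add (hH _)
  by_cases h0 : 0 < i.val
  · simp only [h0, if_true]; exact hH _
  · simp only [h0, if_false]; exact continuousOn_const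

theorem hmono_aux {N : ℕ} {lo : ℝ} (hlo : 0 < lo) : ∀ i j, j ≠ i → ∀ r ∈ Set.pi Set.univ (fun _ : Fin N => Set.Icc lo 10), ∀ t, r j ≤ t → t ≤ 10 →
      (fun (i : Fin N) (r : Fin N → ℝ) =>
        g A (r i) - (H (r i) (r (nxt i)) + (if 0 < i.val then H (r i) (r (prv i)) else 0))) i r ≤
      (fun (i : Fin N) (r : Fin N → ℝ) =>
        g A (r i) - (H (r i) (r (nxt i)) + (if 0 < i.val then H (r i) (r (prv i)) else 0))) i (Function.update r j t) := by
  intro i j hji r hr t h1 h2
  have hri := hr i (Set.mem_univ i)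
  have hrj := hr j (Set.mem_univ j)
  have hup : ∀ k, H (Function.update r j t i) (Function.update r j t k) ≤ H (r i) (r k) := by
    intro k
    rw [Function.update_of_ne (Ne.symm hji)]
    by_cases hk : k = j
    · subst hk
      rw [Function.update_self]
      exact H_le (by linarith [hri.1]) (by linarith [hrj.1]) h1
    · rw [Function.update_of_ne hk]
  have e : Function.update r j t i = r i := Function.update_of_ne (Ne.symm hji) _ _
  have hu1 := hup (nxt i)
  have hu2 := hup (prv i)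
  by_cases h0 : 0 < i.val
  · simp only [h0, if_true]
    rw [e] at hu1 hu2 ⊢
    linarith
  · simp only [h0, if_false]
    rw [e] at hu1 hu2 ⊢
    linarith

/-- inner ratio bound -/
theorem H_inner {r x : ℝ} (hr : 0 < r) (hx0 : 0 ≤ x) (hx : x ≤ 1) : H r (r * x) ≤ 2 - x ^ 2 / 4 := by
  have hQ : 0 < r ^ 2 + r * (r * x) + (r * x) ^ 2 := Q_pos hr (mul_nonneg hr.le hx0)
  unfold H
  rw [div_le_iff₀ (Real.sqrt_pos.2 hQ)]
  have e : r ^ 2 + r * (r * x) + (r * x) ^ 2 = r ^ 2 * (1 + x + x ^ 2) := by ring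
  rw [e, Real.sqrt_mul (by positivity), Real.sqrt_sq hr.le]
  have h1 : (2 + x) ≤ (2 - x ^ 2 / 4) * Real.sqrt (1 + x + x ^ 2) := by
    have hx2 : x ^ 2 ≤ 1 := by nlinarith
    apply le_of_sq_le_sq _ (mul_nonneg (by linarith) (Real.sqrt_nonneg _))
    rw [mul_pow, Real.sq_sqrt (by positivity)]
    have key : (2 - x ^ 2 / 4) ^ 2 * (1 + x + x ^ 2) - (2 + x) ^ 2 =
        x ^ 2 * ((1 - x) * (2 + x)) + x ^ 4 / 16 * (1 + x + x ^ 2) := by ring
    have : 0 ≤ x ^ 2 * ((1 - x) * (2 + x)) + x ^ 4 / 16 * (1 + x + x ^ 2) := by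
      have : 0 ≤ 1 - x := by linarith
      positivity
    linarith
  calc 2 * r + r * x = r * (2 + x) := by ring
    _ ≤ r * ((2 - x ^ 2 / 4) * Real.sqrt (1 + x + x ^ 2)) := mul_le_mul_of_nonneg_left h1 hr.le
    _ = _ := by ring

/-- outer ratio bound -/
theorem H_outer {s y : ℝ} (hs : 0 < s) (hy0 : 0 < y) : H (s * y) s ≤ 1 + 3 / 2 * y := by
  have hQ : 0 < (s * y) ^ 2 + (s * y) * s + s ^ 2 := Q_pos (mul_pos hs hy0) hs.le
  unfold H
  rw [div_le_iff₀ (Real.sqrt_pos.2 hQ)]
  have e : (s * y) ^ 2 + (s * y) * s + s ^ 2 = s ^ 2 * (y ^ 2 + y + 1) := by ring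
  rw [e, Real.sqrt_mul (by positivity), Real.sqrt_sq hs.le]
  have h1 : (2 * y + 1) ≤ (1 + 3 / 2 * y) * Real.sqrt (y ^ 2 + y + 1) := by
    apply le_of_sq_le_sq _ (by positivity)
    rw [mul_pow, Real.sq_sqrt (by positivity)]
    have key : (1 + 3 / 2 * y) ^ 2 * (y ^ 2 + y + 1) - (2 * y + 1) ^ 2 =
        9 / 4 * y ^ 2 + 21 / 4 * y ^ 3 + 9 / 4 * y ^ 4 := by ring
    have : 0 ≤ 9 / 4 * y ^ 2 + 21 / 4 * y ^ 3 + 9 / 4 * y ^ 4 := by positivity
    linarith
  calc 2 * (s * y) + s = s * (2 * y + 1) := by ring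
    _ ≤ s * ((1 + 3 / 2 * y) * Real.sqrt (y ^ 2 + y + 1)) := mul_le_mul_of_nonneg_left h1 hs.le
    _ = _ := by ring

/-- the ratios of the subsolution with `N` layers -/
def xr (N i : ℕ) : ℝ := (1 / 8 : ℝ) ^ (2 ^ (N - 1 - i) - 1)

/-- the radii of the subsolution -/
def rho (N i : ℕ) : ℝ := ∏ k ∈ Finset.range i, xr N k

theorem xr_pos (N i : ℕ) : 0 < xr N i := by unfold xr; positivity

theorem xr_le (N i : ℕ) : xr N i ≤ 1 := by
  unfold xr
  exact pow_le_one₀ (by norm_num) (by norm_num)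

theorem xr_last {N : ℕ} {i : ℕ} (h : N ≤ i + 1) : xr N i = 1 := by
  unfold xr
  have : N - 1 - i = 0 := by omega
  rw [this]; simp

theorem xr_rec {N i : ℕ} (h : i + 1 < N) : xr N (i + 1) ^ 2 = 8 * xr N i := by
  unfold xr
  obtain ⟨m, hm⟩ : ∃ m, N - 1 - (i + 1) = m := ⟨_, rfl⟩
  have h1 : N - 1 - i = m + 1 := by omega
  rw [hm, h1, ← pow_mul]
  have h2 : 1 ≤ 2 ^ m := Nat.one_le_two_pow
  have h3 : 2 ^ (m + 1) - 1 = (2 ^ m - 1) * 2 + 1 := by
    rw [pow_succ]; omega
  rw [h3, pow_succ]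
  ring

theorem rho_pos (N i : ℕ) : 0 < rho N i := Finset.prod_pos fun _ _ => xr_pos _ _

theorem rho_succ (N i : ℕ) : rho N (i + 1) = rho N i * xr N i := by
  unfold rho
  rw [Finset.prod_range_succ]

theorem rho_le (N i : ℕ) : rho N i ≤ 1 := by
  unfold rho
  exact Finset.prod_le_one (fun _ _ => (xr_pos _ _).le) (fun _ _ => xr_le _ _)

theorem rho_anti (N : ℕ) : Antitone (rho N) := by
  apply antitone_nat_of_succ_le
  intro i
  rw [rho_succ]
  exact mul_le_of_le_one_right (rho_pos _ _).le (xr_le _ _)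

theorem hlo_aux {N : ℕ} : ∀ i, 0 ≤ (fun (i : Fin N) (r : Fin N → ℝ) =>
        g A (r i) - (H (r i) (r (nxt i)) + (if 0 < i.val then H (r i) (r (prv i)) else 0))) i
        (fun k => rho N k.val) := by
  intro i
  have hi := i.2
  have hg : 3 - 3 / 10 * rho N i.val ≤ g A (rho N i.val) := A.glo _ (rho_pos _ _) (rho_le _ _)
  have hn : rho N (nxt i).val = rho N i.val * xr N i.val := by
    unfold nxt
    split_ifs with h
    · exact rho_succ N i.val
    · rw [xr_last (by omega), mul_one]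
  have h1 := H_inner (rho_pos N i.val) (xr_pos N i.val).le (xr_le N i.val)
  rw [← hn] at h1
  simp only
  have hx := xr_pos N i.val
  have hr1 := rho_le N i.val
  split_ifs with h0
  · obtain ⟨k, hk⟩ : ∃ k, i.val = k + 1 := ⟨i.val - 1, by omega⟩
    have hp : (prv i).val = k := by unfold prv; simp only; omega
    have h2 := H_outer (rho_pos N k) (xr_pos N k)
    rw [← rho_succ, ← hk] at h2
    rw [hp]
    have h3 := xr_rec (N := N) (i := k) (by omega)
    rw [← hk] at h3
    have h4 : rho N i.val ≤ xr N k := by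
      rw [hk, rho_succ]
      exact mul_le_of_le_one_left (xr_pos _ _).le (rho_le _ _)
    have h5 := xr_pos N k
    linarith
  · nlinarith [sq_nonneg (xr N i.val)]

theorem hhi_aux {N : ℕ} {lo : ℝ} (hlo : 0 < lo) : ∀ i, ∀ r ∈ Set.pi Set.univ (fun _ : Fin N => Set.Icc lo 10), r i = 10 →
      (fun (i : Fin N) (r : Fin N → ℝ) =>
        g A (r i) - (H (r i) (r (nxt i)) + (if 0 < i.val then H (r i) (r (prv i)) else 0))) i r < 0 := by
  intro i r hr hi
  have hri := hr i (Set.mem_univ i)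
  have hn := hr (nxt i) (Set.mem_univ _)
  have hp := hr (prv i) (Set.mem_univ _)
  have h1 := one_le_H (r := r i) (s := r (nxt i)) (by linarith [hri.1]) (by linarith [hn.1])
  have h2 := one_le_H (r := r i) (s := r (prv i)) (by linarith [hri.1]) (by linarith [hp.1])
  have h3 : g A (r i) < 1 := by rw [hi]; exact A.ghi
  simp only
  split_ifs <;> linarith

theorem exists_chain (N : ℕ) : ∃ r : Fin N → ℝ, (∀ i, 0 < r i ∧ r i ≤ 10) ∧
    ∀ i, g A (r i) = ∑ j, (if nb i j then H (r i) (r j) else 0) := by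
  have hlo : 0 < rho N N := rho_pos N N
  have main : ∃ r ∈ Set.pi Set.univ (fun _ : Fin N => Set.Icc (rho N N) 10), ∀ i,
      (fun (i : Fin N) (r : Fin N → ℝ) =>
        g A (r i) - (H (r i) (r (nxt i)) + (if 0 < i.val then H (r i) (r (prv i)) else 0))) i r = 0 := by
    refine exists_zero (rho N N) 10 _ (fun k => rho N k.val) ?_ ?_ ?_ ?_ ?_
    · intro i
      exact ⟨rho_anti N i.2.le, (rho_le _ _).trans (by norm_num)⟩
    · exact hcont_aux A hlo
    · exact hmono_aux A hlo
    · exact hlo_aux A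
    · exact hhi_aux A hlo
  obtain ⟨r, hr, h⟩ := main
  refine ⟨r, fun i => ⟨hlo.trans_le (hr i (Set.mem_univ i)).1, (hr i (Set.mem_univ i)).2⟩, fun i => ?_⟩
  rw [sum_nb]
  have := h i
  simp only at this
  linarith

theorem chain_strict {N : ℕ} {r : Fin N → ℝ} (hr : ∀ i, 0 < r i ∧ r i ≤ 10)
    (h : ∀ i, g A (r i) = ∑ j, (if nb i j then H (r i) (r j) else 0)) :
    StrictAnti r := by
  have hs3 : (0:ℝ) < Real.sqrt 3 := Real.sqrt_pos.2 (by norm_num)
  have hpos : ∀ i, 0 < r i := fun i => (hr i).1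
  have h' : ∀ i, g A (r i) = H (r i) (r (nxt i)) + (if 0 < i.val then H (r i) (r (prv i)) else 0) := by
    intro i; rw [h i, sum_nb]
  have hge : ∀ {i j : Fin N}, r j ≤ r i → Real.sqrt 3 ≤ H (r i) (r j) := by
    intro i j hij
    rw [← H_self (hpos i)]
    exact H_le (hpos i) (hpos j).le hij
  have hle : ∀ {i j : Fin N}, r i ≤ r j → H (r i) (r j) ≤ Real.sqrt 3 := by
    intro i j hij
    rw [← H_self (hpos i)]
    exact H_le (hpos i) (hpos i).le hij
  have hlt : ∀ {i j : Fin N}, r i < r j → H (r i) (r j) < Real.sqrt 3 := by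
    intro i j hij
    rw [← H_self (hpos i)]
    exact H_lt (hpos i) (hpos i).le hij
  rcases Nat.eq_zero_or_pos N with hN | hN
  · subst hN
    intro i; exact i.elim0
  -- step 1
  have step1 : ∀ (hN' : N - 1 < N), g A (r ⟨N - 1, hN'⟩) < 2 * Real.sqrt 3 := by
    intro hN'
    by_contra hcon
    push Not at hcon
    have claim : ∀ d : ℕ, ∀ hd : N - 1 - d < N, d ≤ N - 1 →
        2 * Real.sqrt 3 ≤ g A (r ⟨N - 1 - d, hd⟩) ∧
        H (r ⟨N - 1 - d, hd⟩) (r (nxt ⟨N - 1 - d, hd⟩)) ≤ Real.sqrt 3 := by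
      intro d
      induction d with
      | zero =>
        intro hd _
        refine ⟨hcon, ?_⟩
        have : nxt (⟨N - 1 - 0, hd⟩ : Fin N) = ⟨N - 1 - 0, hd⟩ := by
          unfold nxt; rw [dif_neg]; simp only; omega
        rw [this]
        exact (H_self (hpos _)).le
      | succ d ih =>
        intro hd hdN
        have hd' : N - 1 - d < N := by omega
        obtain ⟨i1, i2⟩ := ih hd' (by omega)
        have e := h' ⟨N - 1 - d, hd'⟩
        rw [if_pos (by simp only; omega)] at e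
        have hp : prv (⟨N - 1 - d, hd'⟩ : Fin N) = ⟨N - 1 - (d + 1), hd⟩ := by
          unfold prv; apply Fin.ext; simp only; omega
        rw [hp] at e
        have e2 : Real.sqrt 3 ≤ H (r ⟨N - 1 - d, hd'⟩) (r ⟨N - 1 - (d + 1), hd⟩) := by linarith
        have e3 : r ⟨N - 1 - (d + 1), hd⟩ ≤ r ⟨N - 1 - d, hd'⟩ := by
          by_contra hc
          push Not at hc
          exact absurd (hlt hc) (not_lt.2 e2)
        refine ⟨le_trans i1 (g_anti A e3 (hr _).2), ?_⟩
        have hn : nxt (⟨N - 1 - (d + 1), hd⟩ : Fin N) = ⟨N - 1 - d, hd'⟩ := by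
          unfold nxt; rw [dif_pos (by simp only; omega)]; apply Fin.ext; simp only; omega
        rw [hn]
        exact hle e3
    have hz := claim (N - 1) (by omega) le_rfl
    have e := h' ⟨N - 1 - (N - 1), by omega⟩
    rw [if_neg (by simp only; omega)] at e
    linarith [hz.1, hz.2]
  have claim : ∀ d : ℕ, ∀ hd : N - 1 - d < N, d ≤ N - 1 →
      g A (r ⟨N - 1 - d, hd⟩) < 2 * Real.sqrt 3 ∧
      Real.sqrt 3 ≤ H (r ⟨N - 1 - d, hd⟩) (r (nxt ⟨N - 1 - d, hd⟩)) := by
    intro d
    induction d with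
    | zero =>
      intro hd _
      refine ⟨step1 hd, ?_⟩
      have : nxt (⟨N - 1 - 0, hd⟩ : Fin N) = ⟨N - 1 - 0, hd⟩ := by
        unfold nxt; rw [dif_neg]; simp only; omega
      rw [this]
      exact (H_self (hpos _)).ge
    | succ d ih =>
      intro hd hdN
      have hd' : N - 1 - d < N := by omega
      obtain ⟨i1, i2⟩ := ih hd' (by omega)
      have e := h' ⟨N - 1 - d, hd'⟩
      rw [if_pos (by simp only; omega)] at e
      have hp : prv (⟨N - 1 - d, hd'⟩ : Fin N) = ⟨N - 1 - (d + 1), hd⟩ := by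
        unfold prv; apply Fin.ext; simp only; omega
      rw [hp] at e
      have e2 : H (r ⟨N - 1 - d, hd'⟩) (r ⟨N - 1 - (d + 1), hd⟩) < Real.sqrt 3 := by linarith
      have e3 : r ⟨N - 1 - d, hd'⟩ < r ⟨N - 1 - (d + 1), hd⟩ := by
        by_contra hc
        push Not at hc
        exact absurd (hge hc) (not_le.2 e2)
      refine ⟨lt_of_le_of_lt (g_anti A e3.le (hr _).2) i1, ?_⟩
      have hn : nxt (⟨N - 1 - (d + 1), hd⟩ : Fin N) = ⟨N - 1 - d, hd'⟩ := by
        unfold nxt; rw [dif_pos (by simp only; omega)]; apply Fin.ext; simp only; omega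
      rw [hn]
      exact hge e3.le
  have mono1 : ∀ (i : ℕ) (h1 : i + 1 < N), r ⟨i + 1, h1⟩ < r ⟨i, by omega⟩ := by
    intro i h1
    obtain ⟨i1, i2⟩ := claim (N - 1 - (i + 1)) (by omega) (by omega)
    have e := h' ⟨N - 1 - (N - 1 - (i + 1)), by omega⟩
    rw [if_pos (by simp only; omega)] at e
    have hp : prv (⟨N - 1 - (N - 1 - (i + 1)), by omega⟩ : Fin N) = ⟨i, by omega⟩ := by
      unfold prv; apply Fin.ext; simp only; omega
    have hq : (⟨N - 1 - (N - 1 - (i + 1)), by omega⟩ : Fin N) = ⟨i + 1, h1⟩ := by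
      apply Fin.ext; simp only; omega
    rw [hp] at e
    rw [hq] at e i1 i2
    have e2 : H (r ⟨i + 1, h1⟩) (r ⟨i, by omega⟩) < Real.sqrt 3 := by linarith
    by_contra hc
    push Not at hc
    exact absurd (hge hc) (not_le.2 e2)
  obtain ⟨M, rfl⟩ : ∃ M, N = M + 1 := ⟨N - 1, by omega⟩
  rw [Fin.strictAnti_iff_succ_lt]
  intro i
  exact mono1 i.val (by omega)

end Pool.Agent.Y393.Net3C
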