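import Pool.Agent.Y393.Net2O
import Pool.Agent.Y393.Net3C

noncomputable section
open scoped Classical

namespace Pool.Agent.Y393.Net2

open Pool.Agent.Y393.Net3C (xr rho xr_pos xr_le xr_rec rho_pos rho_succ rho_le rho_anti)

/-- index type of the rings: `B i`, `C i`, `A i` -/
abbrev Rg (n : ℕ) := Fin n ⊕ (Fin n ⊕ Fin n)

def Mm {n : ℕ} : Rg n → Rg n → ℕ
  | Sum.inl _, Sum.inl _ => 0
  | Sum.inl i, Sum.inr (Sum.inl j) => if j = i then 1 else 0
  | Sum.inl i, Sum.inr (Sum.inr j) => if i.val = j.val ∨ i.val = j.val + 1 then 1 else 0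
  | Sum.inr (Sum.inl j), Sum.inl i => if j = i then 1 else 0
  | Sum.inr (Sum.inr j), Sum.inl i => if i.val = j.val ∨ i.val = j.val + 1 then 1 else 0
  | Sum.inr _, Sum.inr _ => 0

/-- boundary weights -/
def ww {n : ℕ} : Rg n → ℕ
  | Sum.inl _ => 0
  | Sum.inr (Sum.inl _) => 2
  | Sum.inr (Sum.inr _) => 1

/-- axis weights -/
def ee {n : ℕ} : Rg n → ℕ
  | Sum.inl i => if i.val = 0 then 1 else 0
  | Sum.inr _ => 0

theorem sum_two {n : ℕ} (i : Fin n) (X : Fin n → ℝ) :
    ∑ j : Fin n, (((if i.val = j.val ∨ i.val = j.val + 1 then 1 else 0 : ℕ)) : ℝ) * X j =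
      X i + (if 0 < i.val then X ⟨i.val - 1, lt_of_le_of_lt (Nat.sub_le _ _) i.2⟩ else 0) := by
  have h : ∀ j : Fin n, (((if i.val = j.val ∨ i.val = j.val + 1 then 1 else 0 : ℕ)) : ℝ) * X j =
      (if j = i then X j else 0) +
      (if j = ⟨i.val - 1, lt_of_le_of_lt (Nat.sub_le _ _) i.2⟩ then (if 0 < i.val then X j else 0) else 0) := by
    intro j
    by_cases h1 : j = i
    · subst h1
      by_cases h3 : 0 < j.val
      · have : ¬ j = ⟨j.val - 1, lt_of_le_of_lt (Nat.sub_le _ _) j.2⟩ := by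
          intro h; have := congrArg Fin.val h; simp only at this; omega
        rw [if_neg this]; simp
      · rw [if_neg h3]; simp
    · have h1' : i.val ≠ j.val := fun h => h1 (Fin.ext h.symm)
      rw [if_neg h1, zero_add]
      by_cases h2 : i.val = j.val + 1
      · have : j = ⟨i.val - 1, lt_of_le_of_lt (Nat.sub_le _ _) i.2⟩ := by
          apply Fin.ext; simp only; omega
        rw [if_pos (Or.inr h2), if_pos this, if_pos (by omega)]; simp
      · rw [if_neg (by rintro (h | h) <;> omega)]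
        by_cases h3 : 0 < i.val
        · have : ¬ j = ⟨i.val - 1, lt_of_le_of_lt (Nat.sub_le _ _) i.2⟩ := by
            intro h; have := congrArg Fin.val h; simp only at this; omega
          rw [if_neg this]; simp
        · rw [if_neg h3]; simp
  rw [Finset.sum_congr rfl fun j _ => h j, Finset.sum_add_distrib, Finset.sum_ite_eq', Finset.sum_ite_eq']
  simp

theorem sum_two' {n : ℕ} (i : Fin n) (X : Fin n → ℝ) :
    ∑ j : Fin n, (((if j.val = i.val ∨ j.val = i.val + 1 then 1 else 0 : ℕ)) : ℝ) * X j =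
      X i + (if h : i.val + 1 < n then X ⟨i.val + 1, h⟩ else 0) := by
  by_cases h0 : i.val + 1 < n
  · rw [dif_pos h0]
    have h : ∀ j : Fin n, (((if j.val = i.val ∨ j.val = i.val + 1 then 1 else 0 : ℕ)) : ℝ) * X j =
        (if j = i then X j else 0) + (if j = ⟨i.val + 1, h0⟩ then X j else 0) := by
      intro j
      by_cases h1 : j = i
      · subst h1
        have : ¬ j = ⟨j.val + 1, h0⟩ := by
          intro h; have := congrArg Fin.val h; simp only at this; omega
        rw [if_neg this]; simp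
      · have h1' : j.val ≠ i.val := fun h => h1 (Fin.ext h)
        rw [if_neg h1, zero_add]
        by_cases h2 : j.val = i.val + 1
        · have : j = ⟨i.val + 1, h0⟩ := Fin.ext h2
          rw [if_pos (Or.inr h2), if_pos this]; simp
        · have : ¬ j = ⟨i.val + 1, h0⟩ := fun h => h2 (congrArg Fin.val h)
          rw [if_neg (by rintro (h | h) <;> omega), if_neg this]; simp
    rw [Finset.sum_congr rfl fun j _ => h j, Finset.sum_add_distrib, Finset.sum_ite_eq', Finset.sum_ite_eq']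
    simp
  · rw [dif_neg h0]
    have h : ∀ j : Fin n, (((if j.val = i.val ∨ j.val = i.val + 1 then 1 else 0 : ℕ)) : ℝ) * X j =
        (if j = i then X j else 0) := by
      intro j
      have := j.2
      by_cases h1 : j = i
      · subst h1; simp
      · have h1' : j.val ≠ i.val := fun h => h1 (Fin.ext h)
        rw [if_neg h1, if_neg (by rintro (h | h) <;> omega)]; simp
    rw [Finset.sum_congr rfl fun j _ => h j, Finset.sum_ite_eq']
    simp

theorem sumB {n : ℕ} (i : Fin n) (X : Rg n → ℝ) :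
    ∑ q, (Mm (Sum.inl i) q : ℝ) * X q = X (Sum.inr (Sum.inl i)) + (X (Sum.inr (Sum.inr i)) +
      (if 0 < i.val then X (Sum.inr (Sum.inr ⟨i.val - 1, lt_of_le_of_lt (Nat.sub_le _ _) i.2⟩)) else 0)) := by
  rw [Fintype.sum_sum_type, Fintype.sum_sum_type]
  simp only [Mm]
  rw [sum_two i (fun j => X (Sum.inr (Sum.inr j)))]
  have h1 : ∑ j : Fin n, (((if j = i then 1 else 0 : ℕ)) : ℝ) * X (Sum.inr (Sum.inl j)) =
      X (Sum.inr (Sum.inl i)) := by
    simp
  rw [h1]
  simp

theorem sumC {n : ℕ} (i : Fin n) (X : Rg n → ℝ) :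
    ∑ q, (Mm (Sum.inr (Sum.inl i)) q : ℝ) * X q = X (Sum.inl i) := by
  rw [Fintype.sum_sum_type, Fintype.sum_sum_type]
  simp [Mm]

theorem sumA {n : ℕ} (i : Fin n) (X : Rg n → ℝ) :
    ∑ q, (Mm (Sum.inr (Sum.inr i)) q : ℝ) * X q = X (Sum.inl i) +
      (if h : i.val + 1 < n then X (Sum.inl ⟨i.val + 1, h⟩) else 0) := by
  rw [Fintype.sum_sum_type, Fintype.sum_sum_type]
  simp only [Mm]
  rw [sum_two' i (fun j => X (Sum.inl j))]
  simp

/-- the system -/
def FF {n : ℕ} (p : Rg n) (r : Rg n → ℝ) : ℝ :=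
  (ee p : ℝ) - ∑ q, (Mm p q : ℝ) * K (r p) (r q) - (ww p : ℝ) * K (r p) 20

theorem FF_cont {n : ℕ} {lo : ℝ} (hlo : 0 < lo) (p : Rg n) :
    ContinuousOn (FF p) (Set.pi Set.univ (fun _ => Set.Icc lo 10)) := by
  have hp : ∀ r ∈ Set.pi Set.univ (fun _ : Rg n => Set.Icc lo 10), 0 < r p :=
    fun r hr => lt_of_lt_of_le hlo (hr p (Set.mem_univ p)).1
  have hev : ∀ q : Rg n, ContinuousOn (fun r : Rg n → ℝ => r q)
      (Set.pi Set.univ (fun _ => Set.Icc lo 10)) := fun q => (continuous_apply q).continuousOn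
  unfold FF
  apply ContinuousOn.sub
  · apply ContinuousOn.sub continuousOn_const
    refine continuousOn_finsetSum _ fun q _ => ?_
    exact ContinuousOn.mul continuousOn_const (K_cont (hev p) (hev q) hp)
  · exact ContinuousOn.mul continuousOn_const (K_cont (hev p) continuousOn_const hp)

theorem FF_mono {n : ℕ} {lo : ℝ} (hlo : 0 < lo) : ∀ p j : Rg n, j ≠ p →
    ∀ r ∈ Set.pi Set.univ (fun _ : Rg n => Set.Icc lo 10), ∀ t, r j ≤ t → t ≤ 10 →
      FF p r ≤ FF p (Function.update r j t) := by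
  intro p j hj r hr t h1 _
  have e : Function.update r j t p = r p := Function.update_of_ne (Ne.symm hj) _ _
  have hpos : ∀ q, 0 < r q := fun q => lt_of_lt_of_le hlo (hr q (Set.mem_univ q)).1
  unfold FF
  rw [e]
  have : ∑ q, (Mm p q : ℝ) * K (r p) (Function.update r j t q) ≤ ∑ q, (Mm p q : ℝ) * K (r p) (r q) := by
    refine Finset.sum_le_sum fun q _ => mul_le_mul_of_nonneg_left ?_ (Nat.cast_nonneg _)
    by_cases hq : q = j
    · subst hq
      rw [Function.update_self]
      exact K_anti' (hpos p) (hpos q) h1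
    · rw [Function.update_of_ne hq]
  linarith

theorem FF_hi {n : ℕ} {lo : ℝ} (hlo : 0 < lo) : ∀ p : Rg n,
    ∀ r ∈ Set.pi Set.univ (fun _ : Rg n => Set.Icc lo 10), r p = 10 → FF p r < 0 := by
  intro p r hr hp
  have h20 : K 10 20 = 0 := by unfold K; norm_num
  have h1 : ∑ q, (Mm p q : ℝ) * 1 ≤ ∑ q, (Mm p q : ℝ) * K (r p) (r q) := by
    refine Finset.sum_le_sum fun q _ => mul_le_mul_of_nonneg_left ?_ (Nat.cast_nonneg _)
    rw [hp]
    exact K_ge_one (lt_of_lt_of_le hlo (hr q (Set.mem_univ q)).1) (hr q (Set.mem_univ q)).2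
  have h2 : (ee p : ℝ) + 1 ≤ ∑ q, (Mm p q : ℝ) * 1 := by
    rcases p with i | i | i
    · rw [sumB i (fun _ => 1)]
      simp only [ee]
      split_ifs <;> norm_num
    · rw [sumC i (fun _ => 1)]
      simp [ee]
    · rw [sumA i (fun _ => 1)]
      simp only [ee]
      split_ifs <;> norm_num
  unfold FF
  rw [hp, h20, mul_zero, sub_zero]
  rw [hp] at h1
  linarith

/-- ratios of the subsolution -/
def zz (n k : ℕ) : ℝ := xr (2 * n) k
def bet (n : ℕ) : ℝ := zz n 0 ^ 6 / 256
def sb (n i : ℕ) : ℝ := bet n * rho (2 * n) (2 * i)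
def sa (n i : ℕ) : ℝ := bet n * rho (2 * n) (2 * i + 1)
def sc (n i : ℕ) : ℝ := 8 * sb n i / zz n (2 * i) ^ 2

def sub {n : ℕ} : Rg n → ℝ
  | Sum.inl i => sb n i.val
  | Sum.inr (Sum.inl i) => sc n i.val
  | Sum.inr (Sum.inr i) => sa n i.val

theorem zz_pos (n k : ℕ) : 0 < zz n k := xr_pos _ _
theorem zz_le (n k : ℕ) : zz n k ≤ 1 := xr_le _ _
theorem zz_rec {n k : ℕ} (h : k + 1 < 2 * n) : zz n (k + 1) ^ 2 = 8 * zz n k := xr_rec h
theorem zz_mono (n : ℕ) : Monotone (zz n) := by
  intro i j hij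
  unfold zz xr
  apply pow_le_pow_of_le_one (by norm_num) (by norm_num)
  have : 2 ^ (2 * n - 1 - j) ≤ 2 ^ (2 * n - 1 - i) := Nat.pow_le_pow_right (by norm_num) (by omega)
  omega
theorem zz_eighth {n k : ℕ} (h : k + 1 < 2 * n) : zz n k ≤ 1 / 8 := by
  have h1 := zz_rec h
  have h2 := zz_le n (k + 1)
  have h3 := zz_pos n (k + 1)
  nlinarith
theorem bet_pos (n : ℕ) : 0 < bet n := by
  unfold bet; have := zz_pos n 0; positivity
theorem bet_le (n k : ℕ) : bet n ≤ zz n k ^ 6 / 256 := by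
  unfold bet
  have h := pow_le_pow_left₀ (zz_pos n 0).le (zz_mono n (Nat.zero_le k)) 6
  linarith
theorem sb_pos (n i : ℕ) : 0 < sb n i := mul_pos (bet_pos n) (rho_pos _ _)
theorem sa_pos (n i : ℕ) : 0 < sa n i := mul_pos (bet_pos n) (rho_pos _ _)
theorem sc_pos (n i : ℕ) : 0 < sc n i := by
  unfold sc; have := zz_pos n (2 * i); have := sb_pos n i; positivity
theorem sa_eq (n i : ℕ) : sa n i = sb n i * zz n (2 * i) := by
  unfold sa sb zz
  rw [rho_succ]; ring
theorem sb_succ (n i : ℕ) : sb n (i + 1) = sa n i * zz n (2 * i + 1) := by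
  unfold sa sb zz
  have e : 2 * (i + 1) = 2 * i + 1 + 1 := by ring
  rw [e, rho_succ]; ring
theorem sb_le (n i : ℕ) : sb n i ≤ bet n := mul_le_of_le_one_right (bet_pos n).le (rho_le _ _)
theorem sb_eq (n i : ℕ) : sb n i = sc n i * (zz n (2 * i) ^ 2 / 8) := by
  unfold sc; have := zz_pos n (2 * i); field_simp
theorem sc_le (n i : ℕ) : sc n i ≤ zz n (2 * i) ^ 4 / 32 := by
  unfold sc
  have h := zz_pos n (2 * i)
  rw [div_le_iff₀ (by positivity)]
  have h1 := (sb_le n i).trans (bet_le n (2 * i))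
  calc 8 * sb n i ≤ 8 * (zz n (2 * i) ^ 6 / 256) := by linarith
    _ = _ := by ring

theorem bc_upper (n i : ℕ) : K (sb n i) (sc n i) ≤ zz n (2 * i) ^ 2 / 4 - 1 := by
  have hz := zz_pos n (2 * i)
  have hz1 := zz_le n (2 * i)
  have h := K_outer_upper (sc_pos n i) (y := zz n (2 * i) ^ 2 / 8) (by positivity) (by nlinarith)
  rw [← sb_eq] at h
  linarith

theorem ba_upper (n i : ℕ) : K (sb n i) (sa n i) ≤ 2 - zz n (2 * i) ^ 2 / 2 := by
  rw [sa_eq]
  exact K_upper (sb_pos n i) (zz_pos _ _) (zz_le _ _)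

theorem ab_upper {n i : ℕ} (h : 2 * i + 1 < 2 * n) : K (sa n i) (sb n i) ≤ 2 * zz n (2 * i) - 1 := by
  rw [sa_eq]
  have := zz_eighth h
  exact K_outer_upper (sb_pos n i) (zz_pos _ _) (by linarith)

theorem a20_upper (n i : ℕ) : K (sa n i) 20 ≤ sa n i / 10 - 1 := by
  have h1 := sa_pos n i
  have h2 : sa n i ≤ 1 := by
    rw [sa_eq]
    have a1 := sb_le n i
    have a2 := bet_le n (2 * i)
    have a3 := zz_le n (2 * i)
    have a4 := zz_pos n (2 * i)
    have a5 : zz n (2 * i) ^ 6 ≤ 1 := pow_le_one₀ a4.le a3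
    have a6 := sb_pos n i
    nlinarith
  have h := K_outer_upper (show (0:ℝ) < 20 by norm_num) (y := sa n i / 20) (by positivity) (by linarith)
  rw [mul_div_cancel₀ _ (by norm_num : (20:ℝ) ≠ 0)] at h
  linarith

theorem sub_ok {n : ℕ} (p : Rg n) : 0 ≤ FF p sub := by
  unfold FF
  rcases p with i | i | i
  · rw [sumB i (fun q => K (sub (Sum.inl i)) (sub q))]
    simp only [ww, ee, sub]
    have hi := i.2
    have k1 := bc_upper n i.val
    have k2 := ba_upper n i.val
    have hz := zz_pos n (2 * i.val)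
    by_cases h0 : i.val = 0
    · rw [if_pos h0, if_neg (by omega)]
      push_cast
      nlinarith
    · rw [if_neg h0, if_pos (by omega)]
      obtain ⟨k, hk⟩ : ∃ k, i.val = k + 1 := ⟨i.val - 1, by omega⟩
      have e : i.val - 1 = k := by omega
      rw [e]
      have h3 : K (sb n i.val) (sa n k) ≤ 2 * zz n (2 * k + 1) - 1 := by
        rw [hk, sb_succ]
        have := zz_eighth (n := n) (k := 2 * k + 1) (by omega)
        exact K_outer_upper (sa_pos n k) (zz_pos _ _) (by linarith)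
      have h4 := zz_rec (n := n) (k := 2 * k + 1) (by omega)
      have e2 : 2 * i.val = 2 * k + 1 + 1 := by omega
      rw [← e2] at h4
      push_cast
      linarith
  · rw [sumC i (fun q => K (sub (Sum.inr (Sum.inl i))) (sub q))]
    simp only [ww, ee, sub]
    have hz := zz_pos n (2 * i.val)
    have hz1 := zz_le n (2 * i.val)
    have hc := sc_pos n i.val
    have hcl := sc_le n i.val
    have k1 : K (sc n i.val) (sb n i.val) ≤ 2 - (zz n (2 * i.val) ^ 2 / 8) ^ 2 / 2 := by
      conv_lhs => rw [sb_eq]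
      exact K_upper hc (by positivity) (by nlinarith)
    have hz4 : zz n (2 * i.val) ^ 4 ≤ 1 := pow_le_one₀ hz.le hz1
    have k2 := K_outer_upper (show (0:ℝ) < 20 by norm_num) (y := sc n i.val / 20) (by positivity)
      (by linarith)
    rw [mul_div_cancel₀ _ (by norm_num : (20:ℝ) ≠ 0)] at k2
    have e : (zz n (2 * i.val) ^ 2 / 8) ^ 2 = zz n (2 * i.val) ^ 4 / 64 := by ring
    rw [e] at k1
    have hp : 0 < zz n (2 * i.val) ^ 4 := by positivity
    push_cast
    linarith
  · rw [sumA i (fun q => K (sub (Sum.inr (Sum.inr i))) (sub q))]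
    simp only [ww, ee, sub]
    have hi := i.2
    have k1 := ab_upper (n := n) (i := i.val) (by omega)
    have k2 := a20_upper n i.val
    have hz := zz_pos n (2 * i.val)
    have hz8 := zz_eighth (n := n) (k := 2 * i.val) (by omega)
    have hsa : sa n i.val ≤ zz n (2 * i.val) := by
      rw [sa_eq]
      have a1 := sb_le n i.val
      have a2 := bet_le n (2 * i.val)
      have a5 : zz n (2 * i.val) ^ 6 ≤ 1 := pow_le_one₀ hz.le (zz_le _ _)
      have a6 := sb_pos n i.val
      nlinarith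
    by_cases h0 : i.val + 1 < n
    · rw [dif_pos h0]
      have h3 : K (sa n i.val) (sb n (i.val + 1)) ≤ 2 - zz n (2 * i.val + 1) ^ 2 / 2 := by
        rw [sb_succ]
        exact K_upper (sa_pos n i.val) (zz_pos _ _) (zz_le _ _)
      have h4 := zz_rec (n := n) (k := 2 * i.val) (by omega)
      push_cast
      linarith
    · rw [dif_neg h0]
      push_cast
      linarith

theorem exists_sol (n : ℕ) : ∃ r : Rg n → ℝ, (∀ p, 0 < r p ∧ r p ≤ 10) ∧
    ∀ p, ∑ q, (Mm p q : ℝ) * K (r p) (r q) + (ww p : ℝ) * K (r p) 20 = ee p := by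
  have hpos : ∀ p : Rg n, 0 < sub p := by
    rintro (i | i | i)
    · exact sb_pos _ _
    · exact sc_pos _ _
    · exact sa_pos _ _
  have hle : ∀ p : Rg n, sub p ≤ 10 := by
    have hz1 : ∀ k, zz n k ^ 6 ≤ 1 := fun k => pow_le_one₀ (zz_pos _ _).le (zz_le _ _)
    have hz4 : ∀ k, zz n k ^ 4 ≤ 1 := fun k => pow_le_one₀ (zz_pos _ _).le (zz_le _ _)
    have hb : ∀ i, sb n i ≤ 1 := fun i => by
      have := sb_le n i; have := bet_le n 0; have := hz1 0; linarith
    rintro (i | i | i)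
    · exact (hb _).trans (by norm_num)
    · have := sc_le n i.val; have := hz4 (2 * i.val)
      change sc n i.val ≤ 10
      linarith
    · change sa n i.val ≤ 10
      rw [sa_eq]
      have := hb i.val; have := zz_le n (2 * i.val); have := zz_pos n (2 * i.val)
      have := sb_pos n i.val
      nlinarith
  obtain ⟨lo, hlo, hlo'⟩ : ∃ lo : ℝ, 0 < lo ∧ ∀ p : Rg n, lo ≤ sub p := by
    by_cases hn : Nonempty (Rg n)
    · obtain ⟨p0, hp0⟩ := Finite.exists_min (sub : Rg n → ℝ)
      exact ⟨sub p0, hpos p0, hp0⟩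
    · exact ⟨1, one_pos, fun p => absurd ⟨p⟩ hn⟩
  obtain ⟨r, hr, h⟩ := exists_zero lo 10 (FF (n := n)) sub (fun p => ⟨hlo' p, hle p⟩)
    (FF_cont hlo) (FF_mono hlo) sub_ok (FF_hi hlo)
  refine ⟨r, fun p => ⟨lt_of_lt_of_le hlo (hr p (Set.mem_univ p)).1, (hr p (Set.mem_univ p)).2⟩, fun p => ?_⟩
  have := h p
  unfold FF at this
  linarith

end Pool.Agent.Y393.Net2
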