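import Pool.Agent.Y393.Net3T
import Pool.Agent.Y393.Net2S

noncomputable section
open scoped Classical

namespace Pool.Agent.Y393.Net2

open Pool.Agent.Helper544.Planar
open Pool.Agent.Y393.Net3T (u u_sum' u_ne_zero comb_ne comb_eq norm_comb indep2 fin3_ne)

/-- signed version of the pull -/
def HH (r s : ℝ) : ℝ := (2 * r + s) / Real.sqrt (r ^ 2 + r * s + s ^ 2)

theorem HH_pos {r s : ℝ} : HH r (-s) = K r s := by
  unfold HH K
  congr 1
  congr 1
  ring

theorem HH_neg {b a : ℝ} : HH (-b) a = -K b a := by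
  unfold HH K
  have e : (-b) ^ 2 + -b * a + a ^ 2 = b ^ 2 - b * a + a ^ 2 := by ring
  rw [e, ← neg_div]
  congr 1
  ring

theorem fin_a (j k l : Fin 3) (h1 : j ≠ k) (h2 : l ≠ j) (h3 : l ≠ k) :
    (j = l + 1 ∧ k = l + 2) ∨ (j = l + 2 ∧ k = l + 1) := by
  revert h1 h2 h3; revert j k l; decide

theorem fin_b (j k j' k' : Fin 3) (h : j ≠ k) (h' : j' ≠ k') :
    (j' = j ∧ k' = k) ∨ (j' = j ∧ k' ≠ j ∧ k' ≠ k) ∨ (k' = k ∧ j' ≠ j ∧ j' ≠ k) ∨
      (j' = k ∧ k' = j) ∨ (j' = k ∧ k' ≠ j ∧ k' ≠ k) ∨ (k' = j ∧ j' ≠ j ∧ j' ≠ k) := by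
  revert h h'; revert j k j' k'; decide

theorem fin_c (j : Fin 3) : j + 2 + 1 = j := by revert j; decide

/-- closed sector between the rays `u j` and `-u k`, line with coefficients `α, β` -/
def On (j k : Fin 3) (α β : ℝ) (z : ℂ) : Prop :=
  ∃ X Y : ℝ, 0 ≤ X ∧ 0 ≤ Y ∧ α * X + β * Y = 1 ∧ z = (X : ℂ) * u j - (Y : ℂ) * u k

/-- open ray `-u k` -/
def Ax (k : Fin 3) (z : ℂ) : Prop := ∃ Y : ℝ, 0 < Y ∧ z = -(Y : ℂ) * u k

theorem ind {j k : Fin 3} (h : j ≠ k) {a b a' b' : ℝ}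
    (e : (a : ℂ) * u j + (b : ℂ) * u k = (a' : ℂ) * u j + (b' : ℂ) * u k) : a = a' ∧ b = b' := by
  have h1 : ((a - a' : ℝ) : ℂ) * u j = ((b' - b : ℝ) : ℂ) * u k := by
    push_cast; linear_combination e
  have := comb_ne h h1
  constructor <;> linarith [this.1, this.2]

theorem third {j k l : Fin 3} (h1 : j ≠ k) (h2 : l ≠ j) (h3 : l ≠ k) : u l = -u j - u k := by
  have e := u_sum' l
  have hc := fin_a j k l h1 h2 h3
  rcases hc with ⟨rfl, rfl⟩ | ⟨rfl, rfl⟩
  · exact e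
  · rw [e]; ring

theorem On_ne {j k : Fin 3} (h : j ≠ k) {α β : ℝ} {z : ℂ} (hz : On j k α β z) : z ≠ 0 := by
  obtain ⟨X, Y, _, _, h1, h2⟩ := hz
  rintro rfl
  have := ind h (a := X) (b := -Y) (a' := 0) (b' := 0) (by push_cast; linear_combination -h2)
  rw [this.1, show Y = 0 by linarith [this.2]] at h1
  simp at h1

/-- sectors sharing the ray `u j` -/
theorem key1 {j k l : Fin 3} (hjk : j ≠ k) (hjl : l ≠ j) (hkl : l ≠ k) {α β α' β' : ℝ} {z : ℂ}
    (h : On j k α β z) (h' : On j l α' β' z) : ∃ X : ℝ, α * X = 1 ∧ z = (X : ℂ) * u j := by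
  obtain ⟨X, Y, hX, hY, h1, h2⟩ := h
  obtain ⟨X', Y', hX', hY', _, h4⟩ := h'
  rw [third hjk hjl hkl] at h4
  have := ind hjk (a := X) (b := -Y) (a' := X' + Y') (b' := Y') (by
    push_cast; linear_combination -h2 + h4)
  have hY0 : Y = 0 := by linarith [this.2]
  refine ⟨X, by rw [hY0] at h1; linarith, by rw [h2, hY0]; simp⟩

/-- sectors sharing the ray `-u k` -/
theorem key2 {j k l : Fin 3} (hjk : j ≠ k) (hjl : l ≠ j) (hkl : l ≠ k) {α β α' β' : ℝ} {z : ℂ}
    (h : On j k α β z) (h' : On l k α' β' z) : ∃ Y : ℝ, β * Y = 1 ∧ z = -(Y : ℂ) * u k := by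
  obtain ⟨X, Y, hX, hY, h1, h2⟩ := h
  obtain ⟨X', Y', hX', hY', _, h4⟩ := h'
  rw [third hjk hjl hkl] at h4
  have := ind hjk (a := X) (b := -Y) (a' := -X') (b' := -X' - Y') (by
    push_cast; linear_combination -h2 + h4)
  have hX0 : X = 0 := by linarith [this.1]
  refine ⟨Y, by rw [hX0] at h1; linarith, by rw [h2, hX0]; simp⟩

theorem key3 {j k : Fin 3} (hjk : j ≠ k) {α β α' β' : ℝ} {z : ℂ}
    (h : On j k α β z) (h' : On k j α' β' z) : False := by
  obtain ⟨X, Y, hX, hY, h1, h2⟩ := h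
  obtain ⟨X', Y', hX', hY', _, h4⟩ := h'
  have := ind hjk (a := X) (b := -Y) (a' := -Y') (b' := X') (by
    push_cast; linear_combination -h2 + h4)
  have hX0 : X = 0 := by linarith [this.1]
  have hY0 : Y = 0 := by linarith [this.2]
  rw [hX0, hY0] at h1; simp at h1

theorem key4 {j k l : Fin 3} (hjk : j ≠ k) (hjl : l ≠ j) (hkl : l ≠ k) {α β α' β' : ℝ} {z : ℂ}
    (h : On j k α β z) (h' : On k l α' β' z) : False := by
  obtain ⟨X, Y, hX, hY, h1, h2⟩ := h
  obtain ⟨X', Y', hX', hY', _, h4⟩ := h'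
  rw [third hjk hjl hkl] at h4
  have := ind hjk (a := X) (b := -Y) (a' := Y') (b' := X' + Y') (by
    push_cast; linear_combination -h2 + h4)
  have hY0 : Y = 0 := by linarith [this.2]
  have hY0' : Y' = 0 := by linarith [this.2]
  have hX0 : X = 0 := by linarith [this.1]
  rw [hX0, hY0] at h1; simp at h1

theorem key5 {j k l : Fin 3} (hjk : j ≠ k) (hjl : l ≠ j) (hkl : l ≠ k) {α β α' β' : ℝ} {z : ℂ}
    (h : On j k α β z) (h' : On l j α' β' z) : False := by
  obtain ⟨X, Y, hX, hY, h1, h2⟩ := h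
  obtain ⟨X', Y', hX', hY', _, h4⟩ := h'
  rw [third hjk hjl hkl] at h4
  have := ind hjk (a := X) (b := -Y) (a' := -X' - Y') (b' := -X') (by
    push_cast; linear_combination -h2 + h4)
  have hX0 : X = 0 := by linarith [this.1]
  have hX0' : X' = 0 := by linarith [this.1]
  have hY0 : Y = 0 := by linarith [this.2]
  rw [hX0, hY0] at h1; simp at h1

theorem On_eq {j k j' k' : Fin 3} (hjk : j ≠ k) (hjk' : j' ≠ k') {α β α' β' : ℝ} {p q : ℂ}
    (hpq : p ≠ q) (hp : On j k α β p) (hp' : On j' k' α' β' p) (hq : On j k α β q)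
    (hq' : On j' k' α' β' q) : j = j' ∧ k = k' ∧ α = α' ∧ β = β' := by
  have hcase := fin_b j k j' k' hjk hjk'
  rcases hcase with ⟨rfl, rfl⟩ | ⟨rfl, h1, h2⟩ | ⟨rfl, h1, h2⟩ | ⟨rfl, rfl⟩ | ⟨rfl, h1, h2⟩ | ⟨rfl, h1, h2⟩
  · refine ⟨rfl, rfl, ?_⟩
    obtain ⟨X, Y, _, _, h1, h2⟩ := hp
    obtain ⟨X', Y', _, _, h3, h4⟩ := hp'
    obtain ⟨Z, T, _, _, h5, h6⟩ := hq
    obtain ⟨Z', T', _, _, h7, h8⟩ := hq'
    obtain ⟨rfl, hY⟩ := ind hjk (a := X) (b := -Y) (a' := X') (b' := -Y') (by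
      push_cast; linear_combination -h2 + h4)
    obtain ⟨rfl, hT⟩ := ind hjk (a := Z) (b := -T) (a' := Z') (b' := -T') (by
      push_cast; linear_combination -h6 + h8)
    obtain rfl : Y = Y' := by linarith
    obtain rfl : T = T' := by linarith
    have e1 : X - Z = β * (X * T - Z * Y) := by linear_combination (-X) * h5 + Z * h1
    have e2 : T - Y = α * (X * T - Z * Y) := by linear_combination (-T) * h1 + Y * h5
    have e3 : X - Z = β' * (X * T - Z * Y) := by linear_combination (-X) * h7 + Z * h3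
    have e4 : T - Y = α' * (X * T - Z * Y) := by linear_combination (-T) * h3 + Y * h7
    by_cases hd : X * T - Z * Y = 0
    · exfalso
      rw [hd] at e1 e2
      have hX : X = Z := by linarith
      have hY : Y = T := by linarith
      apply hpq
      rw [h2, h6, hX, hY]
    · constructor
      · apply mul_right_cancel₀ hd; linarith
      · apply mul_right_cancel₀ hd; linarith
  · exfalso
    obtain ⟨X, a1, a2⟩ := key1 hjk h1 h2 hp hp'
    obtain ⟨X', a3, a4⟩ := key1 hjk h1 h2 hq hq'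
    have hα : α ≠ 0 := by intro h; rw [h] at a1; simp at a1
    have : X = X' := by apply mul_left_cancel₀ hα; linarith
    exact hpq (by rw [a2, a4, this])
  · exfalso
    obtain ⟨X, a1, a2⟩ := key2 hjk h1 h2 hp hp'
    obtain ⟨X', a3, a4⟩ := key2 hjk h1 h2 hq hq'
    have hβ : β ≠ 0 := by intro h; rw [h] at a1; simp at a1
    have : X = X' := by apply mul_left_cancel₀ hβ; linarith
    exact hpq (by rw [a2, a4, this])
  · exact absurd (key3 hjk hp hp') id
  · exact absurd (key4 hjk h1 h2 hp hp') id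
  · exact absurd (key5 hjk h1 h2 hp hp') id

/-- a sector line meets an axis in at most one point -/
theorem On_Ax {j k l : Fin 3} (hjk : j ≠ k) {α β : ℝ} {p q : ℂ}
    (hp : On j k α β p) (hp' : Ax l p) (hq : On j k α β q) (hq' : Ax l q) : p = q := by
  have key : ∀ z, On j k α β z → Ax l z → ∃ Y : ℝ, β * Y = 1 ∧ z = -(Y : ℂ) * u l := by
    rintro z ⟨X, Y, hX, hY, h1, h2⟩ ⟨T, hT, h3⟩
    by_cases hlk : l = k
    · subst hlk
      have := ind hjk (a := X) (b := -Y) (a' := 0) (b' := -T) (by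
        push_cast; linear_combination -h2 + h3)
      have hTY : T = Y := by linarith [this.2]
      refine ⟨Y, by rw [this.1] at h1; linarith, by rw [h3, hTY]⟩
    · exfalso
      by_cases hlj : l = j
      · subst hlj
        have := ind hjk (a := X) (b := -Y) (a' := -T) (b' := 0) (by
          push_cast; linear_combination -h2 + h3)
        linarith [this.1]
      · rw [third hjk hlj hlk] at h3
        have := ind hjk (a := X) (b := -Y) (a' := T) (b' := T) (by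
          push_cast; linear_combination -h2 + h3)
        linarith [this.2]
  obtain ⟨Y, h1, h2⟩ := key p hp hp'
  obtain ⟨Y', h3, h4⟩ := key q hq hq'
  have hβ : β ≠ 0 := by intro h; rw [h] at h1; simp at h1
  have : Y = Y' := by apply mul_left_cancel₀ hβ; linarith
  rw [h2, h4, this]

theorem Ax_Ax {k l : Fin 3} {z : ℂ} (h : Ax k z) (h' : Ax l z) : k = l := by
  obtain ⟨Y, hY, h1⟩ := h
  obtain ⟨T, hT, h2⟩ := h'
  by_contra hkl
  have := comb_ne hkl (a := Y) (b := T) (by linear_combination h1 - h2)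
  linarith [this.1]

theorem On_seg {j k : Fin 3} {α β : ℝ} {a b z : ℂ} (ha : On j k α β a) (hb : On j k α β b)
    (hz : z ∈ segment ℝ a b) : On j k α β z := by
  obtain ⟨X, Y, hX, hY, h1, rfl⟩ := ha
  obtain ⟨X', Y', hX', hY', h2, rfl⟩ := hb
  obtain ⟨s, h0, hs1, rfl⟩ := mem_seg.1 hz
  have h1s : 0 ≤ 1 - s := by linarith
  refine ⟨(1 - s) * X + s * X', (1 - s) * Y + s * Y', by positivity, by positivity, ?_, ?_⟩
  · linear_combination (1 - s) * h1 + s * h2
  · simp only [pt]; push_cast; ring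

theorem Ax_seg {k : Fin 3} {a b z : ℂ} (ha : Ax k a) (hb : Ax k b) (hz : z ∈ segment ℝ a b) : Ax k z := by
  obtain ⟨Y, hY, rfl⟩ := ha
  obtain ⟨Y', hY', rfl⟩ := hb
  obtain ⟨s, h0, hs1, rfl⟩ := mem_seg.1 hz
  have h1s : 0 ≤ 1 - s := by linarith
  refine ⟨(1 - s) * Y + s * Y', ?_, ?_⟩
  · rcases h0.lt_or_eq with h | h
    · have := mul_pos h hY'
      have := mul_nonneg h1s hY.le
      linarith
    · rw [← h]; simpa using hY
  · simp only [pt]; push_cast; ring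

theorem pair_uv (j : Fin 3) {r s : ℝ} (hQ : 0 < r ^ 2 + r * s + s ^ 2) :
    uv ((r : ℂ) * u j) ((s : ℂ) * u (j + 1)) + uv ((r : ℂ) * u j) ((s : ℂ) * u (j + 2)) =
      -(HH r s : ℂ) * u j := by
  have hS : 0 < Real.sqrt (r ^ 2 + r * s + s ^ 2) := Real.sqrt_pos.2 hQ
  have n1 : ‖(s : ℂ) * u (j + 1) - (r : ℂ) * u j‖ = Real.sqrt (r ^ 2 + r * s + s ^ 2) := by
    have e : (s : ℂ) * u (j + 1) - (r : ℂ) * u j = ((r + s : ℝ) : ℂ) * u (j + 1) + ((r : ℝ) : ℂ) * u (j + 2) := by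
      rw [u_sum' j]; push_cast; ring
    rw [e, norm_comb]; congr 1; ring
  have n2 : ‖(s : ℂ) * u (j + 2) - (r : ℂ) * u j‖ = Real.sqrt (r ^ 2 + r * s + s ^ 2) := by
    have e : (s : ℂ) * u (j + 2) - (r : ℂ) * u j = ((r : ℝ) : ℂ) * u (j + 1) + ((r + s : ℝ) : ℂ) * u (j + 2) := by
      rw [u_sum' j]; push_cast; ring
    rw [e, norm_comb]; congr 1; ring
  unfold uv
  rw [n1, n2, ← add_div]
  unfold HH
  have hSc : (Real.sqrt (r ^ 2 + r * s + s ^ 2) : ℂ) ≠ 0 := by exact_mod_cast hS.ne'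
  rw [div_eq_iff hSc]
  have e : (((2 * r + s) / Real.sqrt (r ^ 2 + r * s + s ^ 2) : ℝ) : ℂ) * (Real.sqrt (r ^ 2 + r * s + s ^ 2) : ℂ) =
      2 * (r : ℂ) + (s : ℂ) := by
    rw [← Complex.ofReal_mul, div_mul_cancel₀ _ hS.ne']; push_cast; ring
  rw [mul_right_comm, neg_mul, e, u_sum' j]; ring

theorem u_norm (j : Fin 3) : ‖u j‖ = 1 := by
  have h := norm_comb (j + 2) 1 0
  have e : j + 2 + 1 = j := fin_c j
  rw [e] at h
  simpa using h

theorem axis_uv (j : Fin 3) {r s : ℝ} : uv ((r : ℂ) * u j) ((s : ℂ) * u j) =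
    (((s - r) / |s - r| : ℝ) : ℂ) * u j := by
  unfold uv
  have e : (s : ℂ) * u j - (r : ℂ) * u j = ((s - r : ℝ) : ℂ) * u j := by push_cast; ring
  rw [e, norm_mul, u_norm, mul_one, Complex.norm_real, Real.norm_eq_abs]
  push_cast
  ring

end Pool.Agent.Y393.Net2
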