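import Mathlib

noncomputable section
open scoped Classical

namespace Pool.Agent.Y393.Net2

/-- A monotone system on a box has a zero. -/
theorem exists_zero {ι : Type} [Fintype ι] [DecidableEq ι] (lo hi : ℝ) (F : ι → (ι → ℝ) → ℝ) (ρ : ι → ℝ)
    (hρ : ∀ i, lo ≤ ρ i ∧ ρ i ≤ hi)
    (hcont : ∀ i, ContinuousOn (F i) (Set.pi Set.univ (fun _ => Set.Icc lo hi)))
    (hmono : ∀ i j, j ≠ i → ∀ r ∈ Set.pi Set.univ (fun _ : ι => Set.Icc lo hi), ∀ t, r j ≤ t → t ≤ hi →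
      F i r ≤ F i (Function.update r j t))
    (hlo : ∀ i, 0 ≤ F i ρ)
    (hhi : ∀ i, ∀ r ∈ Set.pi Set.univ (fun _ : ι => Set.Icc lo hi), r i = hi → F i r < 0) :
    ∃ r ∈ Set.pi Set.univ (fun _ : ι => Set.Icc lo hi), ∀ i, F i r = 0 := by
  set B : Set (ι → ℝ) := Set.pi Set.univ (fun _ => Set.Icc lo hi) with hB
  have hBc : IsCompact B := isCompact_univ_pi fun _ => isCompact_Icc
  have hBcl : IsClosed B := hBc.isClosed
  let P : Set (ι → ℝ) := B ∩ ⋂ i, (B ∩ (F i) ⁻¹' Set.Ici 0)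
  have hPcl : IsClosed P := by
    refine hBcl.inter (isClosed_iInter fun i => ?_)
    exact (hcont i).preimage_isClosed_of_isClosed hBcl isClosed_Ici
  have hPc : IsCompact P := hBc.of_isClosed_subset hPcl Set.inter_subset_left
  have hlomem : ρ ∈ B := by
    intro i _
    exact hρ i
  have hPne : P.Nonempty := by
    refine ⟨ρ, hlomem, ?_⟩
    rw [Set.mem_iInter]
    intro i
    exact ⟨hlomem, hlo i⟩
  have hS : Continuous (fun r : ι → ℝ => ∑ i, r i) := by fun_prop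
  obtain ⟨r, hrP, hmax⟩ := hPc.exists_isMaxOn hPne hS.continuousOn
  have hrB : r ∈ B := hrP.1
  have hrF : ∀ i, 0 ≤ F i r := by
    intro i
    have := hrP.2
    rw [Set.mem_iInter] at this
    exact (this i).2
  refine ⟨r, hrB, fun i => ?_⟩
  by_contra hne
  have hpos : 0 < F i r := lt_of_le_of_ne (hrF i) (Ne.symm hne)
  have hri := hrB i (Set.mem_univ i)
  have hlt : r i < hi := by
    rcases hri.2.lt_or_eq with h | h
    · exact h
    · exact absurd (hhi i r hrB h) (not_lt.2 (hrF i))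
  have hg : Continuous (fun t : ℝ => Function.update r i t) := by
    exact continuous_const.update i continuous_id
  have hmaps : Set.MapsTo (fun t : ℝ => Function.update r i t) (Set.Icc (r i) hi) B := by
    intro t ht j _
    by_cases hj : j = i
    · subst hj
      simp only [Function.update_self]
      exact ⟨le_trans hri.1 ht.1, ht.2⟩
    · simp only [Function.update_of_ne hj]
      exact hrB j (Set.mem_univ j)
  have hc : ContinuousOn (fun t : ℝ => F i (Function.update r i t)) (Set.Icc (r i) hi) :=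
    (hcont i).comp hg.continuousOn hmaps
  have hcw : ContinuousWithinAt (fun t : ℝ => F i (Function.update r i t)) (Set.Ioo (r i) hi) (r i) :=
    (hc (r i) ⟨le_refl _, hlt.le⟩).mono Set.Ioo_subset_Icc_self
  have hev : ∀ᶠ t in nhdsWithin (r i) (Set.Ioo (r i) hi), 0 < F i (Function.update r i t) := by
    have : 0 < F i (Function.update r i (r i)) := by rwa [Function.update_eq_self]
    exact hcw.eventually (lt_mem_nhds this)
  have hmem : ∀ᶠ t in nhdsWithin (r i) (Set.Ioo (r i) hi), t ∈ Set.Ioo (r i) hi := self_mem_nhdsWithin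
  have : (nhdsWithin (r i) (Set.Ioo (r i) hi)).NeBot := left_nhdsWithin_Ioo_neBot hlt
  obtain ⟨t, ht1, ht2⟩ := (hev.and hmem).exists
  have hr' : Function.update r i t ∈ P := by
    have hb : Function.update r i t ∈ B := hmaps ⟨ht2.1.le, ht2.2.le⟩
    refine ⟨hb, ?_⟩
    rw [Set.mem_iInter]
    intro j
    refine ⟨hb, ?_⟩
    by_cases hj : j = i
    · subst hj; exact ht1.le
    · exact le_trans (hrF j) (hmono j i (Ne.symm hj) r hrB t ht2.1.le ht2.2.le)
  have hle' := hmax hr'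
  simp only [Set.mem_ofPred_eq] at hle'
  have hsum : ∑ j, Function.update r i t j = ∑ j, r j + (t - r i) := by
    rw [Finset.sum_update_of_mem (Finset.mem_univ i)]
    rw [← Finset.add_sum_erase Finset.univ r (Finset.mem_univ i), Finset.sdiff_singleton_eq_erase]
    ring
  rw [hsum] at hle'
  linarith [ht2.1]

/-- inward pull on a vertex at radius `r` by the two neighbours at radius `s` on the adjacent
opposite rays -/
def K (r s : ℝ) : ℝ := (2 * r - s) / Real.sqrt (r ^ 2 - r * s + s ^ 2)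

theorem Kq_pos {r s : ℝ} (hr : 0 < r) : 0 < r ^ 2 - r * s + s ^ 2 := by
  nlinarith [sq_nonneg (2 * s - r), pow_pos hr 2]

theorem K_scale {r s c : ℝ} (hc : 0 < c) : K (c * r) (c * s) = K r s := by
  unfold K
  have e : (c * r) ^ 2 - (c * r) * (c * s) + (c * s) ^ 2 = c ^ 2 * (r ^ 2 - r * s + s ^ 2) := by ring
  have e2 : 2 * (c * r) - c * s = c * (2 * r - s) := by ring
  rw [e, Real.sqrt_mul (by positivity), Real.sqrt_sq hc.le, e2, mul_div_mul_left _ _ hc.ne']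

theorem K_anti {r s s' : ℝ} (hr : 0 < r) (hs : 0 < s) (h : s < s') : K r s' < K r s := by
  have hQ := Kq_pos (s := s) hr
  have hQ' := Kq_pos (s := s') hr
  have h1 : 0 < Real.sqrt (r ^ 2 - r * s + s ^ 2) := Real.sqrt_pos.2 hQ
  have h2 : 0 < Real.sqrt (r ^ 2 - r * s' + s' ^ 2) := Real.sqrt_pos.2 hQ'
  have q1 := Real.sq_sqrt hQ.le
  have q2 := Real.sq_sqrt hQ'.le
  have key : (2 * r - s) ^ 2 * (r ^ 2 - r * s' + s' ^ 2) - (2 * r - s') ^ 2 * (r ^ 2 - r * s + s ^ 2)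
      = 3 * r * (s' - s) * (r * (s' + s) - s * s') := by ring
  unfold K
  rw [div_lt_div_iff₀ h2 h1]
  rcases lt_or_ge 0 (2 * r - s') with hA | hA
  · apply lt_of_pow_lt_pow_left₀ 2 (mul_nonneg (by linarith) h2.le)
    rw [mul_pow, mul_pow, q1, q2]
    have : 0 < r * (s' + s) - s * s' := by nlinarith
    have : 0 < 3 * r * (s' - s) * (r * (s' + s) - s * s') :=
      mul_pos (mul_pos (by positivity) (by linarith)) this
    linarith
  · rcases lt_or_ge 0 (2 * r - s) with hB | hB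
    · have a1 : (2 * r - s') * Real.sqrt (r ^ 2 - r * s + s ^ 2) ≤ 0 :=
        mul_nonpos_of_nonpos_of_nonneg hA h1.le
      have a2 : 0 < (2 * r - s) * Real.sqrt (r ^ 2 - r * s' + s' ^ 2) := mul_pos hB h2
      linarith
    · have a : (s - 2 * r) * Real.sqrt (r ^ 2 - r * s' + s' ^ 2) <
          (s' - 2 * r) * Real.sqrt (r ^ 2 - r * s + s ^ 2) := by
        apply lt_of_pow_lt_pow_left₀ 2 (mul_nonneg (by linarith) h1.le)
        rw [mul_pow, mul_pow, q1, q2]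
        have : r * (s' + s) - s * s' < 0 := by nlinarith
        have : 3 * r * (s' - s) * (r * (s' + s) - s * s') < 0 :=
          mul_neg_of_pos_of_neg (mul_pos (by positivity) (by linarith)) this
        nlinarith
      linarith

theorem K_anti' {r s s' : ℝ} (hr : 0 < r) (hs : 0 < s) (h : s ≤ s') : K r s' ≤ K r s := by
  rcases h.lt_or_eq with h | h
  · exact (K_anti hr hs h).le
  · rw [h]

theorem K_mono {r r' s : ℝ} (hr : 0 < r) (hs : 0 < s) (h : r ≤ r') : K r s ≤ K r' s := by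
  have hr' : 0 < r' := lt_of_lt_of_le hr h
  have e : K r s = K r' (r' / r * s) := by
    have := K_scale (r := r) (s := s) (c := r' / r) (by positivity)
    rw [← this]
    congr 1
    field_simp
  rw [e]
  apply K_anti' hr' hs
  have : 1 ≤ r' / r := by rw [le_div_iff₀ hr]; linarith
  nlinarith

theorem K_self {r : ℝ} (hr : 0 < r) : K r r = 1 := by
  unfold K
  have e : r ^ 2 - r * r + r ^ 2 = r ^ 2 := by ring
  rw [e, Real.sqrt_sq hr.le]
  field_simp
  ring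

theorem K_gt_one {r s : ℝ} (hs : 0 < s) (h : s < r) : 1 < K r s := by
  have hr : 0 < r := by linarith
  rw [← K_self hr]
  exact K_anti hr hs h

theorem K_ge_one {r s : ℝ} (hs : 0 < s) (h : s ≤ r) : 1 ≤ K r s := by
  have hr : 0 < r := by linarith
  rw [← K_self hr]
  exact K_anti' hr hs h

theorem lt_of_K_lt_one {r s : ℝ} (hs : 0 < s) (h : K r s < 1) : r < s := by
  by_contra hc
  exact absurd (K_ge_one hs (not_lt.1 hc)) (not_le.2 h)

theorem lt_of_K_neg {r s : ℝ} (hr : 0 < r) (h : K r s < 0) : 2 * r < s := by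
  unfold K at h
  by_contra hc
  have : 0 ≤ (2 * r - s) / Real.sqrt (r ^ 2 - r * s + s ^ 2) :=
    div_nonneg (by linarith) (Real.sqrt_nonneg _)
  linarith

theorem K_gt_neg_one {r s : ℝ} (hr : 0 < r) (hs : 0 < s) : -1 < K r s := by
  have hQ := Kq_pos (s := s) hr
  have h1 : 0 < Real.sqrt (r ^ 2 - r * s + s ^ 2) := Real.sqrt_pos.2 hQ
  unfold K
  rw [lt_div_iff₀ h1]
  rcases le_or_gt 0 (2 * r - s) with h | h
  · linarith
  · have : s - 2 * r < Real.sqrt (r ^ 2 - r * s + s ^ 2) := by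
      rw [Real.lt_sqrt (by linarith)]
      nlinarith
    linarith

/-- `2 - K ≤ (6/5) x²` -/
theorem K_lower {r x : ℝ} (hr : 0 < r) (hx0 : 0 < x) (hx : x ≤ 1) :
    2 - 6 / 5 * x ^ 2 ≤ K r (r * x) := by
  have e0 : K r (r * x) = K 1 x := by
    have := K_scale (r := 1) (s := x) hr
    rwa [mul_one] at this
  rw [e0]
  unfold K
  have hQ : 0 < (1:ℝ) ^ 2 - 1 * x + x ^ 2 := Kq_pos one_pos
  rw [le_div_iff₀ (Real.sqrt_pos.2 hQ)]
  apply le_of_sq_le_sq _ (by linarith)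
  rw [mul_pow, Real.sq_sqrt hQ.le]
  have key : (2 * 1 - x) ^ 2 - (2 - 6 / 5 * x ^ 2) ^ 2 * ((1:ℝ) ^ 2 - 1 * x + x ^ 2) =
      x ^ 2 * ((9 / 5 - 24 / 5 * x + 84 / 25 * x ^ 2) + 36 / 25 * x ^ 3 * (1 - x)) := by ring
  have h1 : 0 ≤ 9 / 5 - 24 / 5 * x + 84 / 25 * x ^ 2 := by
    nlinarith [sq_nonneg (x - 5 / 7)]
  have h2 : 0 ≤ 36 / 25 * x ^ 3 * (1 - x) := mul_nonneg (by positivity) (by linarith)
  have h3 : 0 ≤ x ^ 2 * ((9 / 5 - 24 / 5 * x + 84 / 25 * x ^ 2) + 36 / 25 * x ^ 3 * (1 - x)) :=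
    mul_nonneg (by positivity) (by linarith)
  linarith

/-- `2 - K ≥ x² / 2` -/
theorem K_upper {r x : ℝ} (hr : 0 < r) (hx0 : 0 < x) (hx : x ≤ 1) :
    K r (r * x) ≤ 2 - x ^ 2 / 2 := by
  have e0 : K r (r * x) = K 1 x := by
    have := K_scale (r := 1) (s := x) hr
    rwa [mul_one] at this
  rw [e0]
  unfold K
  have hQ : 0 < (1:ℝ) ^ 2 - 1 * x + x ^ 2 := Kq_pos one_pos
  rw [div_le_iff₀ (Real.sqrt_pos.2 hQ)]
  have hx2 : x ^ 2 ≤ 1 := by nlinarith
  apply le_of_sq_le_sq _ (mul_nonneg (by linarith) (Real.sqrt_nonneg _))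
  rw [mul_pow, Real.sq_sqrt hQ.le]
  have key : (2 - x ^ 2 / 2) ^ 2 * ((1:ℝ) ^ 2 - 1 * x + x ^ 2) - (2 * 1 - x) ^ 2 =
      x ^ 2 + 2 * x ^ 3 * (1 - x) + x ^ 4 / 4 * ((1:ℝ) ^ 2 - 1 * x + x ^ 2) := by ring
  have h2 : 0 ≤ 2 * x ^ 3 * (1 - x) := mul_nonneg (by positivity) (by linarith)
  have h3 : 0 ≤ x ^ 4 / 4 * ((1:ℝ) ^ 2 - 1 * x + x ^ 2) := mul_nonneg (by positivity) hQ.le
  have h4 : 0 ≤ x ^ 2 := by positivity
  linarith

/-- `1 + K ≥ (6/5) y` for an outer neighbour -/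
theorem K_outer_lower {s y : ℝ} (hs : 0 < s) (hy0 : 0 < y) (hy : y ≤ 1) :
    6 / 5 * y - 1 ≤ K (s * y) s := by
  have e0 : K (s * y) s = K y 1 := by
    have := K_scale (r := y) (s := 1) hs
    rwa [mul_one] at this
  rw [e0]
  unfold K
  have hQ : 0 < y ^ 2 - y * 1 + (1:ℝ) ^ 2 := Kq_pos hy0
  have hS : 0 < Real.sqrt (y ^ 2 - y * 1 + (1:ℝ) ^ 2) := Real.sqrt_pos.2 hQ
  have hS1 : Real.sqrt (y ^ 2 - y * 1 + (1:ℝ) ^ 2) ≤ 1 := by
    rw [Real.sqrt_le_left (by norm_num)]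
    nlinarith
  rw [le_div_iff₀ hS]
  rcases le_or_gt (1 / 2) y with h | h
  · rcases le_or_gt 0 (6 / 5 * y - 1) with h' | h'
    · have := mul_le_mul_of_nonneg_left hS1 h'
      linarith
    · have : (6 / 5 * y - 1) * Real.sqrt (y ^ 2 - y * 1 + (1:ℝ) ^ 2) ≤ 0 :=
        mul_nonpos_of_nonpos_of_nonneg h'.le hS.le
      linarith
  · have : 1 - 2 * y ≤ (1 - 6 / 5 * y) * Real.sqrt (y ^ 2 - y * 1 + (1:ℝ) ^ 2) := by
      apply le_of_sq_le_sq _ (mul_nonneg (by linarith) hS.le)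
      rw [mul_pow, Real.sq_sqrt hQ.le]
      have key : (1 - 6 / 5 * y) ^ 2 * (y ^ 2 - y * 1 + (1:ℝ) ^ 2) - (1 - 2 * y) ^ 2 =
        y * (3 / 5 + 21 / 25 * y - 96 / 25 * y ^ 2 + 36 / 25 * y ^ 3) := by ring
      have h1 : 0 ≤ 3 / 5 + 21 / 25 * y - 96 / 25 * y ^ 2 + 36 / 25 * y ^ 3 := by
        have : 0 < y ^ 3 := by positivity
        nlinarith
      have h2 := mul_nonneg hy0.le h1
      linarith
    linarith

/-- `K ≤ 2 y - 1` for a far outer neighbour -/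
theorem K_outer_upper {s y : ℝ} (hs : 0 < s) (hy0 : 0 < y) (hy : 2 * y ≤ 1) :
    K (s * y) s ≤ 2 * y - 1 := by
  have e0 : K (s * y) s = K y 1 := by
    have := K_scale (r := y) (s := 1) hs
    rwa [mul_one] at this
  rw [e0]
  unfold K
  have hQ : 0 < y ^ 2 - y * 1 + (1:ℝ) ^ 2 := Kq_pos hy0
  have hS : 0 < Real.sqrt (y ^ 2 - y * 1 + (1:ℝ) ^ 2) := Real.sqrt_pos.2 hQ
  have hS1 : Real.sqrt (y ^ 2 - y * 1 + (1:ℝ) ^ 2) ≤ 1 := by
    rw [Real.sqrt_le_left (by norm_num)]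
    nlinarith
  rw [div_le_iff₀ hS]
  have := mul_le_mul_of_nonneg_left hS1 (show 0 ≤ 1 - 2 * y by linarith)
  linarith

theorem K_cont {X : Type*} [TopologicalSpace X] {S : Set X} {u v : X → ℝ} (hu : ContinuousOn u S)
    (hv : ContinuousOn v S) (hpos : ∀ x ∈ S, 0 < u x) : ContinuousOn (fun x => K (u x) (v x)) S := by
  unfold K
  apply ContinuousOn.div
  · fun_prop
  · fun_prop
  · intro x hx
    exact (Real.sqrt_pos.2 (Kq_pos (hpos x hx))).ne'

end Pool.Agent.Y393.Net2
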