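import Pool.Agent.Y393.Net2K

noncomputable section
open scoped Classical

namespace Pool.Agent.Y393.Net2

/-- order of the radii of a solution -/
theorem order {m : ℕ} (hm : 1 ≤ m) (b c a : ℕ → ℝ)
    (pb : ∀ i ≤ m, 0 < b i) (pc : ∀ i ≤ m, 0 < c i) (pa : ∀ i ≤ m, 0 < a i)
    (lc : ∀ i ≤ m, c i ≤ 10)
    (eB0 : K (b 0) (c 0) + K (b 0) (a 0) = 1)
    (eB : ∀ i, i < m → K (b (i+1)) (c (i+1)) + K (b (i+1)) (a (i+1)) + K (b (i+1)) (a i) = 0)
    (eC : ∀ i ≤ m, K (c i) (b i) + 2 * K (c i) 20 = 0)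
    (eA : ∀ i, i < m → K (a i) (b i) + K (a i) (b (i+1)) + K (a i) 20 = 0)
    (eAl : K (a m) (b m) + K (a m) 20 = 0) :
    (∀ i < m, b (i+1) < b i) ∧ (∀ i < m, a (i+1) < a i) ∧ (∀ i < m, c (i+1) < c i) ∧ a 0 < c m := by
  have step : ∀ i, i < m → a (i+1) < b (i+1) → 2 * b (i+1) < a i ∧ 2 * a i < b i := by
    intro i hi h
    have hb := pb i hi.le
    have hb' := pb (i+1) hi
    have hc' := pc (i+1) hi
    have ha := pa i hi.le
    have ha' := pa (i+1) hi
    have e1 := eB i hi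
    have k1 := K_gt_neg_one hb' hc'
    have k2 := K_gt_one ha' h
    have h1 : 2 * b (i+1) < a i := lt_of_K_neg hb' (by linarith)
    have e2 := eA i hi
    have k3 := K_gt_neg_one ha (show (0:ℝ) < 20 by norm_num)
    have k4 := K_gt_one hb' (show b (i+1) < a i by linarith)
    exact ⟨h1, lt_of_K_neg ha (by linarith)⟩
  have key : ∀ d, ∀ i, i + d = m → a i < b i := by
    intro d
    induction d with
    | zero =>
      intro i hi
      have : i = m := by omega
      subst this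
      have k3 := K_gt_neg_one (pa i le_rfl) (show (0:ℝ) < 20 by norm_num)
      exact lt_of_K_lt_one (pb i le_rfl) (by linarith)
    | succ d ih =>
      intro i hi
      have h1 := step i (by omega) (ih (i+1) (by omega))
      have := pa i (by omega)
      linarith [h1.2]
  have hab : ∀ i ≤ m, a i < b i := fun i hi => key (m - i) i (by omega)
  have hst : ∀ i, i < m → 2 * b (i+1) < a i ∧ 2 * a i < b i := fun i hi => step i hi (hab (i+1) hi)
  have hbs : ∀ i < m, b (i+1) < b i := by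
    intro i hi
    have := hst i hi
    have h1 := pb (i+1) hi
    have h2 := pa i hi.le
    linarith
  have has : ∀ i < m, a (i+1) < a i := by
    intro i hi
    have := hst i hi
    have h1 := pb (i+1) hi
    have h2 := hab (i+1) hi
    linarith
  have hcs : ∀ i < m, c (i+1) < c i := by
    intro i hi
    by_contra hcon
    push Not at hcon
    have e1 := eC i hi.le
    have e2 := eC (i+1) hi
    have k1 := K_mono (pc i hi.le) (show (0:ℝ) < 20 by norm_num) hcon
    have k2 := K_mono (pc i hi.le) (pb i hi.le) hcon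
    have k3 := K_anti (pc (i+1) hi) (pb (i+1) hi) (hbs i hi)
    linarith
  refine ⟨hbs, has, hcs, ?_⟩
  -- the chain of inequalities
  have hZ : ∀ i < m, a i ^ 2 * b (i+1) ≤ a (i+1) ^ 2 * b i := by
    intro i hi
    have hb := pb i hi.le
    have hb' := pb (i+1) hi
    have hc' := pc (i+1) hi
    have ha := pa i hi.le
    have ha' := pa (i+1) hi
    have hs := hst i hi
    have h1 : a i ^ 3 < b (i+1) ^ 2 * b i := by
      have l1 := K_lower ha (x := b (i+1) / a i) (by positivity) (by rw [div_le_one ha]; linarith)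
      have l2 := K_outer_lower hb (y := a i / b i) (by positivity) (by rw [div_le_one hb]; linarith [hab i hi.le])
      have k3 := K_gt_neg_one ha (show (0:ℝ) < 20 by norm_num)
      rw [mul_div_cancel₀ _ ha.ne'] at l1
      rw [mul_div_cancel₀ _ hb.ne'] at l2
      have e := eA i hi
      have h : a i / b i < (b (i+1) / a i) ^ 2 := by linarith
      rw [div_pow, div_lt_div_iff₀ hb (by positivity)] at h
      nlinarith
    have h2 : b (i+1) ^ 3 < a (i+1) ^ 2 * a i := by
      have l1 := K_lower hb' (x := a (i+1) / b (i+1)) (by positivity) (by rw [div_le_one hb']; linarith [hab (i+1) hi])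
      have l2 := K_outer_lower ha (y := b (i+1) / a i) (by positivity) (by rw [div_le_one ha]; linarith)
      have k3 := K_gt_neg_one hb' hc'
      rw [mul_div_cancel₀ _ hb'.ne'] at l1
      rw [mul_div_cancel₀ _ ha.ne'] at l2
      have e := eB i hi
      have h : b (i+1) / a i < (a (i+1) / b (i+1)) ^ 2 := by linarith
      rw [div_pow, div_lt_div_iff₀ ha (by positivity)] at h
      nlinarith
    have h3 : a i * (a i ^ 2 * b (i+1)) ≤ a i * (a (i+1) ^ 2 * b i) := by
      have g1 : a i ^ 3 * b (i+1) ≤ (b (i+1) ^ 2 * b i) * b (i+1) :=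
        mul_le_mul_of_nonneg_right h1.le hb'.le
      have g2 : b (i+1) ^ 3 * b i ≤ (a (i+1) ^ 2 * a i) * b i :=
        mul_le_mul_of_nonneg_right h2.le hb.le
      nlinarith
    exact le_of_mul_le_mul_left h3 ha
  have hZ' : ∀ i ≤ m, a 0 ^ 2 * b i ≤ a i ^ 2 * b 0 := by
    intro i
    induction i with
    | zero => intro _; exact le_rfl
    | succ i ih =>
      intro hi
      have h1 := ih (by omega)
      have h2 := hZ i (by omega)
      have hb := pb i (by omega)
      have hb' := pb (i+1) hi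
      have ha := pa i (by omega)
      have hb0 := pb 0 (by omega)
      have ha0 := pa 0 (by omega)
      have h3 : (a i ^ 2 * b i) * (a 0 ^ 2 * b (i+1)) ≤ (a i ^ 2 * b i) * (a (i+1) ^ 2 * b 0) := by
        have := mul_le_mul h1 h2 (by positivity) (by positivity)
        nlinarith
      exact le_of_mul_le_mul_left h3 (by positivity)
  have hb0 := pb 0 (by omega)
  have hc0 := pc 0 (by omega)
  have ha0 := pa 0 (by omega)
  have hbm := pb m le_rfl
  have hcm := pc m le_rfl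
  have ham := pa m le_rfl
  have hbm2 : a 0 ^ 2 < b m * b 0 := by
    have h1 := hZ' m le_rfl
    have h2 := hab m le_rfl
    have h3 : a m ^ 2 < b m ^ 2 := by nlinarith
    have h4 : b m * (a 0 ^ 2) < b m * (b m * b 0) := by nlinarith
    exact lt_of_mul_lt_mul_left h4 hbm.le
  have hbc0 : b 0 ≤ c 0 := by
    by_contra hcon
    push Not at hcon
    have k1 := K_gt_one hc0 hcon
    have k2 := K_gt_one ha0 (hab 0 (by omega))
    linarith
  have f1 : b 0 ^ 3 ≤ a 0 ^ 2 * c 0 := by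
    have l1 := K_lower hb0 (x := a 0 / b 0) (by positivity) (by rw [div_le_one hb0]; linarith [hab 0 (by omega)])
    have l2 := K_outer_lower hc0 (y := b 0 / c 0) (by positivity) (by rw [div_le_one hc0]; exact hbc0)
    rw [mul_div_cancel₀ _ hb0.ne'] at l1
    rw [mul_div_cancel₀ _ hc0.ne'] at l2
    have h : b 0 / c 0 ≤ (a 0 / b 0) ^ 2 := by linarith
    rw [div_pow, div_le_div_iff₀ hc0 (by positivity)] at h
    nlinarith
  have f2 : c 0 ^ 3 ≤ 10 * b 0 ^ 2 := by
    have l1 := K_lower hc0 (x := b 0 / c 0) (by positivity) (by rw [div_le_one hc0]; exact hbc0)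
    have l2 := K_outer_lower (show (0:ℝ) < 20 by norm_num) (y := c 0 / 20) (by positivity) (by linarith [lc 0 (by omega)])
    rw [mul_div_cancel₀ _ hc0.ne'] at l1
    rw [mul_div_cancel₀ _ (by norm_num : (20:ℝ) ≠ 0)] at l2
    have e := eC 0 (by omega)
    have h : c 0 / 10 ≤ (b 0 / c 0) ^ 2 := by linarith
    rw [div_pow, div_le_div_iff₀ (by norm_num) (by positivity)] at h
    nlinarith
  have f3 : 5 * b m ^ 2 ≤ 2 * c m ^ 3 := by
    obtain ⟨k, rfl⟩ : ∃ k, m = k + 1 := ⟨m - 1, by omega⟩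
    have e1 := eB k (by omega)
    have k1 := K_gt_one ham (hab (k+1) le_rfl)
    have k2 := K_gt_neg_one hbm (pa k (by omega))
    have h1 : 2 * b (k+1) < c (k+1) := lt_of_K_neg hbm (by linarith)
    have l1 := K_upper hcm (x := b (k+1) / c (k+1)) (by positivity) (by rw [div_le_one hcm]; linarith)
    have l2 := K_outer_upper (show (0:ℝ) < 20 by norm_num) (y := c (k+1) / 20) (by positivity)
      (by linarith [lc (k+1) le_rfl])
    rw [mul_div_cancel₀ _ hcm.ne'] at l1
    rw [mul_div_cancel₀ _ (by norm_num : (20:ℝ) ≠ 0)] at l2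
    have e := eC (k+1) le_rfl
    have h : (b (k+1) / c (k+1)) ^ 2 ≤ 2 * c (k+1) / 5 := by linarith
    rw [div_pow, div_le_div_iff₀ (by positivity) (by norm_num)] at h
    nlinarith
  by_contra hcon
  push Not at hcon
  have h2a : 2 * a 0 < b 0 := (hst 0 (by omega)).2
  -- `5 a₀ < 2 b₀²`
  have g1 : 5 * a 0 < 2 * b 0 ^ 2 := by
    have h1 : c m ^ 3 ≤ a 0 ^ 3 := pow_le_pow_left₀ hcm.le hcon 3
    have h2 : (a 0 ^ 2) ^ 2 < (b m * b 0) ^ 2 := pow_lt_pow_left₀ hbm2 (by positivity) two_ne_zero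
    have h3 : 5 * a 0 * a 0 ^ 3 < 2 * b 0 ^ 2 * a 0 ^ 3 := by
      have h4 : 5 * b m ^ 2 * b 0 ^ 2 ≤ 2 * a 0 ^ 3 * b 0 ^ 2 :=
        mul_le_mul_of_nonneg_right (by linarith) (by positivity)
      nlinarith
    exact lt_of_mul_lt_mul_right h3 (by positivity)
  -- `b₀⁷ ≤ 10 a₀⁶`
  have g2 : b 0 ^ 7 ≤ 10 * a 0 ^ 6 := by
    have h1 : (b 0 ^ 3) ^ 3 ≤ (a 0 ^ 2 * c 0) ^ 3 := pow_le_pow_left₀ (by positivity) f1 3
    have h2 : a 0 ^ 6 * c 0 ^ 3 ≤ a 0 ^ 6 * (10 * b 0 ^ 2) := mul_le_mul_of_nonneg_left f2 (by positivity)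
    have h3 : b 0 ^ 7 * b 0 ^ 2 ≤ 10 * a 0 ^ 6 * b 0 ^ 2 := by
      calc b 0 ^ 7 * b 0 ^ 2 = (b 0 ^ 3) ^ 3 := by ring
        _ ≤ (a 0 ^ 2 * c 0) ^ 3 := h1
        _ = a 0 ^ 6 * c 0 ^ 3 := by ring
        _ ≤ a 0 ^ 6 * (10 * b 0 ^ 2) := h2
        _ = _ := by ring
    exact le_of_mul_le_mul_right h3 (by positivity)
  have g3 : (2 * a 0) ^ 5 ≤ b 0 ^ 5 := pow_le_pow_left₀ (by positivity) h2a.le 5
  have g4 : 32 * b 0 ^ 2 * b 0 ^ 5 ≤ 10 * a 0 * b 0 ^ 5 := by
    have h1 : 10 * a 0 * (2 * a 0) ^ 5 ≤ 10 * a 0 * b 0 ^ 5 := mul_le_mul_of_nonneg_left g3 (by positivity)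
    have h2 : 10 * a 0 * (2 * a 0) ^ 5 = 32 * (10 * a 0 ^ 6) := by ring
    have h3 : 32 * b 0 ^ 2 * b 0 ^ 5 = 32 * b 0 ^ 7 := by ring
    linarith
  have g5 : 32 * b 0 ^ 2 ≤ 10 * a 0 := le_of_mul_le_mul_right g4 (by positivity)
  linarith

end Pool.Agent.Y393.Net2
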