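import Mathlib
import Pool.Agent.Helper544.Planar
import Pool.Agent.Y393.Net3C

noncomputable section
open scoped Classical

namespace Pool.Agent.Y393.Net3T

open Pool.Agent.Helper544.Planar Pool.Agent.Y393.Net3C

/-- the three directions -/
def u : Fin 3 → ℂ := ![⟨1, 0⟩, ⟨-1/2, Real.sqrt 3 / 2⟩, ⟨-1/2, -(Real.sqrt 3 / 2)⟩]

theorem s3sq : Real.sqrt 3 ^ 2 = 3 := Real.sq_sqrt (by norm_num)
theorem s3pos : 0 < Real.sqrt 3 := Real.sqrt_pos.2 (by norm_num)

theorem u_sum (k : Fin 3) : u k + u (k + 1) + u (k + 2) = 0 := by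
  fin_cases k <;> simp [u, Complex.ext_iff] <;> norm_num

theorem u_sum' (k : Fin 3) : u k = - u (k + 1) - u (k + 2) := by
  linear_combination u_sum k

theorem indep1 (k : Fin 3) (a b : ℝ) (h : (a : ℂ) * u (k + 1) + (b : ℂ) * u (k + 2) = 0) :
    a = 0 ∧ b = 0 := by
  have hs := s3pos
  have h1 := congrArg Complex.re h
  have h2 := congrArg Complex.im h
  fin_cases k <;> simp [u] at h1 h2
  · have e : (a - b) * Real.sqrt 3 = 0 := by linarith
    have e2 : a - b = 0 := by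
      rcases mul_eq_zero.1 e with h | h
      · exact h
      · exact absurd h hs.ne'
    constructor <;> linarith
  · subst h2
    constructor <;> linarith
  · subst h2
    constructor <;> linarith

theorem indep2 (k : Fin 3) (a b a' b' : ℝ)
    (h : (a : ℂ) * u (k + 1) + (b : ℂ) * u (k + 2) = (a' : ℂ) * u (k + 1) + (b' : ℂ) * u (k + 2)) :
    a = a' ∧ b = b' := by
  have := indep1 k (a - a') (b - b') (by push_cast; linear_combination h)
  constructor <;> linarith [this.1, this.2]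

theorem norm_comb (k : Fin 3) (a b : ℝ) :
    ‖(a : ℂ) * u (k + 1) + (b : ℂ) * u (k + 2)‖ = Real.sqrt (a ^ 2 - a * b + b ^ 2) := by
  have h3 := s3sq
  rw [Complex.norm_eq_sqrt_sq_add_sq]
  congr 1
  fin_cases k <;> simp [u]
  · nlinarith
  · nlinarith
  · nlinarith

/-- index type of the vertices of the drawing -/
abbrev Ix (N : ℕ) (Λ : Type) := (Fin N × Fin 3) ⊕ (Λ × Fin 3)

variable {Λ : Type} [Fintype Λ] (A : Data Λ)

def posf {N : ℕ} (r : Fin N → ℝ) : Ix N Λ → ℂ
  | Sum.inl p => (r p.1 : ℂ) * u p.2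
  | Sum.inr q => -(A.R q.1 : ℂ) * u q.2

def Wf {N : ℕ} : Ix N Λ → Ix N Λ → ℕ
  | Sum.inl p, Sum.inl q => if p.2 ≠ q.2 ∧ nb p.1 q.1 then 1 else 0
  | Sum.inl p, Sum.inr q => if q.2 ≠ p.2 then A.w q.1 else 0
  | Sum.inr q, Sum.inl p => if q.2 ≠ p.2 then A.w q.1 else 0
  | Sum.inr _, Sum.inr _ => 0

theorem Wf_symm {N : ℕ} (x y : Ix N Λ) : Wf A x y = Wf A y x := by
  rcases x with p | p <;> rcases y with q | q
  · simp only [Wf]
    by_cases h : p.2 ≠ q.2 ∧ nb p.1 q.1
    · rw [if_pos h, if_pos ⟨h.1.symm, nb_symm h.2⟩]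
    · rw [if_neg h, if_neg (fun h' => h ⟨h'.1.symm, nb_symm h'.2⟩)]
  · rfl
  · rfl
  · rfl

theorem Wf_diag {N : ℕ} (x : Ix N Λ) : Wf A x x = 0 := by
  rcases x with p | p <;> simp [Wf]

/-- canonical description of the drawn segments: sector and line coefficients -/
inductive Cn {N : ℕ} (r : Fin N → ℝ) : Ix N Λ → Ix N Λ → Fin 3 → ℝ → ℝ → Prop
  | L (k : Fin 3) (i i' : Fin N) : Cn r (Sum.inl (i, k + 1)) (Sum.inl (i', k + 2)) k (1 / r i) (1 / r i')
  | SA (k : Fin 3) (i : Fin N) (l : Λ) : Cn r (Sum.inl (i, k + 1)) (Sum.inr (l, k)) k (1 / r i) (1 / A.R l - 1 / r i)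
  | SB (k : Fin 3) (i : Fin N) (l : Λ) : Cn r (Sum.inl (i, k + 2)) (Sum.inr (l, k)) k (1 / A.R l - 1 / r i) (1 / r i)

theorem f3a (k : Fin 3) : k + 1 + 1 = k + 2 := by revert k; decide
theorem f3b (k : Fin 3) : k + 1 + 2 = k := by revert k; decide
theorem f3c (k : Fin 3) : k = (k + 2) + 1 := by revert k; decide
theorem f3d (k : Fin 3) : k ≠ k + 1 := by revert k; decide
theorem f3e (k : Fin 3) : k ≠ k + 2 := by revert k; decide
theorem f3f (k : Fin 3) : k + 1 ≠ k + 2 := by revert k; decide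
theorem f3g (k k' : Fin 3) (h : ¬ k = k') : k' = k + 1 ∨ k = k' + 1 := by revert h; revert k k'; decide

theorem fin3_ne {j j' : Fin 3} (h : j ≠ j') : ∃ k : Fin 3, (j = k + 1 ∧ j' = k + 2) ∨ (j' = k + 1 ∧ j = k + 2) := by
  revert h; revert j j'; decide

theorem fin3_ne' {j k : Fin 3} (h : k ≠ j) : j = k + 1 ∨ j = k + 2 := by
  revert h; revert j k; decide

theorem exists_Cn {N : ℕ} (r : Fin N → ℝ) {x y : Ix N Λ} (h : Wf A x y ≠ 0) :
    ∃ k α β, Cn A r x y k α β ∨ Cn A r y x k α β := by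
  rcases x with ⟨i, j⟩ | ⟨l, k⟩ <;> rcases y with ⟨i', j'⟩ | ⟨l', k'⟩
  · simp only [Wf] at h
    have h' : j ≠ j' ∧ nb i i' := by
      by_contra hc
      rw [if_neg hc] at h
      exact h rfl
    obtain ⟨k, ⟨rfl, rfl⟩ | ⟨rfl, rfl⟩⟩ := fin3_ne h'.1
    · exact ⟨k, _, _, Or.inl (Cn.L k i i')⟩
    · exact ⟨k, _, _, Or.inr (Cn.L k i' i)⟩
  · simp only [Wf] at h
    have h' : k' ≠ j := by
      by_contra hc
      rw [if_neg (by simpa using hc)] at h
      exact h rfl
    rcases fin3_ne' h' with rfl | rfl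
    · exact ⟨k', _, _, Or.inl (Cn.SA k' i l')⟩
    · exact ⟨k', _, _, Or.inl (Cn.SB k' i l')⟩
  · simp only [Wf] at h
    have h' : k ≠ j' := by
      by_contra hc
      rw [if_neg (by simpa using hc)] at h
      exact h rfl
    rcases fin3_ne' h' with rfl | rfl
    · exact ⟨k, _, _, Or.inr (Cn.SA k i' l)⟩
    · exact ⟨k, _, _, Or.inr (Cn.SB k i' l)⟩
  · simp [Wf] at h

/-- `z` lies in the closed sector `k` on the line with coefficients `α, β` -/
def On (k : Fin 3) (α β : ℝ) (z : ℂ) : Prop :=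
  ∃ X Y : ℝ, 0 ≤ X ∧ 0 ≤ Y ∧ α * X + β * Y = 1 ∧ z = (X : ℂ) * u (k + 1) + (Y : ℂ) * u (k + 2)

theorem On_of_ends {k : Fin 3} {α β : ℝ} {a b z : ℂ} (ha : On k α β a) (hb : On k α β b)
    (hz : z ∈ segment ℝ a b) : On k α β z := by
  obtain ⟨X, Y, hX, hY, h1, rfl⟩ := ha
  obtain ⟨X', Y', hX', hY', h2, rfl⟩ := hb
  obtain ⟨s, h0, hs1, rfl⟩ := mem_seg.1 hz
  have h1s : 0 ≤ 1 - s := by linarith
  refine ⟨(1 - s) * X + s * X', (1 - s) * Y + s * Y', by positivity, by positivity, ?_, ?_⟩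
  · linear_combination (1 - s) * h1 + s * h2
  · simp only [pt]; push_cast; ring

theorem Cn_ends {N : ℕ} {r : Fin N → ℝ} (hr : ∀ i, 0 < r i) {x y : Ix N Λ} {k : Fin 3} {α β : ℝ}
    (h : Cn A r x y k α β) : On k α β (posf A r x) ∧ On k α β (posf A r y) := by
  cases h with
  | L k i i' =>
    have h1 := hr i
    have h2 := hr i'
    refine ⟨⟨r i, 0, h1.le, le_refl _, ?_, ?_⟩, ⟨0, r i', le_refl _, h2.le, ?_, ?_⟩⟩
    · field_simp; ring
    · simp [posf]
    · field_simp; ring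
    · simp [posf]
  | SA k i l =>
    have h1 := hr i
    have h2 := A.R_ge l
    have h3 : 0 < A.R l := by linarith
    refine ⟨⟨r i, 0, h1.le, le_refl _, ?_, ?_⟩, ⟨A.R l, A.R l, h3.le, h3.le, ?_, ?_⟩⟩
    · field_simp; ring
    · simp [posf]
    · field_simp; ring
    · simp only [posf]; rw [u_sum' k]; ring
  | SB k i l =>
    have h1 := hr i
    have h2 := A.R_ge l
    have h3 : 0 < A.R l := by linarith
    refine ⟨⟨0, r i, le_refl _, h1.le, ?_, ?_⟩, ⟨A.R l, A.R l, h3.le, h3.le, ?_, ?_⟩⟩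
    · field_simp; ring
    · simp [posf]
    · field_simp; ring
    · simp only [posf]; rw [u_sum' k]; ring

theorem On_shift {k : Fin 3} {α β α' β' : ℝ} {p q : ℂ}
    (hp : On k α β p) (hp' : On (k + 1) α' β' p) (hq : On k α β q) (hq' : On (k + 1) α' β' q) :
    p = q := by
  have key : ∀ z, On k α β z → On (k + 1) α' β' z → ∃ Y : ℝ, β * Y = 1 ∧ z = (Y : ℂ) * u (k + 2) := by
    rintro z ⟨X, Y, hX, hY, h1, h2⟩ ⟨X', Y', hX', hY', h3, h4⟩
    have e1 := f3a k
    have e2 := f3b k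
    rw [e1, e2, u_sum' k] at h4
    have h5 : (X : ℂ) * u (k + 1) + (Y : ℂ) * u (k + 2) =
        ((-Y' : ℝ) : ℂ) * u (k + 1) + ((X' - Y' : ℝ) : ℂ) * u (k + 2) := by
      rw [← h2, h4]; push_cast; ring
    obtain ⟨h6, h7⟩ := indep2 k _ _ _ _ h5
    have hX0 : X = 0 := by linarith
    refine ⟨Y, by rw [hX0] at h1; linarith, by rw [h2, hX0]; simp⟩
  obtain ⟨Y, h1, h2⟩ := key p hp hp'
  obtain ⟨Y', h3, h4⟩ := key q hq hq'
  have hβ : β ≠ 0 := by
    intro h; rw [h] at h1; linarith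
  have : Y = Y' := by
    apply mul_left_cancel₀ hβ; linarith
  rw [h2, h4, this]

theorem On_eq {k k' : Fin 3} {α β α' β' : ℝ} {p q : ℂ} (hpq : p ≠ q)
    (hp : On k α β p) (hp' : On k' α' β' p) (hq : On k α β q) (hq' : On k' α' β' q) :
    k = k' ∧ α = α' ∧ β = β' := by
  by_cases hk : k = k'
  · subst hk
    refine ⟨rfl, ?_⟩
    obtain ⟨X, Y, _, _, h1, h2⟩ := hp
    obtain ⟨X', Y', _, _, h3, h4⟩ := hp'
    obtain ⟨Z, T, _, _, h5, h6⟩ := hq
    obtain ⟨Z', T', _, _, h7, h8⟩ := hq'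
    obtain ⟨rfl, rfl⟩ := indep2 k _ _ _ _ (h2.symm.trans h4)
    obtain ⟨rfl, rfl⟩ := indep2 k _ _ _ _ (h6.symm.trans h8)
    have e1 : X - Z = β * (X * T - Z * Y) := by linear_combination (-X) * h5 + Z * h1
    have e2 : T - Y = α * (X * T - Z * Y) := by linear_combination (-T) * h1 + Y * h5
    have e3 : X - Z = β' * (X * T - Z * Y) := by linear_combination (-X) * h7 + Z * h3
    have e4 : T - Y = α' * (X * T - Z * Y) := by linear_combination (-T) * h3 + Y * h7
    by_cases hd : X * T - Z * Y = 0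
    · exfalso
      rw [hd] at e1 e2
      have hX : X = Z := by linarith
      have hY : Y = T := by linarith
      apply hpq
      rw [h2, h6, hX, hY]
    · constructor
      · apply mul_right_cancel₀ hd; linarith
      · apply mul_right_cancel₀ hd; linarith
  · exfalso
    have h := f3g k k' hk
    rcases h with rfl | rfl
    · exact hpq (On_shift hp hp' hq hq')
    · exact hpq (On_shift hp' hp hq' hq)

theorem Cn_unique {N : ℕ} {r : Fin N → ℝ} (hr : ∀ i, 0 < r i ∧ r i ≤ 10) (hinj : Function.Injective r)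
    (hR : Function.Injective A.R)
    {x y x' y' : Ix N Λ} {k : Fin 3} {α β : ℝ}
    (h : Cn A r x y k α β) (h' : Cn A r x' y' k α β) : x = x' ∧ y = y' := by
  have hpos : ∀ i, 0 < 1 / r i := fun i => by
    have := (hr i).1
    positivity
  have hneg : ∀ i l, 1 / A.R l - 1 / r i < 0 := by
    intro i l
    have h1 := hr i
    have h2 := A.R_ge l
    have : 1 / A.R l < 1 / r i := by
      apply one_div_lt_one_div_of_lt <;> linarith
    linarith
  have hri : ∀ i j, 1 / r i = 1 / r j → i = j := by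
    intro i j h
    apply hinj
    have h1 := (hr i).1
    have h2 := (hr j).1
    field_simp at h
    linarith
  have hRi : ∀ i j, 1 / A.R i = 1 / A.R j → i = j := by
    intro i j h
    apply hR
    have h1 := A.R_ge i
    have h2 := A.R_ge j
    have h3 : 0 < A.R i := by linarith
    have h4 : 0 < A.R j := by linarith
    field_simp at h
    linarith
  generalize hα : α = α' at h'
  generalize hβ : β = β' at h'
  cases h with
  | L k i i' =>
    cases h' with
    | L _ j j' =>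
      have := hri _ _ hα
      have := hri _ _ hβ
      subst_vars; exact ⟨rfl, rfl⟩
    | SA _ j l => exfalso; have := hpos i'; have := hneg j l; linarith
    | SB _ j l => exfalso; have := hpos i; have := hneg j l; linarith
  | SA k i l =>
    cases h' with
    | L _ j j' => exfalso; have := hpos j'; have := hneg i l; linarith
    | SA _ j l' =>
      have h1 := hri _ _ hα
      subst h1
      have h2 := hRi l l' (by linarith)
      subst h2; exact ⟨rfl, rfl⟩
    | SB _ j l' => exfalso; have := hpos i; have := hneg j l'; linarith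
  | SB k i l =>
    cases h' with
    | L _ j j' => exfalso; have := hpos j; have := hneg i l; linarith
    | SA _ j l' => exfalso; have := hpos j; have := hneg i l; linarith
    | SB _ j l' =>
      have h1 := hri _ _ hβ
      subst h1
      have h2 := hRi l l' (by linarith)
      subst h2; exact ⟨rfl, rfl⟩

theorem u_ne_zero (k : Fin 3) : u k ≠ 0 := by
  intro h
  have e := f3c k
  have := indep1 (k + 2) 1 0 (by rw [← e, h]; simp)
  linarith [this.1]

theorem comb_ne {j k : Fin 3} (hjk : j ≠ k) {a b : ℝ} (h : (a : ℂ) * u j = (b : ℂ) * u k) : a = 0 ∧ b = 0 := by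
  obtain ⟨l, ⟨rfl, rfl⟩ | ⟨rfl, rfl⟩⟩ := fin3_ne hjk
  · have := indep1 l a (-b) (by push_cast; linear_combination h)
    exact ⟨this.1, by linarith [this.2]⟩
  · have := indep1 l (-b) a (by push_cast; linear_combination h)
    exact ⟨this.2, by linarith [this.1]⟩

theorem comb_eq {j : Fin 3} {a b : ℝ} (h : (a : ℂ) * u j = (b : ℂ) * u j) : a = b := by
  have := mul_right_cancel₀ (u_ne_zero j) h
  exact_mod_cast this

theorem posf_inj {N : ℕ} {r : Fin N → ℝ} (hr : ∀ i, 0 < r i ∧ r i ≤ 10) (hinj : Function.Injective r)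
    (hR : Function.Injective A.R) : Function.Injective (posf A r) := by
  rintro (⟨i, j⟩ | ⟨l, k⟩) (⟨i', j'⟩ | ⟨l', k'⟩) h
  · simp only [posf] at h
    by_cases hj : j = j'
    · subst hj
      have := hinj (comb_eq h)
      rw [this]
    · have := (comb_ne hj h).1
      have := (hr i).1
      linarith
  · exfalso
    simp only [posf] at h
    have h' : (r i : ℂ) * u j = ((-A.R l' : ℝ) : ℂ) * u k' := by rw [h]; push_cast; ring
    have h1 := (hr i).1
    have h2 := A.R_ge l'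
    by_cases hj : j = k'
    · subst hj
      have := comb_eq h'
      linarith
    · have := (comb_ne hj h').1
      linarith
  · exfalso
    simp only [posf] at h
    have h' : (r i' : ℂ) * u j' = ((-A.R l : ℝ) : ℂ) * u k := by rw [← h]; push_cast; ring
    have h1 := (hr i').1
    have h2 := A.R_ge l
    by_cases hj : j' = k
    · subst hj
      have := comb_eq h'
      linarith
    · have := (comb_ne hj h').1
      linarith
  · simp only [posf] at h
    have h' : ((-A.R l : ℝ) : ℂ) * u k = ((-A.R l' : ℝ) : ℂ) * u k' := by push_cast; exact h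
    have h2 := A.R_ge l
    by_cases hj : k = k'
    · subst hj
      have h3 := comb_eq h'
      have h4 := hR (show A.R l = A.R l' by linarith)
      rw [h4]
    · have := (comb_ne hj h').1
      linarith

/-- the drawing -/
def drawing {N : ℕ} (r : Fin N → ℝ) (hr : ∀ i, 0 < r i ∧ r i ≤ 10) (hinj : Function.Injective r)
    (hR : Function.Injective A.R) : Drawing (Ix N Λ) where
  pos := posf A r
  W := Wf A
  inj := posf_inj A hr hinj hR
  symm := Wf_symm A
  diag := Wf_diag A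
  ovl := by
    intro x y z t hxy hzt hne p q hp hp' hq hq'
    by_contra hpq
    have hr' : ∀ i, 0 < r i := fun i => by linarith [(hr i).1]
    obtain ⟨k, α, β, h1⟩ := exists_Cn A r hxy
    obtain ⟨k', α', β', h2⟩ := exists_Cn A r hzt
    have on1 : ∀ c ∈ segment ℝ (posf A r x) (posf A r y), On k α β c := by
      intro c hc
      rcases h1 with h1 | h1
      · have := Cn_ends A hr' h1
        exact On_of_ends this.1 this.2 hc
      · have := Cn_ends A hr' h1
        rw [segment_symm] at hc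
        exact On_of_ends this.1 this.2 hc
    have on2 : ∀ c ∈ segment ℝ (posf A r z) (posf A r t), On k' α' β' c := by
      intro c hc
      rcases h2 with h2 | h2
      · have := Cn_ends A hr' h2
        exact On_of_ends this.1 this.2 hc
      · have := Cn_ends A hr' h2
        rw [segment_symm] at hc
        exact On_of_ends this.1 this.2 hc
    obtain ⟨rfl, rfl, rfl⟩ := On_eq hpq (on1 p hp) (on2 p hp') (on1 q hq) (on2 q hq')
    apply hne
    rcases h1 with h1 | h1 <;> rcases h2 with h2 | h2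
    · exact Or.inl (Cn_unique A hr hinj hR h1 h2)
    · exact Or.inr (Cn_unique A hr hinj hR h1 h2)
    · right
      have := Cn_unique A hr hinj hR h1 h2
      exact ⟨this.2, this.1⟩
    · left
      have := Cn_unique A hr hinj hR h1 h2
      exact ⟨this.2, this.1⟩

theorem sum_fin3 {E : Type} [AddCommMonoid E] (j : Fin 3) (X : Fin 3 → E) :
    ∑ j', (if j' ≠ j then X j' else 0) = X (j + 1) + X (j + 2) := by
  fin_cases j <;> simp [Fin.sum_univ_three, add_comm]

theorem uv_layer (j : Fin 3) {r s : ℝ} (hr : 0 < r) (hs : 0 ≤ s) :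
    uv ((r : ℂ) * u j) ((s : ℂ) * u (j + 1)) + uv ((r : ℂ) * u j) ((s : ℂ) * u (j + 2)) =
      -(H r s : ℂ) * u j := by
  have hQ := Q_pos hr hs
  have hS : 0 < Real.sqrt (r ^ 2 + r * s + s ^ 2) := Real.sqrt_pos.2 hQ
  have n1 : ‖(s : ℂ) * u (j + 1) - (r : ℂ) * u j‖ = Real.sqrt (r ^ 2 + r * s + s ^ 2) := by
    have e : (s : ℂ) * u (j + 1) - (r : ℂ) * u j = ((r + s : ℝ) : ℂ) * u (j + 1) + ((r : ℝ) : ℂ) * u (j + 2) := by
      rw [u_sum' j]; push_cast; ring
    rw [e, norm_comb]; congr 1; ring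
  have n2 : ‖(s : ℂ) * u (j + 2) - (r : ℂ) * u j‖ = Real.sqrt (r ^ 2 + r * s + s ^ 2) := by
    have e : (s : ℂ) * u (j + 2) - (r : ℂ) * u j = ((r : ℝ) : ℂ) * u (j + 1) + ((r + s : ℝ) : ℂ) * u (j + 2) := by
      rw [u_sum' j]; push_cast; ring
    rw [e, norm_comb]; congr 1; ring
  unfold uv
  rw [n1, n2, ← add_div]
  unfold H
  have hSc : (Real.sqrt (r ^ 2 + r * s + s ^ 2) : ℂ) ≠ 0 := by exact_mod_cast hS.ne'
  rw [div_eq_iff hSc]
  have e : (((2 * r + s) / Real.sqrt (r ^ 2 + r * s + s ^ 2) : ℝ) : ℂ) * (Real.sqrt (r ^ 2 + r * s + s ^ 2) : ℂ) =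
      2 * (r : ℂ) + (s : ℂ) := by
    rw [← Complex.ofReal_mul, div_mul_cancel₀ _ hS.ne']; push_cast; ring
  rw [mul_right_comm, neg_mul, e, u_sum' j]; ring

theorem uv_bdry (j : Fin 3) (r : ℝ) {R : ℝ} (hR : 0 < R) :
    uv ((r : ℂ) * u j) (-(R : ℂ) * u (j + 1)) + uv ((r : ℂ) * u j) (-(R : ℂ) * u (j + 2)) =
      (f R r : ℂ) * u j := by
  have hQ := D_pos r hR
  have hS : 0 < Real.sqrt (R ^ 2 - R * r + r ^ 2) := Real.sqrt_pos.2 hQ
  have n1 : ‖-(R : ℂ) * u (j + 1) - (r : ℂ) * u j‖ = Real.sqrt (R ^ 2 - R * r + r ^ 2) := by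
    have e : -(R : ℂ) * u (j + 1) - (r : ℂ) * u j = ((r - R : ℝ) : ℂ) * u (j + 1) + ((r : ℝ) : ℂ) * u (j + 2) := by
      rw [u_sum' j]; push_cast; ring
    rw [e, norm_comb]; congr 1; ring
  have n2 : ‖-(R : ℂ) * u (j + 2) - (r : ℂ) * u j‖ = Real.sqrt (R ^ 2 - R * r + r ^ 2) := by
    have e : -(R : ℂ) * u (j + 2) - (r : ℂ) * u j = ((r : ℝ) : ℂ) * u (j + 1) + ((r - R : ℝ) : ℂ) * u (j + 2) := by
      rw [u_sum' j]; push_cast; ring
    rw [e, norm_comb]; congr 1; ring
  unfold uv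
  rw [n1, n2, ← add_div]
  unfold f
  have hSc : (Real.sqrt (R ^ 2 - R * r + r ^ 2) : ℂ) ≠ 0 := by exact_mod_cast hS.ne'
  rw [div_eq_iff hSc]
  have e : (((R - 2 * r) / Real.sqrt (R ^ 2 - R * r + r ^ 2) : ℝ) : ℂ) * (Real.sqrt (R ^ 2 - R * r + r ^ 2) : ℂ) =
      (R : ℂ) - 2 * (r : ℂ) := by
    rw [← Complex.ofReal_mul, div_mul_cancel₀ _ hS.ne']; push_cast; ring
  rw [mul_right_comm, e, u_sum' j]; ring

/-- the layer vertices are balanced -/
theorem balanced {N : ℕ} {r : Fin N → ℝ} (hr : ∀ i, 0 < r i ∧ r i ≤ 10)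
    (h : ∀ i, g A (r i) = ∑ j, (if nb i j then H (r i) (r j) else 0)) (i : Fin N) (j : Fin 3) :
    ∑ y : Ix N Λ, (Wf A (Sum.inl (i, j)) y : ℂ) * uv (posf A r (Sum.inl (i, j))) (posf A r y) = 0 := by
  have hpos : ∀ i, 0 < r i := fun i => by linarith [(hr i).1]
  rw [Fintype.sum_sum_type, Fintype.sum_prod_type, Fintype.sum_prod_type]
  have e1 : ∀ i' : Fin N, ∑ j' : Fin 3, (Wf A (Sum.inl (i, j)) (Sum.inl (i', j')) : ℂ) *
      uv (posf A r (Sum.inl (i, j))) (posf A r (Sum.inl (i', j'))) =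
      -(((if nb i i' then H (r i) (r i') else 0) : ℝ) : ℂ) * u j := by
    intro i'
    by_cases hn : nb i i'
    · rw [if_pos hn, ← uv_layer j (hpos i) (hpos i').le, ← sum_fin3 j (fun j' => uv ((r i : ℂ) * u j) ((r i' : ℂ) * u j'))]
      refine Finset.sum_congr rfl fun j' _ => ?_
      simp only [Wf, posf]
      by_cases hj : j' ≠ j
      · rw [if_pos ⟨hj.symm, hn⟩, if_pos hj]; simp
      · rw [if_neg (fun h => hj h.1.symm), if_neg hj]; simp
    · rw [if_neg hn]
      simp only [Wf]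
      have : ∀ j' : Fin 3, ¬ (j ≠ j' ∧ nb i i') := fun j' h => hn h.2
      simp [this]
  have e2 : ∀ l : Λ, ∑ k : Fin 3, (Wf A (Sum.inl (i, j)) (Sum.inr (l, k)) : ℂ) *
      uv (posf A r (Sum.inl (i, j))) (posf A r (Sum.inr (l, k))) =
      (((A.w l : ℝ) * f (A.R l) (r i) : ℝ) : ℂ) * u j := by
    intro l
    have hR : 0 < A.R l := by linarith [A.R_ge l]
    have e3 : (((A.w l : ℝ) * f (A.R l) (r i) : ℝ) : ℂ) * u j =
        (A.w l : ℂ) * (uv ((r i : ℂ) * u j) (-(A.R l : ℂ) * u (j + 1)) + uv ((r i : ℂ) * u j) (-(A.R l : ℂ) * u (j + 2))) := by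
      rw [uv_bdry j (r i) hR]; push_cast; ring
    rw [e3, ← sum_fin3 j (fun j' => uv ((r i : ℂ) * u j) (-(A.R l : ℂ) * u j')), Finset.mul_sum]
    refine Finset.sum_congr rfl fun j' _ => ?_
    simp only [Wf, posf]
    by_cases hj : j' ≠ j
    · rw [if_pos hj, if_pos hj]
    · rw [if_neg hj, if_neg hj]; simp
  rw [Finset.sum_congr rfl fun i' _ => e1 i', Finset.sum_congr rfl fun l _ => e2 l,
    ← Finset.sum_mul, ← Finset.sum_mul, Finset.sum_neg_distrib, ← Complex.ofReal_sum, ← Complex.ofReal_sum,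
    ← h i]
  unfold g
  ring

theorem conn_aux {N : ℕ} (hw : ∀ l, A.w l ≠ 0) (l0 : Λ) (hN : 0 < N) :
    ∀ x y : Ix N Λ, Relation.ReflTransGen (fun a b => Wf A a b ≠ 0) x y := by
  have e1 : ∀ (i : Fin N) (j : Fin 3) (l : Λ) (k : Fin 3), k ≠ j →
      Wf A (Sum.inl (i, j)) (Sum.inr (l, k)) ≠ 0 := by
    intro i j l k h
    simp only [Wf]
    rw [if_pos h]; exact hw l
  have e1' : ∀ (i : Fin N) (j : Fin 3) (l : Λ) (k : Fin 3), k ≠ j →
      Wf A (Sum.inr (l, k)) (Sum.inl (i, j)) ≠ 0 := by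
    intro i j l k h
    rw [Wf_symm]; exact e1 i j l k h
  have hex : ∀ j j' : Fin 3, ∃ k : Fin 3, k ≠ j ∧ k ≠ j' := by decide
  have hll : ∀ (i : Fin N) (j : Fin 3) (i' : Fin N) (j' : Fin 3),
      Relation.ReflTransGen (fun a b : Ix N Λ => Wf A a b ≠ 0) (Sum.inl (i, j)) (Sum.inl (i', j')) := by
    intro i j i' j'
    obtain ⟨k, h1, h2⟩ := hex j j'
    refine Relation.ReflTransGen.tail (b := Sum.inr (l0, k)) (Relation.ReflTransGen.single ?_) ?_
    · exact e1 i j l0 k h1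
    · exact e1' i' j' l0 k h2
  let i0 : Fin N := ⟨0, hN⟩
  have h1 : ∀ x : Ix N Λ, ∃ j, Relation.ReflTransGen (fun a b : Ix N Λ => Wf A a b ≠ 0) x (Sum.inl (i0, j)) := by
    rintro (⟨i, j⟩ | ⟨l, k⟩)
    · exact ⟨j, hll i j i0 j⟩
    · obtain ⟨j, hj, _⟩ := hex k k
      refine ⟨j, Relation.ReflTransGen.single ?_⟩
      exact e1' i0 j l k hj.symm
  have h2 : ∀ x : Ix N Λ, ∃ j, Relation.ReflTransGen (fun a b : Ix N Λ => Wf A a b ≠ 0) (Sum.inl (i0, j)) x := by
    rintro (⟨i, j⟩ | ⟨l, k⟩)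
    · exact ⟨j, hll i0 j i j⟩
    · obtain ⟨j, hj, _⟩ := hex k k
      refine ⟨j, Relation.ReflTransGen.single ?_⟩
      exact e1 i0 j l k hj.symm
  intro x y
  obtain ⟨j, hj⟩ := h1 x
  obtain ⟨j', hj'⟩ := h2 y
  exact (hj.trans (hll i0 j i0 j')).trans hj'

theorem degree_layer {N : ℕ} (hw : ∀ l, A.w l ≠ 0) (l0 : Λ) (i : Fin N) (j : Fin 3) :
    3 ≤ (Finset.univ.filter (fun y : Ix N Λ => Wf A (Sum.inl (i, j)) y ≠ 0)).card := by
  have hnb : nb i (nxt i) := by
    unfold nb nxt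
    split_ifs with h
    · left; rfl
    · right; right
      refine ⟨rfl, ?_⟩
      have := i.2; omega
  have hsub : ({Sum.inl (nxt i, j + 1), Sum.inl (nxt i, j + 2), Sum.inr (l0, j + 1)} : Finset (Ix N Λ)) ⊆
      Finset.univ.filter (fun y : Ix N Λ => Wf A (Sum.inl (i, j)) y ≠ 0) := by
    intro y hy
    simp only [Finset.mem_insert, Finset.mem_singleton] at hy
    rw [Finset.mem_filter]
    refine ⟨Finset.mem_univ _, ?_⟩
    have d1 := f3d j
    have d2 := f3e j
    rcases hy with rfl | rfl | rfl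
    · simp only [Wf]; rw [if_pos ⟨d1, hnb⟩]; norm_num
    · simp only [Wf]; rw [if_pos ⟨d2, hnb⟩]; norm_num
    · simp only [Wf]; rw [if_pos d1.symm]; exact hw l0
  have hcard : ({Sum.inl (nxt i, j + 1), Sum.inl (nxt i, j + 2), Sum.inr (l0, j + 1)} : Finset (Ix N Λ)).card = 3 := by
    rw [Finset.card_insert_of_notMem, Finset.card_insert_of_notMem, Finset.card_singleton]
    · simp
    · simp only [Finset.mem_insert, Finset.mem_singleton, not_or]
      constructor
      · intro h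
        have := (Sum.inl.inj h)
        rw [Prod.mk.injEq] at this
        exact f3f j this.2
      · intro h; cases h
  exact hcard.ge.trans (Finset.card_le_card hsub)

/-- two boundary points never lie on a common drawn segment -/
theorem On_bdry {k k1 : Fin 3} {α β : ℝ} {l : Λ} (h : On k α β (-(A.R l : ℂ) * u k1)) : k1 = k := by
  by_contra hne
  obtain ⟨X, Y, hX, hY, _, hz⟩ := h
  have hR := A.R_ge l
  rcases fin3_ne' (Ne.symm hne) with rfl | rfl
  · have := indep2 k (-A.R l) 0 X Y (by push_cast; linear_combination hz)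
    linarith [this.1]
  · have := indep2 k 0 (-A.R l) X Y (by push_cast; linear_combination hz)
    linarith [this.2]

end Pool.Agent.Y393.Net3T
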